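import Pool.Agent.L0h46.TQ.CU

/-!
# Project TQ, module CE: the number of the points of large height
-/

set_option autoImplicit false

namespace Pool.Agent.L0h46.TQ.CE

open Finset Pool.Agent.L0h46.TQ Pool.Agent.L0h46.TQ.CU

theorem hh_nonneg (x : ℤ × ℤ) : 0 ≤ hh x := Real.log_natCast_nonneg _

/-- the points of `Pts` of large height -/
theorem LINlarge (h2 : S_LIN) (k m : ℕ) (hk : 3 ≤ k) (α : Fin k → ℤ × ℤ) (hα : Indep α)
    (S : Finset ℕ) (g : ℝ) (hg : 0 < g) : ∃ t0 : ℝ, 0 < t0 ∧ ∃ η0 : ℝ, 0 < η0 ∧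
    ∀ t : ℝ, 0 < t → t ≤ t0 → ∀ η : ℝ, 0 < η → η ≤ η0 → η ≤ 2 / ((k : ℝ) + 2 * m) →
    ∃ C : ℝ, 0 < C ∧ ∀ X : ℝ, 1 ≤ X → ∀ F : Finset (ℤ × ℤ),
      (∀ x ∈ F, x ∈ Pts α S (X ^ ((k : ℝ) / ((k : ℝ) + 2 * m) + m * t)) ∧
        (1 / ((k : ℝ) + 2 * m) + g) * Real.log X ≤ hh x) →
      (F.card : ℝ) ≤ C * X ^ (2 / ((k : ℝ) + 2 * m) - η) := by
  have hk0 : (0 : ℝ) < k := by
    have : 0 < k := by omega
    exact_mod_cast this
  have hm0 : (0 : ℝ) ≤ m := Nat.cast_nonneg m
  set d : ℝ := (k : ℝ) + 2 * m with hd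
  have hd0 : 0 < d := by positivity
  obtain ⟨⟨C1, hC1, hP⟩, hL⟩ := h2 k hk α hα S
  set s : ℝ := g * d / (2 * k) with hs
  have hs0 : 0 < s := by positivity
  obtain ⟨ν, hν, C2, hC2, X0, hX0, hL2⟩ := hL s hs0
  set ν1 : ℝ := min ν (1 / k) with hν1
  have hν10 : 0 < ν1 := lt_min hν (by positivity)
  refine ⟨min (g / (2 * (1 / k + s) * (m + 1))) (ν1 * k ^ 2 / (4 * d * (m + 1))), ?_,
    ν1 * k / (2 * d), by positivity, ?_⟩
  · refine lt_min (by positivity) (by positivity)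
  intro t ht htt η hη hηη hη2
  have ht1 : t ≤ g / (2 * (1 / k + s) * (m + 1)) := htt.trans (min_le_left _ _)
  have ht2 : t ≤ ν1 * k ^ 2 / (4 * d * (m + 1)) := htt.trans (min_le_right _ _)
  have hX00 : 0 < X0 := by linarith
  refine ⟨C2 + C1 * X0 ^ (2 / (k : ℝ)), by positivity, fun X hX F hF => ?_⟩
  have hX1 : 0 < X := by linarith
  have hlX : 0 ≤ Real.log X := Real.log_nonneg hX
  set σ : ℝ := (k : ℝ) / d + m * t with hσ
  have hσ0 : 0 < σ := by positivity
  have hXσ : 1 ≤ X ^ σ := Real.one_le_rpow hX hσ0.le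
  have hpos : 0 < X ^ (2 / d - η) := Real.rpow_pos_of_pos hX1 _
  by_cases hc : X0 ≤ X ^ σ
  · -- the large values
    have h3 := hL2 (X ^ σ) hc F (fun x hx => by
      obtain ⟨h4, h5⟩ := hF x hx
      refine ⟨h4, ?_⟩
      rw [Real.log_rpow hX1]
      refine le_trans ?_ h5
      rw [← mul_assoc]
      refine mul_le_mul_of_nonneg_right ?_ hlX
      have h6 : (1 / (k : ℝ) + s) * (k / d) = 1 / d + g / 2 := by
        rw [hs]
        field_simp
      have h7 : (1 / (k : ℝ) + s) * (m * t) ≤ g / 2 := by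
        have h8 : 0 < 1 / (k : ℝ) + s := by positivity
        have h9 : t * (2 * (1 / k + s) * (m + 1)) ≤ g := by
          rwa [le_div_iff₀ (by positivity)] at ht1
        have h10 : (1 / (k : ℝ) + s) * (m * t) ≤ (1 / (k : ℝ) + s) * ((m + 1) * t) := by
          refine mul_le_mul_of_nonneg_left ?_ h8.le
          nlinarith
        nlinarith
      have h8 : (1 / (k : ℝ) + s) * σ = (1 / (k : ℝ) + s) * (k / d) +
          (1 / (k : ℝ) + s) * (m * t) := by rw [hσ]; ring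
      linarith)
    have h4 : (X ^ σ) ^ (2 / (k : ℝ) - ν) ≤ X ^ (2 / d - η) := by
      have h5 : (X ^ σ) ^ (2 / (k : ℝ) - ν) ≤ (X ^ σ) ^ (2 / (k : ℝ) - ν1) :=
        Real.rpow_le_rpow_of_exponent_le hXσ (by
          have := min_le_left ν (1 / (k : ℝ))
          linarith)
      refine h5.trans ?_
      rw [← Real.rpow_mul hX1.le]
      refine Real.rpow_le_rpow_of_exponent_le hX ?_
      have h6 : (k : ℝ) / d * (2 / k) = 2 / d := by field_simp
      have h7 : (k : ℝ) / d * ν1 = 2 * (ν1 * k / (2 * d)) := by field_simp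
      have h8 : (m : ℝ) * t * (2 / k) ≤ ν1 * k / (2 * d) := by
        have h9 : t * (4 * d * (m + 1)) ≤ ν1 * k ^ 2 := by
          rwa [le_div_iff₀ (by positivity)] at ht2
        have h10 : (m : ℝ) * t ≤ (m + 1) * t := by nlinarith
        rw [le_div_iff₀ (by positivity)]
        have h11 : (m : ℝ) * t * (2 / k) * (2 * d) = (4 * d * (m * t)) / k := by
          field_simp
          ring
        rw [h11, div_le_iff₀ hk0]
        nlinarith
      have h9 : 0 ≤ (m : ℝ) * t * ν1 := by positivity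
      have h10 : σ * (2 / (k : ℝ) - ν1) = (k : ℝ) / d * (2 / k) - (k : ℝ) / d * ν1 +
          (m * t * (2 / k) - m * t * ν1) := by rw [hσ]; ring
      rw [h10, h6, h7]
      linarith
    calc (F.card : ℝ) ≤ C2 * (X ^ σ) ^ (2 / (k : ℝ) - ν) := h3
      _ ≤ C2 * X ^ (2 / d - η) := mul_le_mul_of_nonneg_left h4 hC2.le
      _ ≤ (C2 + C1 * X0 ^ (2 / (k : ℝ))) * X ^ (2 / d - η) := by
          refine mul_le_mul_of_nonneg_right ?_ hpos.le
          have : 0 < C1 * X0 ^ (2 / (k : ℝ)) := by positivity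
          linarith
  · -- the small values
    push Not at hc
    have h3 := hP (X ^ σ) hXσ
    have h4 : (F.card : ℝ) ≤ ((Pts α S (X ^ σ)).ncard : ℝ) := by
      exact_mod_cast card_le_ncard_of_mem h3.1 (fun x hx => (hF x hx).1)
    have h5 : (X ^ σ) ^ (2 / (k : ℝ)) ≤ X0 ^ (2 / (k : ℝ)) :=
      Real.rpow_le_rpow (by positivity) hc.le (by positivity)
    have h6 : 1 ≤ X ^ (2 / d - η) := Real.one_le_rpow hX (by linarith)
    calc (F.card : ℝ) ≤ C1 * (X ^ σ) ^ (2 / (k : ℝ)) := h4.trans h3.2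
      _ ≤ C1 * X0 ^ (2 / (k : ℝ)) := mul_le_mul_of_nonneg_left h5 hC1.le
      _ ≤ (C2 + C1 * X0 ^ (2 / (k : ℝ))) * 1 := by linarith
      _ ≤ (C2 + C1 * X0 ^ (2 / (k : ℝ))) * X ^ (2 / d - η) :=
          mul_le_mul_of_nonneg_left h6 (by positivity)

theorem main (h1 : S_QL) (h2 : S_LIN) (h3 : S_CU) : S_CE := by
  classical
  intro k m hk α β S hα hβ B A δ hδ
  have hk0 : (3 : ℝ) ≤ k := by exact_mod_cast hk
  have hm0 : (0 : ℝ) ≤ m := Nat.cast_nonneg m
  set d : ℝ := (k : ℝ) + 2 * m with hd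
  have hd0 : 3 ≤ d := by linarith
  have hd1 : 0 < d := by linarith
  set δ' : ℝ := min δ 1 with hδ'
  have hδ'0 : 0 < δ' := lt_min hδ one_pos
  have hδ'1 : δ' ≤ 1 := min_le_right _ _
  have hδ'2 : δ' ≤ δ := min_le_left _ _
  set τ : ℝ := δ' / (4 * d) with hτ
  have hτ0 : 0 < τ := by positivity
  have hτd : d * τ = δ' / 4 := by
    rw [hτ]
    field_simp
  have hτ1 : τ < 1 := by nlinarith
  have hdδ : 0 < d - δ' := by linarith
  set g : ℝ := (3 * δ' / 4) / (d * (d - δ')) with hg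
  have hg0 : 0 < g := by positivity
  obtain ⟨t0, ht0, η0, hη0, hLL⟩ := LINlarge h2 k m hk α hα S g hg0
  set t : ℝ := min t0 (1 / d) with ht
  have ht1 : 0 < t := lt_min ht0 (by positivity)
  have ht2 : t ≤ 1 / d := min_le_right _ _
  have h2d : 2 / d = 1 / d + 1 / d := by ring
  set η : ℝ := min (min η0 (t / 2)) (τ / d) with hη
  have hη1 : 0 < η := lt_min (lt_min hη0 (by positivity)) (by positivity)
  have hη2 : η ≤ η0 := (min_le_left _ _).trans (min_le_left _ _)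
  have hη3 : η ≤ t / 2 := (min_le_left _ _).trans (min_le_right _ _)
  have hη4 : η ≤ τ / d := min_le_right _ _
  have hτd2 : τ / d ≤ 1 / d := div_le_div_of_nonneg_right hτ1.le hd1.le
  have hη5 : η ≤ 2 / d := by
    have : 0 < 1 / d := by positivity
    linarith
  obtain ⟨CL, hCL, hLb⟩ := hLL t ht1 (min_le_left _ _) η hη1 hη2 hη5
  obtain ⟨CC, hCC, hCb⟩ := h3 k m hk α β S hα hβ B (A / (1 - τ)) (τ / d) (by positivity)
  choose C hC hQb using fun j => QLbound h1 (β j) (hβ j) S B A (2 / d - t) (t / 2)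
    (by linarith [show (0 : ℝ) < 1 / d by positivity]) (by positivity)
  refine ⟨η, hη1, CC + (CL + ∑ j, C j), ?_, fun X hX => ?_⟩
  · have : 0 ≤ ∑ j, C j := Finset.sum_nonneg fun j _ => (hC j).le
    linarith
  have hX0 : 0 < X := by linarith
  have hlX : 0 ≤ Real.log X := Real.log_nonneg hX
  refine (fin_of_bound _ _ fun F hF => ?_).2
  set F1 := F.filter (fun x => NQ α β S x ≤ (1 - τ) * Real.log X) with hF1
  set F2 := F.filter (fun x => ¬ NQ α β S x ≤ (1 - τ) * Real.log X) with hF2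
  have hsplit : F.card = F1.card + F2.card := (Finset.card_filter_add_card_filter_not _).symm
  -- the first part
  have h1τ : 0 < 1 - τ := by linarith
  have hp1 : (F1.card : ℝ) ≤ CC * X ^ (2 / d - η) := by
    have h4 := hCb (X ^ (1 - τ)) (Real.one_le_rpow hX h1τ.le)
    have h5 : ∀ x ∈ F1, x ∈ PtsQ α β S B (A / (1 - τ)) (X ^ (1 - τ)) := by
      intro x hx
      obtain ⟨h6, h7⟩ := Finset.mem_filter.1 hx
      obtain ⟨⟨h8, h9, h10, h11⟩, -⟩ := hF x h6
      refine ⟨h8, h9, ?_, ?_⟩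
      · rw [← Real.rpow_mul hX0.le]
        have : (1 - τ) * (A / (1 - τ)) = A := by field_simp
        rw [this]
        exact h10
      · rw [Real.log_rpow hX0]
        exact h7
    have h6 : (F1.card : ℝ) ≤ ((PtsQ α β S B (A / (1 - τ)) (X ^ (1 - τ))).ncard : ℝ) := by
      exact_mod_cast card_le_ncard_of_mem h4.1 h5
    refine (h6.trans h4.2).trans ?_
    rw [← Real.rpow_mul hX0.le]
    refine mul_le_mul_of_nonneg_left (Real.rpow_le_rpow_of_exponent_le hX ?_) hCC.le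
    have h7 : (1 - τ) * (2 / d + τ / d) = 2 / d - τ / d - τ * (τ / d) := by ring
    have h8 : 0 ≤ τ * (τ / d) := by positivity
    linarith
  -- the second part
  have hp2 : (F2.card : ℝ) ≤ (CL + ∑ j, C j) * X ^ (2 / d - η) := by
    have hmem : ∀ x ∈ F2, x ∈ F ∧ (1 / d + g) * Real.log X ≤ hh x := by
      intro x hx
      obtain ⟨h6, h7⟩ := Finset.mem_filter.1 hx
      refine ⟨h6, ?_⟩
      have h8 := (hF x h6).2
      have h9 : NQ α β S x < (d - δ') * hh x := by
        have := hh_nonneg x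
        have h10 : (d - δ) * hh x ≤ (d - δ') * hh x :=
          mul_le_mul_of_nonneg_right (by linarith) this
        linarith
      have h10 : 1 / d + g = (1 - τ) / (d - δ') := by
        rw [hg]
        have h11 : (1 - τ) = (d - d * τ) / d := by
          field_simp
        rw [h11, hτd]
        field_simp
        ring
      rw [h10, div_mul_eq_mul_div, div_le_iff₀ hdδ]
      push Not at h7
      nlinarith
    have hσ : 1 - (m : ℝ) * (2 / d - t) ≤ k / d + m * t := by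
      have : 1 - (m : ℝ) * (2 / d) = k / d := by
        field_simp
        rw [hd]
        ring
      nlinarith
    obtain ⟨F0, Fj, ⟨h4, h5⟩, h6, h7⟩ := cover α β S X (2 / d - t) (k / d + m * t) hX hσ F2
      (fun x hx => by
        obtain ⟨⟨h8, h9, h10, h11⟩, -⟩ := hF x (hmem x hx).1
        exact ⟨h8, h9, h11⟩)
    have h8 : (F0.card : ℝ) ≤ CL * X ^ (2 / d - η) :=
      hLb X hX F0 fun x hx => ⟨h5 x hx, (hmem x (h4 hx)).2⟩
    have h9 : ∀ j, ((Fj j).card : ℝ) ≤ C j * X ^ (2 / d - η) := fun j => by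
      have h10 := hQb j X hX (Fj j) fun x hx =>
        ⟨(hF x (hmem x ((h6 j).1 hx)).1).1.2.2.1, (h6 j).2 x hx⟩
      refine h10.trans (mul_le_mul_of_nonneg_left
        (Real.rpow_le_rpow_of_exponent_le hX (by linarith)) (hC j).le)
    have h10 : ∑ j, ((Fj j).card : ℝ) ≤ (∑ j, C j) * X ^ (2 / d - η) := by
      rw [Finset.sum_mul]
      exact Finset.sum_le_sum fun j _ => h9 j
    calc (F2.card : ℝ) ≤ F0.card + ∑ j, ((Fj j).card : ℝ) := h7
      _ ≤ CL * X ^ (2 / d - η) + (∑ j, C j) * X ^ (2 / d - η) := add_le_add h8 h10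
      _ = (CL + ∑ j, C j) * X ^ (2 / d - η) := by ring
  rw [hsplit]
  push_cast
  calc (F1.card : ℝ) + F2.card ≤ CC * X ^ (2 / d - η) + (CL + ∑ j, C j) * X ^ (2 / d - η) :=
        add_le_add hp1 hp2
    _ = (CC + (CL + ∑ j, C j)) * X ^ (2 / d - η) := by ring

end Pool.Agent.L0h46.TQ.CE
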