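import Pool.Agent.L0h46.TQ.Defs

/-!
# Project TQ, module CU: the number of points
-/

set_option autoImplicit false

namespace Pool.Agent.L0h46.TQ.CU

open Finset Pool.Agent.L0h46.TQ

theorem fin_of_bound {ι : Type} (s : Set ι) (M : ℝ)
    (h : ∀ F : Finset ι, (∀ x ∈ F, x ∈ s) → (F.card : ℝ) ≤ M) :
    s.Finite ∧ (s.ncard : ℝ) ≤ M := by
  have hf : s.Finite := by
    by_contra hc
    have hinf : s.Infinite := hc
    obtain ⟨n, hn⟩ := exists_nat_gt M
    obtain ⟨F, hF, hcard⟩ := hinf.exists_subset_card_eq n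
    have h1 := h F (fun x hx => hF (by exact_mod_cast hx))
    rw [hcard] at h1
    linarith
  refine ⟨hf, ?_⟩
  have h1 := h hf.toFinset (fun x hx => by simpa using hx)
  rw [Set.ncard_eq_toFinset_card s hf]
  exact h1

theorem lg_nonneg (S : Finset ℕ) (n : ℤ) : 0 ≤ lg S n := by
  unfold lg
  refine Finset.sum_nonneg fun p hp => Real.log_nonneg ?_
  have : p.Prime := Nat.prime_of_mem_primeFactors (Finset.mem_sdiff.1 hp).1
  exact_mod_cast this.one_lt.le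

theorem N1_nonneg {q : ℕ} (α : Fin q → ℤ × ℤ) (S : Finset ℕ) (x : ℤ × ℤ) : 0 ≤ N1 α S x := by
  unfold N1
  refine Finset.sum_nonneg fun i _ => Finset.sum_nonneg fun p hp => Real.log_nonneg ?_
  have : p.Prime := Nat.prime_of_mem_primeFactors (Finset.mem_sdiff.1 hp).1
  exact_mod_cast this.one_lt.le

/-- the consequence of QL that is used -/
theorem QLbound (h1 : S_QL) (β : ℤ × ℤ) (hβ : Irr β) (S : Finset ℕ) (B A ρ ε : ℝ) (hρ : 0 ≤ ρ)
    (hε : 0 < ε) : ∃ C : ℝ, 0 < C ∧ ∀ X : ℝ, 1 ≤ X → ∀ F : Finset (ℤ × ℤ),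
      (∀ x ∈ F, (htn x : ℝ) ≤ B * X ^ A ∧ lg S (Qf β x) ≤ ρ * Real.log X) →
      (F.card : ℝ) ≤ C * X ^ (ρ + ε) := by
  set ε' : ℝ := ε / (1 + |A|) with hε'
  have hA : 0 ≤ |A| := abs_nonneg A
  have hε'0 : 0 < ε' := by positivity
  obtain ⟨C, hC, hb⟩ := h1 β hβ S ε' hε'0
  have hB1 : (1 : ℝ) ≤ max 1 |B| := le_max_left _ _
  refine ⟨C * (max 1 |B|) ^ ε', by positivity, fun X hX F hF => ?_⟩
  have hX0 : 0 < X := by linarith
  have hXA : (1 : ℝ) ≤ X ^ |A| := Real.one_le_rpow hX hA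
  have hY : (1 : ℝ) ≤ max 1 |B| * X ^ |A| := by nlinarith
  have hR : (1 : ℝ) ≤ X ^ ρ := Real.one_le_rpow hX hρ
  have h2 := hb (max 1 |B| * X ^ |A|) (X ^ ρ) hY hR F (fun x hx => by
    obtain ⟨h3, h4⟩ := hF x hx
    refine ⟨h3.trans ?_, ?_⟩
    · calc B * X ^ A ≤ |B| * X ^ A := by
            have : 0 ≤ X ^ A := (Real.rpow_pos_of_pos hX0 A).le
            exact mul_le_mul_of_nonneg_right (le_abs_self B) this
        _ ≤ |B| * X ^ |A| :=
            mul_le_mul_of_nonneg_left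
              (Real.rpow_le_rpow_of_exponent_le hX (le_abs_self A)) (abs_nonneg B)
        _ ≤ max 1 |B| * X ^ |A| :=
            mul_le_mul_of_nonneg_right (le_max_right _ _) (by linarith)
    · rw [Real.log_rpow hX0]
      exact h4)
  refine h2.trans ?_
  have h5 : (max 1 |B| * X ^ |A|) ^ ε' = (max 1 |B|) ^ ε' * X ^ (|A| * ε') := by
    rw [Real.mul_rpow (by positivity) (by positivity), ← Real.rpow_mul hX0.le]
  have h6 : |A| * ε' ≤ ε := by
    rw [hε']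
    have h7 : |A| * (ε / (1 + |A|)) = ε * (|A| / (1 + |A|)) := by ring
    rw [h7]
    have h8 : |A| / (1 + |A|) ≤ 1 := by
      rw [div_le_one (by positivity)]
      linarith
    nlinarith
  have h7 : X ^ (|A| * ε') ≤ X ^ ε := Real.rpow_le_rpow_of_exponent_le hX h6
  rw [h5, Real.rpow_add hX0]
  have h8 : 0 < (max 1 |B|) ^ ε' := by positivity
  have h9 : 0 < X ^ ρ := by positivity
  calc C * X ^ ρ * ((max 1 |B|) ^ ε' * X ^ (|A| * ε'))
      = (C * (max 1 |B|) ^ ε' * X ^ ρ) * X ^ (|A| * ε') := by ring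
    _ ≤ (C * (max 1 |B|) ^ ε' * X ^ ρ) * X ^ ε := by
        exact mul_le_mul_of_nonneg_left h7 (by positivity)
    _ = C * (max 1 |B|) ^ ε' * (X ^ ρ * X ^ ε) := by ring

/-- the covering of a set of points by those with a small radical and by the points of `Pts` -/
theorem cover {k m : ℕ} (α : Fin k → ℤ × ℤ) (β : Fin m → ℤ × ℤ) (S : Finset ℕ) (X ρ σ : ℝ)
    (hX : 1 ≤ X) (hσ : 1 - m * ρ ≤ σ) (F : Finset (ℤ × ℤ))
    (hF : ∀ x ∈ F, Nrm x ∧ (∀ i, Lf (α i) x ≠ 0) ∧ NQ α β S x ≤ Real.log X) :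
    ∃ F0 : Finset (ℤ × ℤ), ∃ Fj : Fin m → Finset (ℤ × ℤ),
      (F0 ⊆ F ∧ ∀ x ∈ F0, x ∈ Pts α S (X ^ σ)) ∧
      (∀ j, Fj j ⊆ F ∧ ∀ x ∈ Fj j, lg S (Qf (β j) x) ≤ ρ * Real.log X) ∧
      (F.card : ℝ) ≤ F0.card + ∑ j, ((Fj j).card : ℝ) := by
  classical
  have hX0 : 0 < X := by linarith
  have hlX : 0 ≤ Real.log X := Real.log_nonneg hX
  refine ⟨F.filter (fun x => x ∈ Pts α S (X ^ σ)),
    fun j => F.filter (fun x => lg S (Qf (β j) x) ≤ ρ * Real.log X), ?_, ?_, ?_⟩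
  · exact ⟨Finset.filter_subset _ _, fun x hx => (Finset.mem_filter.1 hx).2⟩
  · exact fun j => ⟨Finset.filter_subset _ _, fun x hx => (Finset.mem_filter.1 hx).2⟩
  have hsub : F ⊆ (F.filter (fun x => x ∈ Pts α S (X ^ σ))) ∪
      (Finset.univ.biUnion fun j => F.filter (fun x => lg S (Qf (β j) x) ≤ ρ * Real.log X)) := by
    intro x hx
    by_cases hc : ∃ j, lg S (Qf (β j) x) ≤ ρ * Real.log X
    · obtain ⟨j, hj⟩ := hc
      refine Finset.mem_union_right _ (Finset.mem_biUnion.2 ⟨j, Finset.mem_univ j, ?_⟩)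
      exact Finset.mem_filter.2 ⟨hx, hj⟩
    · push Not at hc
      refine Finset.mem_union_left _ (Finset.mem_filter.2 ⟨hx, ?_⟩)
      obtain ⟨h1, h2, h3⟩ := hF x hx
      refine ⟨h1, h2, ?_⟩
      rw [Real.log_rpow hX0]
      have h4 : (m : ℝ) * (ρ * Real.log X) ≤ ∑ j, lg S (Qf (β j) x) := by
        have h5 : ∑ _j : Fin m, (ρ * Real.log X) ≤ ∑ j, lg S (Qf (β j) x) :=
          Finset.sum_le_sum fun j _ => (hc j).le
        simpa using h5
      unfold NQ at h3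
      nlinarith
  have hcard := (Finset.card_le_card hsub).trans (Finset.card_union_le _ _)
  have hcard2 := Finset.card_biUnion_le (s := (Finset.univ : Finset (Fin m)))
    (t := fun j => F.filter (fun x => lg S (Qf (β j) x) ≤ ρ * Real.log X))
  have hcard3 : F.card ≤ (F.filter (fun x => x ∈ Pts α S (X ^ σ))).card +
      ∑ j, (F.filter (fun x => lg S (Qf (β j) x) ≤ ρ * Real.log X)).card := by omega
  exact_mod_cast hcard3

theorem card_le_ncard_of_mem {F : Finset (ℤ × ℤ)} {s : Set (ℤ × ℤ)} (hs : s.Finite)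
    (h : ∀ x ∈ F, x ∈ s) : F.card ≤ s.ncard := by
  rw [← Set.ncard_coe_finset F]
  exact Set.ncard_le_ncard (fun x hx => h x (by exact_mod_cast hx)) hs

theorem main (h1 : S_QL) (h2 : S_LIN) : S_CU := by
  intro k m hk α β S hα hβ B A ε hε
  have hk0 : (0 : ℝ) < k := by
    have : 0 < k := by omega
    exact_mod_cast this
  have hm0 : (0 : ℝ) ≤ m := Nat.cast_nonneg m
  set d : ℝ := (k : ℝ) + 2 * m with hd
  have hd0 : 0 < d := by positivity
  obtain ⟨⟨C1, hC1, hP⟩, -⟩ := h2 k hk α hα S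
  choose C hC hCb using fun j => QLbound h1 (β j) (hβ j) S B A (2 / d) ε (by positivity) hε
  refine ⟨C1 + ∑ j, C j, ?_, fun X hX => ?_⟩
  · have : 0 ≤ ∑ j, C j := Finset.sum_nonneg fun j _ => (hC j).le
    linarith
  have hX0 : 0 < X := by linarith
  refine fin_of_bound _ _ fun F hF => ?_
  have hσ : 1 - (m : ℝ) * (2 / d) ≤ k / d := by
    have : 1 - (m : ℝ) * (2 / d) = k / d := by
      field_simp
      rw [hd]
      ring
    exact this.le
  obtain ⟨F0, Fj, ⟨h3, h4⟩, h5, h6⟩ := cover α β S X (2 / d) (k / d) hX hσ F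
    (fun x hx => ⟨(hF x hx).1, (hF x hx).2.1, (hF x hx).2.2.2⟩)
  have h7 : (F0.card : ℝ) ≤ C1 * X ^ (2 / d + ε) := by
    have h8 := hP (X ^ (k / d)) (Real.one_le_rpow hX (by positivity))
    have h9 : (F0.card : ℝ) ≤ ((Pts α S (X ^ (k / d))).ncard : ℝ) := by
      exact_mod_cast card_le_ncard_of_mem h8.1 h4
    refine (h9.trans h8.2).trans ?_
    rw [← Real.rpow_mul hX0.le]
    have h10 : (k : ℝ) / d * (2 / k) ≤ 2 / d + ε := by
      have : (k : ℝ) / d * (2 / k) = 2 / d := by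
        field_simp
      rw [this]
      linarith
    exact mul_le_mul_of_nonneg_left (Real.rpow_le_rpow_of_exponent_le hX h10) hC1.le
  have h8 : ∀ j, ((Fj j).card : ℝ) ≤ C j * X ^ (2 / d + ε) := fun j =>
    hCb j X hX (Fj j) fun x hx =>
      ⟨(hF x ((h5 j).1 hx)).2.2.1, (h5 j).2 x hx⟩
  have h9 : ∑ j, ((Fj j).card : ℝ) ≤ (∑ j, C j) * X ^ (2 / d + ε) := by
    rw [Finset.sum_mul]
    exact Finset.sum_le_sum fun j _ => h8 j
  calc (F.card : ℝ) ≤ F0.card + ∑ j, ((Fj j).card : ℝ) := h6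
    _ ≤ C1 * X ^ (2 / d + ε) + (∑ j, C j) * X ^ (2 / d + ε) := add_le_add h7 h9
    _ = (C1 + ∑ j, C j) * X ^ (2 / d + ε) := by ring

end Pool.Agent.L0h46.TQ.CU
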