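import Pool.Agent.L0h46.TQ.Defs2
import Pool.Agent.L0h46.TQ.CU

/-!
# Project TQ, module CT: the points of very large height
-/

set_option autoImplicit false

namespace Pool.Agent.L0h46.TQ.CT

open Finset Pool.Agent.L0h46.TQ

theorem main (h1 : S_QL) (h2 : S_TAL) (h3 : S_LIN) : S_CT := by
  intro ε hε
  obtain ⟨M, hM, hT⟩ := h2 ε hε
  have hM1 : (1 : ℝ) ≤ M := by exact_mod_cast hM
  refine ⟨M, hM1, ?_⟩
  intro k m hk α β S hα hβ B A
  have hk0 : (0 : ℝ) < k := by
    have : 0 < k := by omega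
    exact_mod_cast this
  have hm0 : (0 : ℝ) ≤ m := Nat.cast_nonneg m
  set d : ℝ := (k : ℝ) + m with hd
  have hd0 : 0 < d := by positivity
  obtain ⟨⟨C1, hC1, hP⟩, -⟩ := h3 k hk α hα S
  obtain ⟨C2, hC2, hQ⟩ := hT k hk α hα S ((|A| + 1) * (d / k))
  choose C hC hCb using fun j => CU.QLbound h1 (β j) (hβ j) S B A (1 / d) ε (by positivity) hε
  set X0 : ℝ := max B 1 with hX0d
  have hX01 : 1 ≤ X0 := le_max_right _ _
  set C0 : ℝ := C1 * X0 ^ (2 / (k : ℝ)) with hC0
  have hC00 : 0 < C0 := by positivity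
  have hsum : 0 ≤ ∑ j, C j := Finset.sum_nonneg fun j _ => (hC j).le
  refine ⟨C0 + (C2 + ∑ j, C j), by positivity, fun X hX => ?_⟩
  have hXp : 0 < X := by linarith
  refine CU.fin_of_bound _ _ fun F hF => ?_
  have hE : (1 : ℝ) ≤ X ^ (1 / d + ε) := Real.one_le_rpow hX (by positivity)
  by_cases hXX : X < X0
  · have h4 : ∀ x ∈ F, x ∈ Pts α S X0 := fun x hx => by
      obtain ⟨⟨a1, a2, a3, a4⟩, a5⟩ := hF x hx
      refine ⟨a1, a2, ?_⟩
      have h5 : 0 ≤ ∑ j, lg S (Qf (β j) x) := Finset.sum_nonneg fun j _ => CU.lg_nonneg _ _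
      have h6 : Real.log X ≤ Real.log X0 := Real.log_le_log hXp hXX.le
      unfold NQ at a4
      linarith
    have h8 := hP X0 hX01
    have h9 : (F.card : ℝ) ≤ ((Pts α S X0).ncard : ℝ) := by
      exact_mod_cast CU.card_le_ncard_of_mem h8.1 h4
    have h10 : (F.card : ℝ) ≤ C0 := h9.trans h8.2
    have h11 : 0 ≤ (C2 + ∑ j, C j) * X ^ (1 / d + ε) := by positivity
    nlinarith
  · push Not at hXX
    have hσ : 1 - (m : ℝ) * (1 / d) ≤ k / d := by
      have : 1 - (m : ℝ) * (1 / d) = k / d := by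
        field_simp
        rw [hd]
        ring
      exact this.le
    obtain ⟨F0, Fj, ⟨h4, h5⟩, h6, h7⟩ := CU.cover α β S X (1 / d) (k / d) hX hσ F
      (fun x hx => ⟨(hF x hx).1.1, (hF x hx).1.2.1, (hF x hx).1.2.2.2⟩)
    have hXk : 1 ≤ X ^ ((k : ℝ) / d) := Real.one_le_rpow hX (by positivity)
    have h8 : ∀ x ∈ F0, x ∈ Tall α S M ((|A| + 1) * (d / k)) (X ^ ((k : ℝ) / d)) := fun x hx => by
      obtain ⟨⟨a1, a2, a3, a4⟩, a5⟩ := hF x (h4 hx)
      refine ⟨a1, a2, (h5 x hx).2.2, ?_, ?_⟩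
      · have h9 : 0 ≤ ∑ j, lg S (Qf (β j) x) := Finset.sum_nonneg fun j _ => CU.lg_nonneg _ _
        have h10 : N1 α S x ≤ NQ α β S x := by unfold NQ; linarith
        have h11 : hh x = Real.log (htn x) := rfl
        rw [← h11]
        exact (mul_le_mul_of_nonneg_left h10 (by linarith)).trans a5
      · rw [← Real.rpow_mul hXp.le]
        have h9 : (k : ℝ) / d * ((|A| + 1) * (d / k)) = |A| + 1 := by
          field_simp
        rw [h9]
        refine a3.trans ?_
        have h10 : B * X ^ A ≤ X * X ^ A :=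
          mul_le_mul_of_nonneg_right ((le_max_left _ _).trans hXX) (Real.rpow_nonneg hXp.le _)
        refine h10.trans ?_
        have h11 : X * X ^ A ≤ X * X ^ |A| := mul_le_mul_of_nonneg_left
          (Real.rpow_le_rpow_of_exponent_le hX (le_abs_self A)) hXp.le
        refine h11.trans ?_
        rw [Real.rpow_add hXp, Real.rpow_one, mul_comm]
    have h9 : (F0.card : ℝ) ≤ C2 * X ^ (1 / d + ε) := by
      have h10 := hQ (X ^ ((k : ℝ) / d)) hXk
      have h11 : (F0.card : ℝ) ≤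
          ((Tall α S M ((|A| + 1) * (d / k)) (X ^ ((k : ℝ) / d))).ncard : ℝ) := by
        exact_mod_cast CU.card_le_ncard_of_mem h10.1 h8
      refine (h11.trans h10.2).trans ?_
      rw [← Real.rpow_mul hXp.le]
      have h12 : (k : ℝ) / d * (1 / k + ε) ≤ 1 / d + ε := by
        have e1 : (k : ℝ) / d * (1 / k + ε) = 1 / d + (k / d) * ε := by
          field_simp
        have e2 : (k : ℝ) / d ≤ 1 := by
          rw [div_le_one hd0, hd]; linarith
        rw [e1]
        nlinarith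
      exact mul_le_mul_of_nonneg_left (Real.rpow_le_rpow_of_exponent_le hX h12) hC2.le
    have h10 : ∀ j, ((Fj j).card : ℝ) ≤ C j * X ^ (1 / d + ε) := fun j =>
      hCb j X hX (Fj j) fun x hx =>
        ⟨(hF x ((h6 j).1 hx)).1.2.2.1, (h6 j).2 x hx⟩
    have h11 : ∑ j, ((Fj j).card : ℝ) ≤ (∑ j, C j) * X ^ (1 / d + ε) := by
      rw [Finset.sum_mul]
      exact Finset.sum_le_sum fun j _ => h10 j
    have h12 : 0 ≤ C0 * X ^ (1 / d + ε) := by positivity
    calc (F.card : ℝ) ≤ F0.card + ∑ j, ((Fj j).card : ℝ) := h7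
      _ ≤ C2 * X ^ (1 / d + ε) + (∑ j, C j) * X ^ (1 / d + ε) := add_le_add h9 h11
      _ ≤ (C0 + (C2 + ∑ j, C j)) * X ^ (1 / d + ε) := by nlinarith

end Pool.Agent.L0h46.TQ.CT
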