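import Pool.Agent.L0h46.TQ.Defs

/-!
# Project TQ, module GD: the pairs used for the lower bound
-/

set_option autoImplicit false

namespace Pool.Agent.L0h46.TQ.GD

open Finset Pool.Agent.L0h46.TQ

theorem sum_sq_le (N : ℕ) (hN : 2 ≤ N) :
    ∑ d ∈ Finset.Icc 2 N, (1 : ℝ) / (d : ℝ) ^ 2 ≤ 3 / 4 - 1 / N := by
  induction N, hN using Nat.le_induction with
  | base => norm_num
  | succ n hn ih =>
    rw [Finset.sum_Icc_succ_top (by omega)]
    have hn0 : (0 : ℝ) < n := by exact_mod_cast (by omega : 0 < n)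
    have h1 : (1 : ℝ) / ((n + 1 : ℕ) : ℝ) ^ 2 ≤ 1 / n - 1 / ((n + 1 : ℕ) : ℝ) := by
      push_cast
      rw [div_sub_div _ _ hn0.ne' (by positivity), div_le_div_iff₀ (by positivity)
        (by positivity)]
      nlinarith
    linarith

/-- coprime pairs -/
def cp (N : ℕ) : Finset (ℕ × ℕ) :=
  ((Finset.Ioc 0 N) ×ˢ (Finset.Ioc 0 N)).filter fun p => Nat.Coprime p.1 p.2

theorem coprime_count (N : ℕ) (hN : 1 ≤ N) : (N : ℝ) ^ 2 / 4 ≤ ((cp N).card : ℝ) := by
  classical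
  have hN0 : (0 : ℝ) < N := by exact_mod_cast hN
  set P := (Finset.Ioc 0 N) ×ˢ (Finset.Ioc 0 N) with hP
  set Q' := P.filter fun p => ¬ Nat.Coprime p.1 p.2 with hQ'
  have hPc : P.card = N * N := by
    rw [hP, Finset.card_product, Nat.card_Ioc, Nat.sub_zero]
  have h1 : P.card = (cp N).card + Q'.card :=
    (Finset.card_filter_add_card_filter_not (s := P) (fun p => Nat.Coprime p.1 p.2)).symm
  have h2 : Q'.card ≤ ∑ d ∈ Finset.Icc 2 N, (N / d) * (N / d) := by
    have hsub : Q' ⊆ (Finset.Icc 2 N).biUnion fun d =>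
        ((Finset.Ioc 0 N).filter fun a => d ∣ a) ×ˢ ((Finset.Ioc 0 N).filter fun a => d ∣ a) := by
      intro p hp
      obtain ⟨h3, h4⟩ := Finset.mem_filter.1 hp
      obtain ⟨h5, h6⟩ := Finset.mem_product.1 h3
      obtain ⟨q, hq, hq1, hq2⟩ := Nat.Prime.not_coprime_iff_dvd.1 h4
      rw [Finset.mem_biUnion]
      refine ⟨q, Finset.mem_Icc.2 ⟨hq.two_le, ?_⟩, Finset.mem_product.2
        ⟨Finset.mem_filter.2 ⟨h5, hq1⟩, Finset.mem_filter.2 ⟨h6, hq2⟩⟩⟩
      exact (Nat.le_of_dvd (Finset.mem_Ioc.1 h5).1 hq1).trans (Finset.mem_Ioc.1 h5).2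
    refine (Finset.card_le_card hsub).trans (Finset.card_biUnion_le.trans
      (Finset.sum_le_sum fun d _ => ?_))
    rw [Finset.card_product, Nat.Ioc_filter_dvd_card_eq_div]
  have h3 : ((∑ d ∈ Finset.Icc 2 N, (N / d) * (N / d) : ℕ) : ℝ) ≤ 3 / 4 * (N : ℝ) ^ 2 := by
    rcases Nat.lt_or_ge N 2 with h | h
    · rw [Finset.Icc_eq_empty (by omega), Finset.sum_empty, Nat.cast_zero]
      positivity
    · push_cast
      calc ∑ d ∈ Finset.Icc 2 N, (((N / d : ℕ) : ℝ) * ((N / d : ℕ) : ℝ)) ≤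
          ∑ d ∈ Finset.Icc 2 N, (N : ℝ) ^ 2 * (1 / (d : ℝ) ^ 2) := by
            refine Finset.sum_le_sum fun d hd => ?_
            have hd0 : (0 : ℝ) < d := by
              have := (Finset.mem_Icc.1 hd).1
              exact_mod_cast (by omega : 0 < d)
            have h4 : ((N / d : ℕ) : ℝ) ≤ (N : ℝ) / d := Nat.cast_div_le
            calc ((N / d : ℕ) : ℝ) * ((N / d : ℕ) : ℝ) ≤ (N : ℝ) / d * ((N : ℝ) / d) :=
                mul_le_mul h4 h4 (Nat.cast_nonneg _) (by positivity)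
              _ = _ := by field_simp
        _ = (N : ℝ) ^ 2 * ∑ d ∈ Finset.Icc 2 N, (1 / (d : ℝ) ^ 2) := by rw [Finset.mul_sum]
        _ ≤ (N : ℝ) ^ 2 * (3 / 4) := by
            refine mul_le_mul_of_nonneg_left ?_ (by positivity)
            have := sum_sq_le N h
            have h5 : (0 : ℝ) < 1 / N := by positivity
            linarith
        _ = _ := by ring
  have h5 : (Q'.card : ℝ) ≤ 3 / 4 * (N : ℝ) ^ 2 := by
    refine le_trans ?_ h3
    exact_mod_cast h2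
  have h6 : ((N : ℝ) * N) = (cp N).card + Q'.card := by
    rw [hPc] at h1
    exact_mod_cast h1
  nlinarith

theorem key : ∀ a b : Fin 30, (2 ∣ a.1 ∧ 2 ∣ b.1) ∨ (3 ∣ a.1 ∧ 3 ∣ b.1) ∨
    (5 ∣ a.1 ∧ 5 ∣ b.1) ∨ ∃ k : Fin 30, Nat.gcd (a.1 + k.1 * b.1) 30 = 1 := by
  decide +kernel

theorem exists_k (a b : ℕ) (h : Nat.Coprime a b) :
    ∃ k < 30, Nat.Coprime (a + k * b) 30 := by
  have hno : ∀ p : ℕ, p.Prime → p ∣ 30 → ¬ (p ∣ a % 30 ∧ p ∣ b % 30) := by
    rintro p hp h30 ⟨h1, h2⟩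
    have h3 : p ∣ a := (Nat.dvd_mod_iff h30).1 h1
    have h4 : p ∣ b := (Nat.dvd_mod_iff h30).1 h2
    exact Nat.Prime.one_lt hp |>.ne' (Nat.eq_one_of_dvd_coprimes h h3 h4)
  obtain ⟨⟨k, hk⟩, hk2⟩ : ∃ k : Fin 30, Nat.gcd (a % 30 + k.1 * (b % 30)) 30 = 1 := by
    rcases key ⟨a % 30, Nat.mod_lt _ (by norm_num)⟩ ⟨b % 30, Nat.mod_lt _ (by norm_num)⟩ with
      h | h | h | h
    · exact absurd h (hno 2 (by norm_num) (by norm_num))
    · exact absurd h (hno 3 (by norm_num) (by norm_num))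
    · exact absurd h (hno 5 (by norm_num) (by norm_num))
    · exact h
  refine ⟨k, hk, ?_⟩
  have h1 : a + k * b ≡ a % 30 + k * (b % 30) [MOD 30] :=
    Nat.ModEq.add (Nat.mod_modEq a 30).symm ((Nat.mod_modEq b 30).symm.mul_left k)
  unfold Nat.Coprime
  rw [h1.gcd_eq]
  exact hk2

theorem main : S_GD := by
  classical
  choose! K hK1 hK2 using fun (p : ℕ × ℕ) (h : Nat.Coprime p.1 p.2) => exists_k p.1 p.2 h
  refine ⟨1 / 120, by norm_num, 31, fun N hN => ?_⟩
  set f : ℕ × ℕ → ℕ × ℕ := fun p => (p.2, p.1 + K p * p.2) with hf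
  refine ⟨(cp N).image f, ?_, ?_⟩
  · have h1 : (cp N).card ≤ 30 * ((cp N).image f).card := by
      refine Finset.card_le_mul_card_image (cp N) 30 fun g hg => ?_
      have h2 : ((cp N).filter fun x => f x = g).card ≤ (Finset.range 30).card := by
        refine Finset.card_le_card_of_injOn K ?_ ?_
        · intro x hx
          have hx' := Finset.mem_filter.1 (Finset.mem_coe.1 hx)
          have := hK1 x (Finset.mem_filter.1 hx'.1).2
          simpa using this
        · intro x hx y hy hxy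
          have hx' := (Finset.mem_filter.1 (Finset.mem_coe.1 hx)).2
          have hy' := (Finset.mem_filter.1 (Finset.mem_coe.1 hy)).2
          have h3 : f x = f y := hx'.trans hy'.symm
          simp only [hf, Prod.mk.injEq] at h3
          obtain ⟨h4, h5⟩ := h3
          rw [hxy, h4] at h5
          exact Prod.ext (Nat.add_right_cancel h5) h4
      simpa using h2
    have h2 := coprime_count N hN
    have h3 : ((cp N).card : ℝ) ≤ 30 * (((cp N).image f).card : ℝ) := by exact_mod_cast h1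
    linarith
  · intro p hp
    obtain ⟨x, hx, rfl⟩ := Finset.mem_image.1 hp
    obtain ⟨h1, h2⟩ := Finset.mem_filter.1 hx
    obtain ⟨h3, h4⟩ := Finset.mem_product.1 h1
    obtain ⟨h5, h6⟩ := Finset.mem_Ioc.1 h3
    obtain ⟨h7, h8⟩ := Finset.mem_Ioc.1 h4
    have h9 := hK1 x h2
    refine ⟨⟨h7, ?_, ?_, hK2 x h2⟩, ?_, ?_⟩
    · show 0 < x.1 + K x * x.2
      omega
    · show Nat.Coprime x.2 (x.1 + K x * x.2)
      have h10 : Nat.Coprime (x.1 + K x * x.2) x.2 := by
        rw [Nat.coprime_add_mul_right_left]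
        exact h2
      exact h10.symm
    · show x.2 ≤ 31 * N
      omega
    · show x.1 + K x * x.2 ≤ 31 * N
      have : K x * x.2 ≤ 30 * N := Nat.mul_le_mul h9.le h8
      omega

end Pool.Agent.L0h46.TQ.GD
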