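import Pool.Agent.L0h46.TQ.GCom

/-!
# TQ, module GE: the number of the exceptions
-/

set_option autoImplicit false

namespace Pool.Agent.L0h46.TQ.GE

open Finset Pool.Agent.L0h46.TQ.GCom

/-- the numerical part -/
lemma good_num {d μ r δ δ' ε l t u a D lk S0 : ℝ} (hd : 3 ≤ d) (hrd : r * d = μ) (hμ : 0 ≤ μ)
    (hr : 0 ≤ r) (hδ : 0 < δ) (hδ' : 0 < δ') (hδ1 : δ' ≤ 1) (h1 : δ' * r ≤ δ / 2)
    (hε1 : ε ≤ 1) (h2 : ε * r ≤ δ) (ht : 0 ≤ t) (hu : 0 ≤ u) (ha : 0 ≤ a) (hl : 0 ≤ l)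
    (hS : lk + D = S0) (hlk : 0 ≤ lk) (hlka : lk ≤ a) (hS1 : S0 ≤ μ * (u + t))
    (hS2 : μ * ((1 - δ') * t) ≤ S0) (hlu : l ≤ d * (u + t)) (hN : (d - ε) * t ≤ l)
    (hbig : μ * u + a ≤ δ / 2 * l) : (r - δ) * l ≤ D ∧ D ≤ (r + δ) * l := by
  constructor
  · have h5 : μ * ((1 - δ') * t) - a ≤ D := by linarith
    have h6 : (1 - δ') * r * l ≤ μ * ((1 - δ') * t) + μ * u := by
      have h7 : (1 - δ') * r * l ≤ (1 - δ') * r * (d * (u + t)) := by
        apply mul_le_mul_of_nonneg_left hlu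
        exact mul_nonneg (by linarith) hr
      have h8 : (1 - δ') * r * (d * (u + t)) = μ * ((1 - δ') * t) + (1 - δ') * (μ * u) := by
        rw [← hrd]; ring
      have h9 : (1 - δ') * (μ * u) ≤ 1 * (μ * u) := by
        apply mul_le_mul_of_nonneg_right (by linarith) (mul_nonneg hμ hu)
      linarith
    have h7 : (r - δ / 2) * l ≤ (1 - δ') * r * l := by
      apply mul_le_mul_of_nonneg_right _ hl
      linarith
    nlinarith
  · have h5 : D ≤ μ * (u + t) := by linarith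
    have h6 : μ * t ≤ (r + δ / 2) * l := by
      have h7 : μ * t ≤ (r + δ / 2) * ((d - ε) * t) := by
        have h8 : μ ≤ (r + δ / 2) * (d - ε) := by
          have h9 : 2 ≤ d - ε := by linarith
          have h10 : (r + δ / 2) * (d - ε) = μ - ε * r + δ / 2 * (d - ε) := by
            rw [← hrd]; ring
          have h11 : δ / 2 * 2 ≤ δ / 2 * (d - ε) := by gcongr
          rw [h10]
          linarith
        nlinarith
      have h8 : (r + δ / 2) * ((d - ε) * t) ≤ (r + δ / 2) * l := by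
        apply mul_le_mul_of_nonneg_left hN
        positivity
      linarith
    nlinarith

variable {k m : ℕ} {α : Fin k → ℤ × ℤ} {β : Fin m → ℤ × ℤ} {S : Finset ℕ}
  {e : Fin k → ℕ} {f : Fin m → ℕ}

/-- outside the exceptional sets the discriminant has the expected size -/
lemma good (hk : 3 ≤ k) (he : ∀ i, 1 ≤ e i) (hf : ∀ j, 1 ≤ f j) {A0 : ℕ}
    {δ δ' ε r : ℝ} (hδ : 0 < δ) (hδ' : 0 < δ') (hδ1 : δ' ≤ 1)
    (hr : r = ((∑ i, e i : ℕ) + 2 * (∑ j, f j : ℕ) : ℝ) / ((k : ℝ) + 2 * m))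
    (h1 : δ' * r ≤ δ / 2) (hε1 : ε ≤ 1)
    (h2 : ε * r ≤ δ) {W : WeierstrassCurve ℤ} (hW : W.Δ ≠ 0) {x : ℤ × ℤ}
    {κ : ℕ} (hκ0 : 0 < κ) (hκA : κ ≤ A0)
    (h : κ * W.Δ.natAbs = FF α β e f x)
    (hN : ((k : ℝ) + 2 * m - ε) * hh x ≤ Real.log (rd W))
    (hL : ∀ i, (1 - δ') * hh x ≤ Real.log (Lf (α i) x).natAbs)
    (hQ : ∀ j, 2 * ((1 - δ') * hh x) ≤ Real.log (Qf (β j) x).natAbs)
    (hbig : ((∑ i, e i : ℕ) + 2 * (∑ j, f j : ℕ) : ℝ) * Real.log (UN α β) +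
      Real.log (A0 + 1) ≤ δ / 2 * Real.log (rd W)) :
    (rd W : ℝ) ^ (r - δ) ≤ |(W.Δ : ℝ)| ∧ |(W.Δ : ℝ)| ≤ (rd W : ℝ) ^ (r + δ) := by
  have hkR : (3 : ℝ) ≤ k := by exact_mod_cast hk
  have hm0 : (0 : ℝ) ≤ m := Nat.cast_nonneg _
  have hFF : FF α β e f x ≠ 0 := by
    rw [← h]
    exact (Nat.mul_pos hκ0 (Int.natAbs_pos.2 hW)).ne'
  have hl : ∀ i, Lf (α i) x ≠ 0 := L_ne he hFF
  have hq : ∀ j, Qf (β j) x ≠ 0 := Q_ne hf hFF
  have hd3 : 3 ≤ (k : ℝ) + 2 * m := by linarith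
  have hd0 : 0 < (k : ℝ) + 2 * m := by linarith
  obtain ⟨mu, hmu⟩ : ∃ mu : ℝ, mu = ((∑ i, e i : ℕ) + 2 * (∑ j, f j : ℕ) : ℝ) := ⟨_, rfl⟩
  rw [← hmu] at hr hbig
  have hmu0 : 0 ≤ mu := by rw [hmu]; positivity
  have hr0 : 0 ≤ r := by rw [hr]; positivity
  have hrd' : r * ((k : ℝ) + 2 * m) = mu := by rw [hr]; field_simp
  have hU1 : (1 : ℝ) ≤ UN α β := by exact_mod_cast UN_pos α β
  have hu0 : 0 ≤ Real.log (UN α β : ℝ) := Real.log_nonneg hU1
  have ha0 : 0 ≤ Real.log ((A0 : ℝ) + 1) :=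
    Real.log_nonneg (by have : (0 : ℝ) ≤ A0 := Nat.cast_nonneg _; linarith)
  have hrd : (0 : ℝ) < rd W := by exact_mod_cast rd_pos W
  have hDpos : 0 < |(W.Δ : ℝ)| := by
    rw [abs_pos]
    exact_mod_cast hW
  have hDn : |(W.Δ : ℝ)| = (W.Δ.natAbs : ℝ) := by
    rw [← Int.cast_abs, Int.abs_eq_natAbs]
    simp
  have hkk : (0 : ℝ) < κ := by exact_mod_cast hκ0
  have hx0 : x ≠ (0, 0) := by
    rintro rfl
    exact hl ⟨0, by omega⟩ (by unfold Lf; simp)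
  have hht : 0 < htn x := htn_pos hx0
  have hhtr : (0 : ℝ) < htn x := by exact_mod_cast hht
  -- the logarithm of the identity
  have hsum : Real.log κ + Real.log |(W.Δ : ℝ)| =
      (∑ i, (e i : ℝ) * Real.log (Lf (α i) x).natAbs) +
        ∑ j, (f j : ℝ) * Real.log (Qf (β j) x).natAbs := by
    have h5 : Real.log ((κ * W.Δ.natAbs : ℕ) : ℝ) = Real.log κ + Real.log |(W.Δ : ℝ)| := by
      rw [hDn, Nat.cast_mul, Real.log_mul hkk.ne']
      exact_mod_cast (Int.natAbs_pos.2 hW).ne'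
    rw [← h5, h]
    unfold FF
    have e1 : ∀ i ∈ (Finset.univ : Finset (Fin k)),
        (((Lf (α i) x).natAbs ^ e i : ℕ) : ℝ) ≠ 0 := by
      intro i _
      have := pow_pos (Int.natAbs_pos.2 (hl i)) (e i)
      exact_mod_cast this.ne'
    have e2 : ∀ j ∈ (Finset.univ : Finset (Fin m)),
        (((Qf (β j) x).natAbs ^ f j : ℕ) : ℝ) ≠ 0 := by
      intro j _
      have := pow_pos (Int.natAbs_pos.2 (hq j)) (f j)
      exact_mod_cast this.ne'
    rw [Nat.cast_mul, Nat.cast_prod, Nat.cast_prod, Real.log_mul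
      (Finset.prod_ne_zero_iff.2 e1) (Finset.prod_ne_zero_iff.2 e2), Real.log_prod e1,
      Real.log_prod e2]
    congr 1
    · refine Finset.sum_congr rfl fun i _ => ?_
      rw [Nat.cast_pow, Real.log_pow]
    · refine Finset.sum_congr rfl fun j _ => ?_
      rw [Nat.cast_pow, Real.log_pow]
  have hup : ∀ i, Real.log (Lf (α i) x).natAbs ≤ Real.log (UN α β) + hh x := by
    intro i
    have h5 : ((Lf (α i) x).natAbs : ℝ) ≤ UN α β * htn x := by exact_mod_cast Lf_le α β x i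
    have h6 : (0 : ℝ) < (Lf (α i) x).natAbs := by exact_mod_cast Int.natAbs_pos.2 (hl i)
    rw [hh_htn, ← Real.log_mul (by linarith) hhtr.ne']
    exact Real.log_le_log h6 h5
  have hupQ : ∀ j, Real.log (Qf (β j) x).natAbs ≤ 2 * (Real.log (UN α β) + hh x) := by
    intro j
    have h5 : ((Qf (β j) x).natAbs : ℝ) ≤ UN α β * (htn x : ℝ) ^ 2 := by
      exact_mod_cast Qf_le α β x j
    have h6 : (0 : ℝ) < (Qf (β j) x).natAbs := by exact_mod_cast Int.natAbs_pos.2 (hq j)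
    have h7 := Real.log_le_log h6 h5
    rw [Real.log_mul (by linarith) (by positivity), Real.log_pow] at h7
    rw [hh_htn]
    push_cast at h7
    linarith
  have hS1 : (∑ i, (e i : ℝ) * Real.log (Lf (α i) x).natAbs) +
        ∑ j, (f j : ℝ) * Real.log (Qf (β j) x).natAbs ≤ mu * (Real.log (UN α β) + hh x) := by
    have e1 : (∑ i, (e i : ℝ) * Real.log (Lf (α i) x).natAbs) ≤
        (∑ i, (e i : ℝ)) * (Real.log (UN α β) + hh x) := by
      rw [Finset.sum_mul]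
      exact Finset.sum_le_sum fun i _ => mul_le_mul_of_nonneg_left (hup i) (Nat.cast_nonneg _)
    have e2 : (∑ j, (f j : ℝ) * Real.log (Qf (β j) x).natAbs) ≤
        (∑ j, (f j : ℝ)) * (2 * (Real.log (UN α β) + hh x)) := by
      rw [Finset.sum_mul]
      exact Finset.sum_le_sum fun i _ => mul_le_mul_of_nonneg_left (hupQ i) (Nat.cast_nonneg _)
    have e3 : mu = (∑ i, (e i : ℝ)) + 2 * ∑ j, (f j : ℝ) := by
      rw [hmu]
      push_cast
      ring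
    rw [e3]
    linarith
  have hS2 : mu * ((1 - δ') * hh x) ≤ (∑ i, (e i : ℝ) * Real.log (Lf (α i) x).natAbs) +
        ∑ j, (f j : ℝ) * Real.log (Qf (β j) x).natAbs := by
    have e1 : (∑ i, (e i : ℝ)) * ((1 - δ') * hh x) ≤
        (∑ i, (e i : ℝ) * Real.log (Lf (α i) x).natAbs) := by
      rw [Finset.sum_mul]
      exact Finset.sum_le_sum fun i _ => mul_le_mul_of_nonneg_left (hL i) (Nat.cast_nonneg _)
    have e2 : (∑ j, (f j : ℝ)) * (2 * ((1 - δ') * hh x)) ≤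
        (∑ j, (f j : ℝ) * Real.log (Qf (β j) x).natAbs) := by
      rw [Finset.sum_mul]
      exact Finset.sum_le_sum fun i _ => mul_le_mul_of_nonneg_left (hQ i) (Nat.cast_nonneg _)
    have e3 : mu = (∑ i, (e i : ℝ)) + 2 * ∑ j, (f j : ℝ) := by
      rw [hmu]
      push_cast
      ring
    rw [e3]
    linarith
  have hk1 : 0 ≤ Real.log κ := Real.log_natCast_nonneg κ
  have hk2 : Real.log κ ≤ Real.log ((A0 : ℝ) + 1) := by
    have : (κ : ℝ) ≤ A0 := by exact_mod_cast hκA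
    exact Real.log_le_log hkk (by linarith)
  have hlu : Real.log (rd W) ≤ ((k : ℝ) + 2 * m) * (Real.log (UN α β) + hh x) := by
    have h5 : ((rd W : ℕ) : ℝ) ≤ ((UN α β * htn x : ℕ) : ℝ) ^ (k + 2 * m) := by
      exact_mod_cast rd_le he hf hW hκ0 h
    have h6 := Real.log_le_log hrd h5
    rw [Real.log_pow, Nat.cast_mul, Real.log_mul (by linarith) hhtr.ne', ← hh_htn] at h6
    push_cast at h6
    exact h6
  have hl0 : 0 ≤ Real.log (rd W : ℝ) := Real.log_natCast_nonneg _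
  obtain ⟨g1, g2⟩ := good_num hd3 hrd' hmu0 hr0 hδ hδ' hδ1 h1 hε1 h2 (hh_nonneg x) hu0 ha0 hl0
    hsum hk1 hk2 hS1 hS2 hlu hN hbig
  have hDe : |(W.Δ : ℝ)| = Real.exp (Real.log |(W.Δ : ℝ)|) := by rw [Real.exp_log hDpos]
  constructor
  · rw [Real.rpow_def_of_pos hrd, hDe]
    exact Real.exp_le_exp.2 (by linarith)
  · rw [Real.rpow_def_of_pos hrd, hDe]
    exact Real.exp_le_exp.2 (by linarith)

lemma htn_finite (C : ℝ) : ({x : ℤ × ℤ | (htn x : ℝ) ≤ C} : Set (ℤ × ℤ)).Finite := by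
  refine Set.Finite.subset (Finset.finite_toSet
    ((Finset.Icc (-(⌊C⌋₊ : ℤ)) ⌊C⌋₊) ×ˢ (Finset.Icc (-(⌊C⌋₊ : ℤ)) ⌊C⌋₊))) ?_
  intro x hx
  have h1 : htn x ≤ ⌊C⌋₊ := Nat.le_floor hx
  have h2 : x.1.natAbs ≤ htn x := le_max_left _ _
  have h3 : x.2.natAbs ≤ htn x := le_max_right _ _
  rw [Finset.mem_coe, Finset.mem_product, Finset.mem_Icc, Finset.mem_Icc]
  omega

lemma lg_nonneg (S : Finset ℕ) (n : ℤ) : 0 ≤ lg S n :=
  Finset.sum_nonneg fun p _ => Real.log_natCast_nonneg p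

theorem main (hCE : S_CE) (hQN : S_QN) (hLIN : S_LIN) : S_GE := by
  classical
  intro k m hk α β S e f P hα hβ hD he hf hUp A δ hδ
  obtain ⟨A0, K, R, hK, hP⟩ := hUp
  have hkR : (3 : ℝ) ≤ k := by exact_mod_cast hk
  have hm0 : (0 : ℝ) ≤ m := Nat.cast_nonneg _
  obtain ⟨d, hd⟩ : ∃ d : ℝ, d = (k : ℝ) + 2 * m := ⟨_, rfl⟩
  have hd3 : 3 ≤ d := by rw [hd]; linarith
  have hd0 : 0 < d := by linarith
  obtain ⟨mu, hmu⟩ : ∃ mu : ℝ, mu = ((∑ i, e i : ℕ) + 2 * (∑ j, f j : ℕ) : ℝ) := ⟨_, rfl⟩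
  obtain ⟨r, hr⟩ : ∃ r : ℝ, r = mu / d := ⟨_, rfl⟩
  have hr' : r = ((∑ i, e i : ℕ) + 2 * (∑ j, f j : ℕ) : ℝ) / ((k : ℝ) + 2 * m) := by
    rw [hr, hmu, hd]
  rw [← hr', ← hd]
  have hmu0 : 0 ≤ mu := by rw [hmu]; positivity
  have hr1 : 1 ≤ r := by
    rw [hr, le_div_iff₀ hd0, one_mul, hd, hmu]
    have h1 : k ≤ ∑ i, e i := by
      calc k = ∑ _i : Fin k, 1 := by simp
        _ ≤ _ := Finset.sum_le_sum fun i _ => he i
    have h2 : m ≤ ∑ j, f j := by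
      calc m = ∑ _i : Fin m, 1 := by simp
        _ ≤ _ := Finset.sum_le_sum fun i _ => hf i
    have h1r : (k : ℝ) ≤ ((∑ i, e i : ℕ) : ℝ) := by exact_mod_cast h1
    have h2r : (m : ℝ) ≤ ((∑ j, f j : ℕ) : ℝ) := by exact_mod_cast h2
    linarith
  have hr0 : 0 < r := by linarith
  obtain ⟨δ', hδ'⟩ : ∃ δ' : ℝ, δ' = min (1 / 2) (δ / (2 * r)) := ⟨_, rfl⟩
  have hd'0 : 0 < δ' := by rw [hδ']; exact lt_min (by norm_num) (by positivity)
  have hd1 : δ' ≤ 1 / 2 := by rw [hδ']; exact min_le_left _ _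
  have hd2 : δ' * r ≤ δ / 2 := by
    have : δ' ≤ δ / (2 * r) := by rw [hδ']; exact min_le_right _ _
    rw [le_div_iff₀ (by positivity)] at this
    linarith
  obtain ⟨ε, hε⟩ : ∃ ε : ℝ, ε = min 1 (min (δ' / 4) (δ / r)) := ⟨_, rfl⟩
  have he0 : 0 < ε := by rw [hε]; exact lt_min one_pos (lt_min (by positivity) (by positivity))
  have he1 : ε ≤ 1 := by rw [hε]; exact min_le_left _ _
  have he2 : ε ≤ δ' / 4 := by rw [hε]; exact (min_le_right _ _).trans (min_le_left _ _)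
  have he3 : ε * r ≤ δ := by
    have : ε ≤ δ / r := by rw [hε]; exact (min_le_right _ _).trans (min_le_right _ _)
    rwa [le_div_iff₀ hr0] at this
  obtain ⟨B, hB⟩ : ∃ B : ℝ, B = (UN α β * A0 : ℝ) := ⟨_, rfl⟩
  obtain ⟨ν, hν, C1, hC1, hexc⟩ := hCE k m hk α β S hα hβ B A ε he0
  obtain ⟨⟨C2, hC2, hup⟩, -⟩ := hLIN k hk α hα S
  choose C3 hC3 hnear using fun j => hQN (β j)
  have hqe : 0 < d - ε := by linarith
  obtain ⟨θ, hθ⟩ : ∃ θ : ℝ, θ = (2 - δ') / (d - ε) := ⟨_, rfl⟩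
  have hθ2 : θ < 2 / d := by
    rw [hθ, div_lt_div_iff₀ hqe hd0]
    nlinarith
  -- the threshold
  obtain ⟨L0, hL0⟩ : ∃ L0 : ℝ, L0 = 2 / δ * (mu * Real.log (UN α β) + Real.log (A0 + 1)) :=
    ⟨_, rfl⟩
  have hU1 : (1 : ℝ) ≤ UN α β := by exact_mod_cast UN_pos α β
  have hL00 : 0 ≤ L0 := by
    rw [hL0]
    have h1 : 0 ≤ Real.log (UN α β : ℝ) := Real.log_nonneg hU1
    have h2 : 0 ≤ Real.log ((A0 : ℝ) + 1) := Real.log_nonneg (by
      have : (0 : ℝ) ≤ A0 := Nat.cast_nonneg _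
      linarith)
    positivity
  obtain ⟨N0, hN0⟩ : ∃ N0 : ℝ, N0 = Real.exp L0 := ⟨_, rfl⟩
  have hN01 : 1 ≤ N0 := by rw [hN0]; exact Real.one_le_exp hL00
  obtain ⟨hfin0, hc0⟩ := hup N0 hN01
  obtain ⟨η, hη⟩ : ∃ η : ℝ, η = min ν (min (2 / d) (2 / d - θ)) := ⟨_, rfl⟩
  have hη0 : 0 < η := by
    rw [hη]
    exact lt_min hν (lt_min (by positivity) (by linarith))
  have hη1 : η ≤ ν := by rw [hη]; exact min_le_left _ _
  have hη2 : η ≤ 2 / d := by rw [hη]; exact (min_le_right _ _).trans (min_le_left _ _)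
  have hη3 : η ≤ 2 / d - θ := by
    rw [hη]; exact (min_le_right _ _).trans (min_le_right _ _)
  have hC3s : 0 ≤ ∑ j, C3 j := Finset.sum_nonneg fun j _ => (hC3 j).le
  refine ⟨η, hη0, (K + 1) * (C2 * N0 ^ (2 / (k : ℝ)) + (C1 + (k * 9 + ∑ j, C3 j))),
    by positivity, fun X hX => ?_⟩
  have hX0 : 0 < X := by linarith
  have hpow : ∀ s : ℝ, s ≤ 2 / d - η → X ^ s ≤ X ^ (2 / d - η) := fun s hs =>
    Real.rpow_le_rpow_of_exponent_le hX hs
  have hone : 1 ≤ X ^ (2 / d - η) := Real.one_le_rpow hX (by linarith)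
  obtain ⟨H, hH⟩ : ∃ H : ℕ, H = ⌊X ^ (1 / (d - ε))⌋₊ := ⟨_, rfl⟩
  obtain ⟨M, hM⟩ : ∃ M : ℕ, M = ⌊X ^ ((1 - δ') / (d - ε))⌋₊ := ⟨_, rfl⟩
  have hHr : (H : ℝ) ≤ X ^ (1 / (d - ε)) := by rw [hH]; exact Nat.floor_le (by positivity)
  have hMr : (M : ℝ) ≤ X ^ ((1 - δ') / (d - ε)) := by
    rw [hM]; exact Nat.floor_le (by positivity)
  have hX1e : (1 : ℝ) ≤ X ^ (1 / (d - ε)) := Real.one_le_rpow hX (by positivity)
  have hX2e : (1 : ℝ) ≤ X ^ ((1 - δ') / (d - ε)) :=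
    Real.one_le_rpow hX (div_nonneg (by linarith) hqe.le)
  have hX3e : (1 : ℝ) ≤ X ^ (2 * (1 - δ') / (d - ε)) :=
    Real.one_le_rpow hX (div_nonneg (by linarith) hqe.le)
  have hXθ : X ^ (1 / (d - ε)) * X ^ ((1 - δ') / (d - ε)) = X ^ θ := by
    rw [← Real.rpow_add hX0, hθ]
    congr 1
    rw [← add_div]
    congr 1
    ring
  obtain ⟨T1, hT1⟩ : ∃ T1 : Set (ℤ × ℤ), T1 = {x | x ∈ PtsQ α β S B A X ∧
    NQ α β S x < ((k : ℝ) + 2 * m - ε) * hh x} := ⟨_, rfl⟩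
  obtain ⟨T2, hT2⟩ : ∃ T2 : Fin k → Set (ℤ × ℤ), T2 = fun i =>
    {x | htn x ≤ H ∧ (Lf (α i) x).natAbs ≤ M} := ⟨_, rfl⟩
  obtain ⟨T3, hT3⟩ : ∃ T3 : Fin m → Set (ℤ × ℤ), T3 = fun j =>
    {x : ℤ × ℤ | (htn x : ℝ) ≤ X ^ (1 / (d - ε)) ∧
      ((Qf (β j) x).natAbs : ℝ) ≤ X ^ (2 * (1 - δ') / (d - ε))} := ⟨_, rfl⟩
  have hT1f : T1.Finite := by
    rw [hT1]
    exact (htn_finite (B * X ^ A)).subset fun x hx => hx.1.2.2.1
  have hα0 : ∀ i, α i ≠ (0, 0) := by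
    intro i h0
    obtain ⟨j, hj⟩ : ∃ j : Fin k, i ≠ j := by
      by_contra hcon
      push Not at hcon
      have e1 := hcon ⟨0, by omega⟩
      have e2 := hcon ⟨1, by omega⟩
      rw [e1] at e2
      exact absurd (Fin.mk.inj_iff.1 e2) (by norm_num)
    apply hα i j hj
    rw [h0]
    ring
  have hT2f : ∀ i, (T2 i).Finite := by
    intro i
    rw [hT2]
    exact (near_count (α i) (hα0 i) H M).1
  have hT2u : (⋃ i, T2 i).Finite := Set.finite_iUnion hT2f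
  have hT3f : ∀ j, (T3 j).Finite := by
    intro j
    rw [hT3]
    exact (hnear j _ _ hX1e hX3e).1
  have hT3u : (⋃ j, T3 j).Finite := Set.finite_iUnion hT3f
  have hT2c : ((⋃ i, T2 i).ncard : ℝ) ≤ k * 9 * X ^ (2 / d - η) := by
    have h1 : (⋃ i, T2 i).ncard ≤ ∑ i, (T2 i).ncard := Set.ncard_iUnion_le_of_fintype T2
    have h2 : ∀ i, ((T2 i).ncard : ℝ) ≤ 9 * X ^ (2 / d - η) := by
      intro i
      have h3 : (T2 i).ncard ≤ (2 * H + 1) * (2 * M + 1) := by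
        rw [hT2]
        exact (near_count (α i) (hα0 i) H M).2
      have h4 : ((T2 i).ncard : ℝ) ≤ (2 * (H : ℝ) + 1) * (2 * (M : ℝ) + 1) := by exact_mod_cast h3
      have h7 : (2 * (H : ℝ) + 1) * (2 * (M : ℝ) + 1) ≤
          (3 * X ^ (1 / (d - ε))) * (3 * X ^ ((1 - δ') / (d - ε))) := by
        apply mul_le_mul (by linarith) (by linarith) (by positivity) (by positivity)
      have h8 : (3 * X ^ (1 / (d - ε))) * (3 * X ^ ((1 - δ') / (d - ε))) = 9 * X ^ θ := by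
        rw [← hXθ]
        ring
      have h9 := hpow θ (by linarith)
      linarith
    calc ((⋃ i, T2 i).ncard : ℝ) ≤ ((∑ i, (T2 i).ncard : ℕ) : ℝ) := by exact_mod_cast h1
      _ = ∑ i, ((T2 i).ncard : ℝ) := by push_cast; rfl
      _ ≤ ∑ _i : Fin k, 9 * X ^ (2 / d - η) := Finset.sum_le_sum fun i _ => h2 i
      _ = _ := by
        rw [Finset.sum_const, Finset.card_univ, Fintype.card_fin, nsmul_eq_mul]
        ring
  have hT3c : ((⋃ j, T3 j).ncard : ℝ) ≤ (∑ j, C3 j) * X ^ (2 / d - η) := by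
    have h1 : (⋃ j, T3 j).ncard ≤ ∑ j, (T3 j).ncard := Set.ncard_iUnion_le_of_fintype T3
    have h2 : ∀ j, ((T3 j).ncard : ℝ) ≤ C3 j * X ^ (2 / d - η) := by
      intro j
      have h3 : ((T3 j).ncard : ℝ) ≤ C3 j * X ^ (1 / (d - ε)) *
          (X ^ (2 * (1 - δ') / (d - ε))) ^ ((1 : ℝ) / 2) := by
        rw [hT3]
        exact (hnear j _ _ hX1e hX3e).2
      have h4 : (X ^ (2 * (1 - δ') / (d - ε))) ^ ((1 : ℝ) / 2) = X ^ ((1 - δ') / (d - ε)) := by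
        rw [← Real.rpow_mul hX0.le]
        congr 1
        ring
      rw [h4, mul_assoc, hXθ] at h3
      refine h3.trans ?_
      exact mul_le_mul_of_nonneg_left (hpow θ (by linarith)) (hC3 j).le
    calc ((⋃ j, T3 j).ncard : ℝ) ≤ ((∑ j, (T3 j).ncard : ℕ) : ℝ) := by exact_mod_cast h1
      _ = ∑ j, ((T3 j).ncard : ℝ) := by push_cast; rfl
      _ ≤ ∑ j, C3 j * X ^ (2 / d - η) := Finset.sum_le_sum fun j _ => h2 j
      _ = _ := by rw [Finset.sum_mul]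
  have hT1c : (T1.ncard : ℝ) ≤ C1 * X ^ (2 / d - η) := by
    rw [hT1]
    refine (hexc X hX).trans ?_
    rw [← hd]
    exact mul_le_mul_of_nonneg_left (hpow _ (by linarith)) hC1.le
  -- the covering
  have hcov : ∀ g ∈ BdA P A r δ X,
      ∃ x ∈ Pts α S N0 ∪ (T1 ∪ ((⋃ i, T2 i) ∪ ⋃ j, T3 j)), g ∈ R x := by
    rintro g ⟨W, hW, hWX, hΔ, rfl, hbad⟩
    obtain ⟨hW0, x, hn, hl, ⟨κ, hκ0, hκA, hκ, hprod⟩, hR⟩ := hP W hW
    have hFF : FF α β e f x ≠ 0 := by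
      rw [← hprod]
      exact (Nat.mul_pos hκ0 (Int.natAbs_pos.2 hW0)).ne'
    have hNQ := NQ_le hD he hf hn hW0 hκ hprod
    have hrd : (0 : ℝ) < rd W := by exact_mod_cast rd_pos W
    have hxP : x ∈ PtsQ α β S B A X := by
      rw [hB]
      exact mem_PtsQ hk hα hD he hf hn hl hW0 hκ0 hκA hκ hprod hWX hΔ
    refine ⟨x, ?_, hR⟩
    by_contra hx
    rw [Set.mem_union, Set.mem_union, Set.mem_union, not_or, not_or, not_or] at hx
    obtain ⟨hx0, hx1, hx2, hx3⟩ := hx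
    have hsmall : N0 < (rd W : ℝ) := by
      by_contra hcon
      push Not at hcon
      apply hx0
      refine ⟨hn, hl, ?_⟩
      have h1 : N1 α S x ≤ NQ α β S x := by
        have h2 : 0 ≤ ∑ j, lg S (Qf (β j) x) := Finset.sum_nonneg fun j _ => lg_nonneg _ _
        have h3 : NQ α β S x = N1 α S x + ∑ j, lg S (Qf (β j) x) := rfl
        linarith
      exact (h1.trans hNQ).trans (Real.log_le_log hrd hcon)
    have hlogX : Real.log (rd W) ≤ Real.log X := Real.log_le_log hrd hWX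
    have h3 : (d - ε) * hh x ≤ NQ α β S x := by
      by_contra hlt
      push Not at hlt
      apply hx1
      rw [hT1]
      refine ⟨hxP, ?_⟩
      rw [← hd]
      exact hlt
    have h4 : hh x ≤ 1 / (d - ε) * Real.log X := by
      rw [one_div, ← div_eq_inv_mul, le_div_iff₀ hqe]
      linarith
    have hx00 : x ≠ (0, 0) := by
      rintro rfl
      exact hl ⟨0, by omega⟩ (by unfold Lf; simp)
    have hht : 0 < htn x := htn_pos hx00
    have hhtr : (0 : ℝ) < htn x := by exact_mod_cast hht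
    have h5r : (htn x : ℝ) ≤ X ^ (1 / (d - ε)) := by
      rw [hh_htn, ← Real.log_rpow hX0] at h4
      exact (Real.log_le_log_iff hhtr (by positivity)).1 h4
    have h5 : htn x ≤ H := by
      rw [hH]
      exact Nat.le_floor h5r
    have h6 : ∀ i, (1 - δ') * hh x ≤ Real.log (Lf (α i) x).natAbs := by
      intro i
      have h7 : M < (Lf (α i) x).natAbs := by
        by_contra hcon
        push Not at hcon
        apply hx2
        rw [Set.mem_iUnion]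
        refine ⟨i, ?_⟩
        rw [hT2]
        exact ⟨h5, hcon⟩
      have h8 : X ^ ((1 - δ') / (d - ε)) < (Lf (α i) x).natAbs := by
        rw [hM] at h7
        exact (Nat.floor_lt (by positivity)).1 h7
      have h9 := Real.log_le_log (by positivity) h8.le
      rw [Real.log_rpow hX0] at h9
      refine le_trans ?_ h9
      have : (1 - δ') / (d - ε) * Real.log X =
        (1 - δ') * (1 / (d - ε) * Real.log X) := by ring
      rw [this]
      exact mul_le_mul_of_nonneg_left h4 (by linarith)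
    have h6q : ∀ j, 2 * ((1 - δ') * hh x) ≤ Real.log (Qf (β j) x).natAbs := by
      intro j
      have h8 : X ^ (2 * (1 - δ') / (d - ε)) < (Qf (β j) x).natAbs := by
        by_contra hcon
        push Not at hcon
        apply hx3
        rw [Set.mem_iUnion]
        refine ⟨j, ?_⟩
        rw [hT3]
        exact ⟨h5r, hcon⟩
      have h9 := Real.log_le_log (by positivity) h8.le
      rw [Real.log_rpow hX0] at h9
      refine le_trans ?_ h9
      have : 2 * (1 - δ') / (d - ε) * Real.log X =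
        2 * ((1 - δ') * (1 / (d - ε) * Real.log X)) := by ring
      rw [this]
      have := mul_le_mul_of_nonneg_left h4 (show 0 ≤ 1 - δ' by linarith)
      linarith
    apply hbad
    refine good (A0 := A0) hk he hf hδ hd'0 (by linarith) hr' hd2 he1 he3 hW0 hκ0 hκA hprod
      ?_ h6 h6q ?_
    · rw [← hd]
      exact h3.trans hNQ
    · have h10 : L0 ≤ Real.log (rd W) := by
        rw [hN0] at hsmall
        exact (Real.le_log_iff_exp_le hrd).2 hsmall.le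
      rw [hL0] at h10
      have h11 : δ / 2 * (2 / δ * (mu * Real.log (UN α β) + Real.log (A0 + 1))) ≤
        δ / 2 * Real.log (rd W) := mul_le_mul_of_nonneg_left h10 (by positivity)
      rw [← hmu]
      refine le_trans (le_of_eq ?_) h11
      field_simp
  obtain ⟨hf3, hc3⟩ := ncard_biUnion_le (hfin0.union (hT1f.union (hT2u.union hT3u))) R K hK hcov
  have h21 : (Pts α S N0 ∪ (T1 ∪ ((⋃ i, T2 i) ∪ ⋃ j, T3 j))).ncard ≤
      (Pts α S N0).ncard + (T1.ncard + ((⋃ i, T2 i).ncard + (⋃ j, T3 j).ncard)) :=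
    (Set.ncard_union_le _ _).trans (Nat.add_le_add_left ((Set.ncard_union_le _ _).trans
      (Nat.add_le_add_left (Set.ncard_union_le _ _) _)) _)
  have h21' : ((Pts α S N0 ∪ (T1 ∪ ((⋃ i, T2 i) ∪ ⋃ j, T3 j))).ncard : ℝ) ≤
      (Pts α S N0).ncard + (T1.ncard + ((⋃ i, T2 i).ncard + (⋃ j, T3 j).ncard)) := by
    exact_mod_cast h21
  have hK0 : (0 : ℝ) ≤ K := Nat.cast_nonneg _
  have h23 : C2 * N0 ^ (2 / (k : ℝ)) * 1 ≤ C2 * N0 ^ (2 / (k : ℝ)) * X ^ (2 / d - η) :=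
    mul_le_mul_of_nonneg_left hone (by positivity)
  have h24 : ((Pts α S N0 ∪ (T1 ∪ ((⋃ i, T2 i) ∪ ⋃ j, T3 j))).ncard : ℝ) ≤
      (C2 * N0 ^ (2 / (k : ℝ)) + (C1 + (k * 9 + ∑ j, C3 j))) * X ^ (2 / d - η) := by
    refine h21'.trans ?_
    have : (C2 * N0 ^ (2 / (k : ℝ)) + (C1 + (k * 9 + ∑ j, C3 j))) * X ^ (2 / d - η) =
      C2 * N0 ^ (2 / (k : ℝ)) * X ^ (2 / d - η) + (C1 * X ^ (2 / d - η) +
        (k * 9 * X ^ (2 / d - η) + (∑ j, C3 j) * X ^ (2 / d - η))) := by ring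
    rw [this]
    linarith
  calc ((BdA P A r δ X).ncard : ℝ) ≤ K * ((Pts α S N0 ∪ (T1 ∪ ((⋃ i, T2 i) ∪ ⋃ j, T3 j))).ncard : ℝ) :=
        hc3
    _ ≤ (K + 1) * ((C2 * N0 ^ (2 / (k : ℝ)) + (C1 + (k * 9 + ∑ j, C3 j))) * X ^ (2 / d - η)) := by
        apply mul_le_mul (by linarith) h24 (Nat.cast_nonneg _) (by linarith)
    _ = _ := by ring

end Pool.Agent.L0h46.TQ.GE
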