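import Pool.Agent.L0h46.TQ.GCom

/-!
# TQ, module GL: the lower bound for the number of curves
-/

set_option autoImplicit false

namespace Pool.Agent.L0h46.TQ.GL

open Finset Pool.Agent.L0h46.TQ.GCom

theorem main (h : S_GU) (hGD : S_GD) : S_GL := by
  classical
  intro k m hk α β S e f P hα hβ hD he hf hUp hLo
  obtain ⟨c0, hc0, B0, hG⟩ := hGD
  obtain ⟨B1, K1, I, hI1, hI2⟩ := hLo
  have hUp' := hUp
  obtain ⟨A0, K, R, hK, hP⟩ := hUp'
  obtain ⟨B2, hB2⟩ : ∃ B2 : ℕ, B2 = UN α β * ((B1 + 1) * (B0 + 1)) := ⟨_, rfl⟩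
  have hU := UN_pos α β
  have hB21 : 1 ≤ B2 := by
    rw [hB2]
    exact Nat.mul_pos hU (Nat.mul_pos (by omega) (by omega))
  have hB2r : (1 : ℝ) ≤ B2 := by exact_mod_cast hB21
  have hkR : (3 : ℝ) ≤ k := by exact_mod_cast hk
  have hm0 : (0 : ℝ) ≤ m := Nat.cast_nonneg _
  obtain ⟨d, hd⟩ : ∃ d : ℝ, d = (k : ℝ) + 2 * m := ⟨_, rfl⟩
  have hd3 : 3 ≤ d := by rw [hd]; linarith
  have hd0 : 0 < d := by linarith
  refine ⟨c0 / (4 * (K1 + 1) * B2 ^ 2), by positivity, fun A hA => ⟨(B2 : ℝ) ^ d, fun X hX => ?_⟩⟩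
  rw [← hd] at hA ⊢
  have hBd : (1 : ℝ) ≤ (B2 : ℝ) ^ d := Real.one_le_rpow hB2r hd0.le
  have hX1 : 1 ≤ X := hBd.trans hX
  have hX0 : 0 < X := by linarith
  obtain ⟨Y, hY⟩ : ∃ Y : ℝ, Y = X ^ (1 / d) / B2 := ⟨_, rfl⟩
  have hXd : (B2 : ℝ) ≤ X ^ (1 / d) := by
    calc (B2 : ℝ) = ((B2 : ℝ) ^ d) ^ (1 / d) := by
          rw [← Real.rpow_mul (by positivity), mul_one_div_cancel hd0.ne', Real.rpow_one]
      _ ≤ X ^ (1 / d) := Real.rpow_le_rpow (by positivity) hX (by positivity)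
  have hY1 : 1 ≤ Y := by
    rw [hY, le_div_iff₀ (by linarith), one_mul]
    exact hXd
  obtain ⟨N, hN⟩ : ∃ N : ℕ, N = ⌊Y⌋₊ := ⟨_, rfl⟩
  have hN1 : 1 ≤ N := by rw [hN]; exact Nat.le_floor (by simpa using hY1)
  have hNr : (1 : ℝ) ≤ N := by exact_mod_cast hN1
  have hNle : (N : ℝ) ≤ Y := by rw [hN]; exact Nat.floor_le (by linarith)
  have hNge : Y / 2 ≤ N := by
    have : Y - 1 < N := by rw [hN]; exact Nat.sub_one_lt_floor _
    linarith
  have hBN : (B2 : ℝ) * N ≤ X ^ (1 / d) := by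
    calc (B2 : ℝ) * N ≤ B2 * Y := by gcongr
      _ = X ^ (1 / d) := by rw [hY]; field_simp
  obtain ⟨G, hGc, hGp⟩ := hG N hN1
  have hsub : ((G.image I : Finset (ℤ × ℤ)) : Set (ℤ × ℤ)) ⊆ CvA P A X := by
    intro g hg
    rw [Finset.mem_coe, Finset.mem_image] at hg
    obtain ⟨p, hp, rfl⟩ := hg
    obtain ⟨hp30, hp1, hp2⟩ := hGp p hp
    obtain ⟨W, hW, hi, x, κ, hκ0, hprod, hx⟩ := hI1 p hp30
    obtain ⟨hW0, -⟩ := hP W hW
    have h7 : rd W ≤ (UN α β * htn x) ^ (k + 2 * m) := rd_le he hf hW0 hκ0 hprod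
    have h8 : FF α β e f x ≤ (UN α β * htn x) ^ ((∑ i, e i) + 2 * ∑ j, f j) := FF_le x
    have h9 : UN α β * htn x ≤ B2 * N := by
      have h10 : htn x ≤ (B1 + 1) * ((B0 + 1) * N) := by
        refine hx.trans ?_
        have h11 : max p.1 p.2 ≤ (B0 + 1) * N := by
          refine max_le (hp1.trans ?_) (hp2.trans ?_) <;> nlinarith
        exact Nat.mul_le_mul (by omega) h11
      calc UN α β * htn x ≤ UN α β * ((B1 + 1) * ((B0 + 1) * N)) := Nat.mul_le_mul le_rfl h10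
        _ = B2 * N := by rw [hB2]; ring
    have h9r : ((UN α β * htn x : ℕ) : ℝ) ≤ X ^ (1 / d) := by
      refine le_trans ?_ hBN
      exact_mod_cast h9
    have hXp : ∀ n : ℕ, (X ^ (1 / d)) ^ n = X ^ ((n : ℝ) / d) := by
      intro n
      rw [← Real.rpow_natCast, ← Real.rpow_mul hX0.le]
      congr 1
      ring
    refine ⟨W, hW, ?_, ?_, hi⟩
    · calc (rd W : ℝ) ≤ (((UN α β * htn x) ^ (k + 2 * m) : ℕ) : ℝ) := by exact_mod_cast h7
        _ = ((UN α β * htn x : ℕ) : ℝ) ^ (k + 2 * m) := by push_cast; ring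
        _ ≤ (X ^ (1 / d)) ^ (k + 2 * m) := pow_le_pow_left₀ (Nat.cast_nonneg _) h9r _
        _ = X ^ (((k + 2 * m : ℕ) : ℝ) / d) := hXp _
        _ = X := by
            have : (((k + 2 * m : ℕ) : ℝ) / d) = 1 := by
              rw [hd]
              push_cast
              exact div_self (by rw [hd] at hd0; exact hd0.ne')
            rw [this, Real.rpow_one]
    · have hDn : |(W.Δ : ℝ)| = (W.Δ.natAbs : ℝ) := by
        rw [← Int.cast_abs, Int.abs_eq_natAbs]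
        simp
      have h12 : W.Δ.natAbs ≤ FF α β e f x := by
        rw [← hprod]
        exact Nat.le_mul_of_pos_left _ hκ0
      rw [hDn]
      calc (W.Δ.natAbs : ℝ) ≤ (((UN α β * htn x) ^ ((∑ i, e i) + 2 * ∑ j, f j) : ℕ) : ℝ) := by
            exact_mod_cast h12.trans h8
        _ = ((UN α β * htn x : ℕ) : ℝ) ^ ((∑ i, e i) + 2 * ∑ j, f j) := by push_cast; ring
        _ ≤ (X ^ (1 / d)) ^ ((∑ i, e i) + 2 * ∑ j, f j) :=
            pow_le_pow_left₀ (Nat.cast_nonneg _) h9r _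
        _ = X ^ ((((∑ i, e i) + 2 * ∑ j, f j : ℕ) : ℝ) / d) := hXp _
        _ ≤ X ^ A := by
            apply Real.rpow_le_rpow_of_exponent_le hX1
            refine le_trans (le_of_eq ?_) hA
            push_cast
            ring
  obtain ⟨C, hC, hfin⟩ := h k m hk α β S e f P hα hβ hD he hf hUp A 1 one_pos
  have h1 : (G.image I).card ≤ (CvA P A X).ncard := by
    rw [← Set.ncard_coe_finset]
    exact Set.ncard_le_ncard hsub (hfin X hX1).1
  have h4 : G.card ≤ (K1 + 1) * (G.image I).card := by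
    refine Finset.card_le_mul_card_image _ _ fun g hg => ?_
    refine (hI2 g _ ?_).trans (Nat.le_succ _)
    intro p hp
    obtain ⟨h5, h6⟩ := Finset.mem_filter.1 hp
    exact ⟨(hGp p h5).1, h6⟩
  have h5 : (G.card : ℝ) ≤ (K1 + 1) * ((CvA P A X).ncard : ℝ) := by
    have : G.card ≤ (K1 + 1) * (CvA P A X).ncard := h4.trans (Nat.mul_le_mul le_rfl h1)
    exact_mod_cast this
  have h6 : X ^ (2 / d) = (X ^ (1 / d)) ^ 2 := by
    rw [← Real.rpow_natCast, ← Real.rpow_mul hX0.le]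
    congr 1
    push_cast
    ring
  have h7 : X ^ (1 / d) = B2 * Y := by rw [hY]; field_simp
  have hK1 : (0 : ℝ) < K1 + 1 := by positivity
  calc c0 / (4 * (K1 + 1) * B2 ^ 2) * X ^ (2 / d) = (c0 * (Y / 2) ^ 2) / (K1 + 1) := by
        rw [h6, h7]
        field_simp
        ring
    _ ≤ (c0 * (N : ℝ) ^ 2) / (K1 + 1) := by
        gcongr
    _ ≤ G.card / (K1 + 1) := by gcongr
    _ ≤ (CvA P A X).ncard := by
        rw [div_le_iff₀ hK1]
        linarith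

end Pool.Agent.L0h46.TQ.GL
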