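import Pool.Agent.L0h46.TQ.Defs2

/-!
# Project TQ, module GT: the number of the curves with a large Szpiro ratio
-/

set_option autoImplicit false

namespace Pool.Agent.L0h46.TQ.GT

open Finset Pool.Agent.L0h46.TQ

section

variable {k m : ℕ} (α : Fin k → ℤ × ℤ) (β : Fin m → ℤ × ℤ) (S : Finset ℕ) (e : Fin k → ℕ)
  (f : Fin m → ℕ)

/-- a bound for the coefficients of the forms -/
def U : ℕ := 1 + ∑ i, ((α i).1.natAbs + (α i).2.natAbs) +
  ∑ j, (1 + (β j).1.natAbs + (β j).2.natAbs)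

lemma U_pos : 1 ≤ U α β := by
  unfold U
  omega

lemma U_α (i : Fin k) : (α i).1.natAbs + (α i).2.natAbs ≤ U α β := by
  have := Finset.single_le_sum (f := fun i => (α i).1.natAbs + (α i).2.natAbs)
    (fun i _ => Nat.zero_le _) (Finset.mem_univ i)
  unfold U
  omega

lemma U_β (j : Fin m) : 1 + (β j).1.natAbs + (β j).2.natAbs ≤ U α β := by
  have := Finset.single_le_sum (f := fun j => 1 + (β j).1.natAbs + (β j).2.natAbs)
    (fun i _ => Nat.zero_le _) (Finset.mem_univ j)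
  unfold U
  omega

lemma Lf_le (x : ℤ × ℤ) (i : Fin k) : (Lf (α i) x).natAbs ≤ U α β * htn x := by
  have h1 := U_α α β i
  have h2 : x.1.natAbs ≤ htn x := le_max_left _ _
  have h3 : x.2.natAbs ≤ htn x := le_max_right _ _
  unfold Lf
  calc (x.1 * (α i).2 - x.2 * (α i).1).natAbs
      ≤ (x.1 * (α i).2).natAbs + (x.2 * (α i).1).natAbs := by omega
    _ = x.1.natAbs * (α i).2.natAbs + x.2.natAbs * (α i).1.natAbs := by
        rw [Int.natAbs_mul, Int.natAbs_mul]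
    _ ≤ htn x * (α i).2.natAbs + htn x * (α i).1.natAbs := by gcongr
    _ = ((α i).1.natAbs + (α i).2.natAbs) * htn x := by ring
    _ ≤ U α β * htn x := by gcongr

lemma Qf_le (x : ℤ × ℤ) (j : Fin m) : (Qf (β j) x).natAbs ≤ (U α β * htn x) ^ 2 := by
  have h1 := U_β α β j
  have h2 : x.1.natAbs ≤ htn x := le_max_left _ _
  have h3 : x.2.natAbs ≤ htn x := le_max_right _ _
  have hU := U_pos α β
  unfold Qf
  calc (x.1 ^ 2 + (β j).1 * x.1 * x.2 + (β j).2 * x.2 ^ 2).natAbs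
      ≤ (x.1 ^ 2).natAbs + ((β j).1 * x.1 * x.2).natAbs + ((β j).2 * x.2 ^ 2).natAbs := by omega
    _ = x.1.natAbs ^ 2 + (β j).1.natAbs * x.1.natAbs * x.2.natAbs +
          (β j).2.natAbs * x.2.natAbs ^ 2 := by
        simp only [Int.natAbs_mul, Int.natAbs_pow]
    _ ≤ htn x ^ 2 + (β j).1.natAbs * htn x * htn x + (β j).2.natAbs * htn x ^ 2 := by gcongr
    _ = (1 + (β j).1.natAbs + (β j).2.natAbs) * htn x ^ 2 := by ring
    _ ≤ U α β * htn x ^ 2 := by gcongr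
    _ ≤ (U α β * U α β) * htn x ^ 2 := by
        refine Nat.mul_le_mul_right _ ?_
        exact Nat.le_mul_of_pos_left _ hU
    _ = (U α β * htn x) ^ 2 := by ring

lemma FF_le (x : ℤ × ℤ) : FF α β e f x ≤ (U α β * htn x) ^ (∑ i, e i + 2 * ∑ j, f j) := by
  unfold FF
  rw [pow_add, pow_mul]
  refine Nat.mul_le_mul ?_ ?_
  · calc ∏ i, (Lf (α i) x).natAbs ^ e i ≤ ∏ i, (U α β * htn x) ^ e i :=
        Finset.prod_le_prod' fun i _ => Nat.pow_le_pow_left (Lf_le α β x i) _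
      _ = _ := by rw [Finset.prod_pow_eq_pow_sum]
  · calc ∏ j, (Qf (β j) x).natAbs ^ f j ≤ ∏ j, ((U α β * htn x) ^ 2) ^ f j :=
        Finset.prod_le_prod' fun j _ => Nat.pow_le_pow_left (Qf_le α β x j) _
      _ = _ := by rw [Finset.prod_pow_eq_pow_sum]

lemma log_rd (W : WeierstrassCurve ℤ) :
    Real.log (rd W) = ∑ p ∈ W.Δ.natAbs.primeFactors, Real.log (p : ℝ) := by
  unfold rd
  rw [Nat.cast_prod, Real.log_prod]
  intro p hp
  exact_mod_cast (Nat.prime_of_mem_primeFactors hp).ne_zero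

lemma rd_pos (W : WeierstrassCurve ℤ) : 1 ≤ rd W :=
  Finset.prod_pos fun _ hp => (Nat.prime_of_mem_primeFactors hp).pos

lemma NQ_le (hD : Dj α β S) (he : ∀ i, 1 ≤ e i) (hf : ∀ j, 1 ≤ f j) {W : WeierstrassCurve ℤ}
    {x : ℤ × ℤ} {κ : ℕ} (hn : Nrm x) (hκ : ∀ p : ℕ, p.Prime → p ∣ κ → p ∈ S) (hW : W.Δ ≠ 0)
    (h : κ * W.Δ.natAbs = FF α β e f x) : NQ α β S x ≤ Real.log (rd W) := by
  classical
  rw [log_rd]
  unfold NQ N1 lg
  have hdis1 : Set.PairwiseDisjoint (↑(Finset.univ : Finset (Fin k)))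
      (fun i => (x.1 * (α i).2 - x.2 * (α i).1).natAbs.primeFactors \ S) := by
    intro i _ j _ hij
    rw [Function.onFun, Finset.disjoint_left]
    intro p h1 h2
    rw [Finset.mem_sdiff] at h1 h2
    have hp := Nat.prime_of_mem_primeFactors h1.1
    exact (hD x hn.1 p hp h1.2).1 i j hij (Int.natCast_dvd.2 (Nat.dvd_of_mem_primeFactors h1.1))
      (Int.natCast_dvd.2 (Nat.dvd_of_mem_primeFactors h2.1))
  have hdis2 : Set.PairwiseDisjoint (↑(Finset.univ : Finset (Fin m)))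
      (fun j => (Qf (β j) x).natAbs.primeFactors \ S) := by
    intro i _ j _ hij
    rw [Function.onFun, Finset.disjoint_left]
    intro p h1 h2
    rw [Finset.mem_sdiff] at h1 h2
    have hp := Nat.prime_of_mem_primeFactors h1.1
    exact (hD x hn.1 p hp h1.2).2.2 i j hij (Int.natCast_dvd.2 (Nat.dvd_of_mem_primeFactors h1.1))
      (Int.natCast_dvd.2 (Nat.dvd_of_mem_primeFactors h2.1))
  rw [← Finset.sum_biUnion hdis1, ← Finset.sum_biUnion hdis2, ← Finset.sum_union]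
  · refine Finset.sum_le_sum_of_subset_of_nonneg ?_ fun p _ _ => Real.log_natCast_nonneg p
    have key : ∀ p : ℕ, p.Prime → p ∉ S → p ∣ FF α β e f x → p ∈ W.Δ.natAbs.primeFactors := by
      intro p hp hpS hdvd
      rw [Nat.mem_primeFactors]
      refine ⟨hp, ?_, by simpa using hW⟩
      rw [← h] at hdvd
      rcases (Nat.Prime.dvd_mul hp).1 hdvd with h2 | h2
      · exact absurd (hκ p hp h2) hpS
      · exact h2
    intro p hp
    rw [Finset.mem_union] at hp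
    rcases hp with hp | hp
    · rw [Finset.mem_biUnion] at hp
      obtain ⟨i, _, hp⟩ := hp
      rw [Finset.mem_sdiff] at hp
      refine key p (Nat.prime_of_mem_primeFactors hp.1) hp.2 ?_
      unfold FF
      refine Dvd.dvd.mul_right (dvd_trans ?_ (Finset.dvd_prod_of_mem _ (Finset.mem_univ i))) _
      exact dvd_pow (Nat.dvd_of_mem_primeFactors hp.1) (by have := he i; omega)
    · rw [Finset.mem_biUnion] at hp
      obtain ⟨j, _, hp⟩ := hp
      rw [Finset.mem_sdiff] at hp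
      refine key p (Nat.prime_of_mem_primeFactors hp.1) hp.2 ?_
      unfold FF
      refine Dvd.dvd.mul_left (dvd_trans ?_ (Finset.dvd_prod_of_mem _ (Finset.mem_univ j))) _
      exact dvd_pow (Nat.dvd_of_mem_primeFactors hp.1) (by have := hf j; omega)
  · rw [Finset.disjoint_left]
    intro p h1 h2
    rw [Finset.mem_biUnion] at h1 h2
    obtain ⟨i, _, h1⟩ := h1
    obtain ⟨j, _, h2⟩ := h2
    rw [Finset.mem_sdiff] at h1 h2
    have hp := Nat.prime_of_mem_primeFactors h1.1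
    exact (hD x hn.1 p hp h1.2).2.1 i j (Int.natCast_dvd.2 (Nat.dvd_of_mem_primeFactors h1.1))
      (Int.natCast_dvd.2 (Nat.dvd_of_mem_primeFactors h2.1))

/-- the height is bounded by the product -/
lemma htn_le_FF (hk : 3 ≤ k) (hα : Indep α) (he : ∀ i, 1 ≤ e i) {x : ℤ × ℤ}
    (hF : FF α β e f x ≠ 0) : htn x ≤ 2 * U α β * FF α β e f x := by
  obtain ⟨a, ha⟩ : ∃ a : Fin k, a = ⟨0, by omega⟩ := ⟨_, rfl⟩
  obtain ⟨b, hb⟩ : ∃ b : Fin k, b = ⟨1, by omega⟩ := ⟨_, rfl⟩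
  have hab : a ≠ b := by
    rw [ha, hb]
    intro h
    simp at h
  have hL : ∀ i, (Lf (α i) x).natAbs ≤ FF α β e f x := by
    intro i
    refine Nat.le_of_dvd (Nat.pos_of_ne_zero hF) ?_
    unfold FF
    refine Dvd.dvd.mul_right (dvd_trans ?_ (Finset.dvd_prod_of_mem _ (Finset.mem_univ i))) _
    exact dvd_pow_self _ (by have := he i; omega)
  have hd : (α a).1 * (α b).2 - (α b).1 * (α a).2 ≠ 0 := sub_ne_zero.2 (hα a b hab)
  have hd1 : 1 ≤ ((α a).1 * (α b).2 - (α b).1 * (α a).2).natAbs :=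
    Nat.one_le_iff_ne_zero.2 (Int.natAbs_ne_zero.2 hd)
  have hUa := U_α α β a
  have hUb := U_α α β b
  have hgen : ∀ y A B : ℤ, A.natAbs ≤ U α β → B.natAbs ≤ U α β →
      ((α a).1 * (α b).2 - (α b).1 * (α a).2) * y = A * Lf (α b) x - B * Lf (α a) x →
      y.natAbs ≤ 2 * U α β * FF α β e f x := by
    intro y A B hA hB h
    calc y.natAbs ≤ ((α a).1 * (α b).2 - (α b).1 * (α a).2).natAbs * y.natAbs :=
          Nat.le_mul_of_pos_left _ hd1
      _ = (A * Lf (α b) x - B * Lf (α a) x).natAbs := by rw [← Int.natAbs_mul, h]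
      _ ≤ (A * Lf (α b) x).natAbs + (B * Lf (α a) x).natAbs := by omega
      _ = A.natAbs * (Lf (α b) x).natAbs + B.natAbs * (Lf (α a) x).natAbs := by
          rw [Int.natAbs_mul, Int.natAbs_mul]
      _ ≤ U α β * FF α β e f x + U α β * FF α β e f x :=
          Nat.add_le_add (Nat.mul_le_mul hA (hL b)) (Nat.mul_le_mul hB (hL a))
      _ = 2 * U α β * FF α β e f x := by ring
  refine max_le ?_ ?_
  · refine hgen x.1 (α a).1 (α b).1 (by omega) (by omega) ?_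
    unfold Lf
    ring
  · refine hgen x.2 (α a).2 (α b).2 (by omega) (by omega) ?_
    unfold Lf
    ring

end

lemma box_finite (B : ℕ) : ({x : ℤ × ℤ | htn x ≤ B} : Set (ℤ × ℤ)).Finite := by
  refine ((Set.finite_Icc (-(B : ℤ)) B).prod (Set.finite_Icc (-(B : ℤ)) B)).subset ?_
  intro x hx
  have hx' : htn x ≤ B := hx
  have h2 : x.1.natAbs ≤ htn x := le_max_left _ _
  have h3 : x.2.natAbs ≤ htn x := le_max_right _ _
  refine Set.mk_mem_prod ?_ ?_
  · rw [Set.mem_Icc]; omega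
  · rw [Set.mem_Icc]; omega

lemma ncard_biUnion_le {T : Set (ℤ × ℤ)} (hT : T.Finite) (R : ℤ × ℤ → Finset (ℤ × ℤ)) (K : ℕ)
    (hK : ∀ x, (R x).card ≤ K) {Y : Set (ℤ × ℤ)} (hY : ∀ g ∈ Y, ∃ x ∈ T, g ∈ R x) :
    Y.Finite ∧ (Y.ncard : ℝ) ≤ K * T.ncard := by
  classical
  have hsub : Y ⊆ ↑(hT.toFinset.biUnion R) := by
    intro g hg
    obtain ⟨x, hx, hgx⟩ := hY g hg
    rw [Finset.mem_coe, Finset.mem_biUnion]
    exact ⟨x, hT.mem_toFinset.2 hx, hgx⟩
  have hfin : Y.Finite := (Finset.finite_toSet _).subset hsub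
  refine ⟨hfin, ?_⟩
  have h1 : Y.ncard ≤ (hT.toFinset.biUnion R).card := by
    rw [← Set.ncard_coe_finset]
    exact Set.ncard_le_ncard hsub (Finset.finite_toSet _)
  have h2 : (hT.toFinset.biUnion R).card ≤ hT.toFinset.card * K :=
    Finset.card_biUnion_le_card_mul _ _ _ fun x _ => hK x
  rw [← Set.ncard_eq_toFinset_card _ hT] at h2
  have h3 : Y.ncard ≤ K * T.ncard := by rw [mul_comm]; exact h1.trans h2
  exact_mod_cast h3

theorem main (h : S_CT) : S_GT := by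
  classical
  intro k m hk α β S e f P hα hβ hD he hf hUp ε hε
  obtain ⟨M1, hM1, hM⟩ := h ε hε
  obtain ⟨A0, K, R, hK, hUp⟩ := hUp
  obtain ⟨D, hDd⟩ : ∃ D : ℕ, D = ∑ i, e i + 2 * ∑ j, f j := ⟨_, rfl⟩
  obtain ⟨u, hu⟩ : ∃ u : ℕ, u = U α β := ⟨_, rfl⟩
  have hu1 : 1 ≤ u := by
    rw [hu]
    exact U_pos α β
  have hu1r : (1 : ℝ) ≤ u := by exact_mod_cast hu1
  refine ⟨2 * M1 * (D + 1), fun A => ?_⟩
  obtain ⟨C, hC, hCb⟩ := hM k m hk α β S hα hβ (2 * u * A0) A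
  have hkm : (0 : ℝ) < (k : ℝ) + m := by
    have : (0 : ℝ) < k := by exact_mod_cast (by omega : 0 < k)
    positivity
  refine ⟨(K + 1) * (({x : ℤ × ℤ | htn x ≤ u} : Set (ℤ × ℤ)).ncard + C), by positivity,
    fun X hX => ?_⟩
  have hX0 : 0 < X := by linarith
  obtain ⟨f1, f2⟩ := hCb X hX
  obtain ⟨T, hT⟩ : ∃ T : Set (ℤ × ℤ), T =
    {x | x ∈ PtsQ α β S (2 * u * A0) A X ∧ M1 * NQ α β S x ≤ hh x} := ⟨_, rfl⟩
  rw [← hT] at f1 f2
  have h1 : ∀ g ∈ TCA P (2 * M1 * (D + 1)) A X, ∃ x ∈ ({x : ℤ × ℤ | htn x ≤ u} ∪ T :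
      Set (ℤ × ℤ)), g ∈ R x := by
    rintro g ⟨W, hW, hWX, hWM, hWA, rfl⟩
    obtain ⟨hΔ, x, hn, hl, ⟨κ, hκ0, hκA, hκ, hprod⟩, hR⟩ := hUp W hW
    refine ⟨x, ?_, hR⟩
    rcases le_or_gt (htn x) u with h5 | h5
    · exact Or.inl h5
    right
    rw [hT]
    have hNQ : NQ α β S x ≤ Real.log (rd W) := NQ_le α β S e f hD he hf hn hκ hΔ hprod
    have hrd : (1 : ℝ) ≤ rd W := by exact_mod_cast rd_pos W
    have hrd0 : (0 : ℝ) < rd W := by linarith
    have hh0 : (0 : ℝ) < htn x := by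
      have : 0 < htn x := by omega
      exact_mod_cast this
    have hΔ0 : (0 : ℝ) < |(W.Δ : ℝ)| := abs_pos.2 (by exact_mod_cast hΔ)
    have e5 : (W.Δ.natAbs : ℝ) = |(W.Δ : ℝ)| := by
      rw [Nat.cast_natAbs]
      push_cast
      rfl
    have hΔn : 0 < W.Δ.natAbs := Int.natAbs_pos.2 hΔ
    -- upper bound for the discriminant
    have hDle : |(W.Δ : ℝ)| ≤ ((u : ℝ) * htn x) ^ D := by
      have e1 : W.Δ.natAbs ≤ (u * htn x) ^ D := by
        calc W.Δ.natAbs ≤ κ * W.Δ.natAbs := Nat.le_mul_of_pos_left _ hκ0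
          _ = FF α β e f x := hprod
          _ ≤ (u * htn x) ^ D := by
              rw [hu, hDd]
              exact FF_le α β e f x
      rw [← e5]
      exact_mod_cast e1
    have hlogD : Real.log |(W.Δ : ℝ)| ≤ D * (2 * Real.log (htn x)) := by
      have e1 := Real.log_le_log hΔ0 hDle
      rw [Real.log_pow, Real.log_mul (by positivity) hh0.ne'] at e1
      refine e1.trans ?_
      have e2 : Real.log u ≤ Real.log (htn x) :=
        Real.log_le_log (by positivity) (by exact_mod_cast h5.le)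
      have e3 : (0 : ℝ) ≤ D := Nat.cast_nonneg _
      nlinarith
    have hlogM : (2 * M1 * (D + 1)) * Real.log (rd W) ≤ Real.log |(W.Δ : ℝ)| := by
      rw [← Real.log_rpow hrd0]
      exact Real.log_le_log (by positivity) hWM
    have hlogh : 0 ≤ Real.log (htn x) := Real.log_natCast_nonneg _
    -- the height
    have hlow : (htn x : ℝ) ≤ 2 * u * A0 * X ^ A := by
      have hF0 : FF α β e f x ≠ 0 := by
        rw [← hprod]
        positivity
      have e1 := htn_le_FF α β e f hk hα he hF0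
      have e4 : htn x ≤ 2 * u * A0 * W.Δ.natAbs := by
        calc htn x ≤ 2 * U α β * FF α β e f x := e1
          _ = 2 * u * κ * W.Δ.natAbs := by rw [← hprod, hu]; ring
          _ ≤ 2 * u * A0 * W.Δ.natAbs := by gcongr
      have e6 : (htn x : ℝ) ≤ 2 * u * A0 * |(W.Δ : ℝ)| := by
        rw [← e5]
        exact_mod_cast e4
      exact e6.trans (mul_le_mul_of_nonneg_left hWA (by positivity))
    refine ⟨⟨hn, hl, hlow, hNQ.trans (Real.log_le_log hrd0 hWX)⟩, ?_⟩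
    show M1 * NQ α β S x ≤ Real.log (htn x)
    have e1 : (2 * M1 * (D + 1)) * Real.log (rd W) ≤ D * (2 * Real.log (htn x)) :=
      hlogM.trans hlogD
    have e0 : (0 : ℝ) ≤ D := Nat.cast_nonneg _
    have e2 : (2 * M1 * (D + 1)) * Real.log (rd W) ≤ (2 * (D + 1)) * Real.log (htn x) := by
      nlinarith
    have e3 : (2 * (D + 1 : ℝ)) * (M1 * Real.log (rd W)) ≤ (2 * (D + 1)) * Real.log (htn x) := by
      linarith
    have e4 := le_of_mul_le_mul_left e3 (by positivity)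
    exact (mul_le_mul_of_nonneg_left hNQ (by positivity)).trans e4
  have hfin := (box_finite u).union f1
  obtain ⟨g1, g2⟩ := ncard_biUnion_le hfin R K hK h1
  refine ⟨g1, g2.trans ?_⟩
  have g3 : (({x : ℤ × ℤ | htn x ≤ u} ∪ T : Set (ℤ × ℤ)).ncard : ℝ) ≤
      ({x : ℤ × ℤ | htn x ≤ u} : Set (ℤ × ℤ)).ncard + (T.ncard : ℝ) := by
    exact_mod_cast Set.ncard_union_le _ _
  have g4 : 1 ≤ X ^ (1 / ((k : ℝ) + m) + ε) := Real.one_le_rpow hX (by positivity)
  have g6 : (0 : ℝ) ≤ ({x : ℤ × ℤ | htn x ≤ u} : Set (ℤ × ℤ)).ncard := Nat.cast_nonneg _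
  have g7 : (0 : ℝ) ≤ K := Nat.cast_nonneg _
  have g8 : (({x : ℤ × ℤ | htn x ≤ u} ∪ T : Set (ℤ × ℤ)).ncard : ℝ) ≤
      (({x : ℤ × ℤ | htn x ≤ u} : Set (ℤ × ℤ)).ncard + C) * X ^ (1 / ((k : ℝ) + m) + ε) := by
    have : (({x : ℤ × ℤ | htn x ≤ u} : Set (ℤ × ℤ)).ncard : ℝ) ≤
        ({x : ℤ × ℤ | htn x ≤ u} : Set (ℤ × ℤ)).ncard * X ^ (1 / ((k : ℝ) + m) + ε) := by
      nlinarith
    linarith
  have g9 : (0 : ℝ) ≤ (({x : ℤ × ℤ | htn x ≤ u} : Set (ℤ × ℤ)).ncard + C) *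
      X ^ (1 / ((k : ℝ) + m) + ε) := by positivity
  calc (K : ℝ) * (({x : ℤ × ℤ | htn x ≤ u} ∪ T : Set (ℤ × ℤ)).ncard : ℝ)
      ≤ K * ((({x : ℤ × ℤ | htn x ≤ u} : Set (ℤ × ℤ)).ncard + C) *
        X ^ (1 / ((k : ℝ) + m) + ε)) := mul_le_mul_of_nonneg_left g8 g7
    _ ≤ (K + 1) * ((({x : ℤ × ℤ | htn x ≤ u} : Set (ℤ × ℤ)).ncard + C) *
        X ^ (1 / ((k : ℝ) + m) + ε)) := by linarith
    _ = _ := by ring

end Pool.Agent.L0h46.TQ.GT
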