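import Pool.Agent.L0h46.TQ.GCom

/-!
# TQ, module GU: the upper bound for the number of curves
-/

set_option autoImplicit false

namespace Pool.Agent.L0h46.TQ.GU

open Finset Pool.Agent.L0h46.TQ.GCom

theorem main (h : S_CU) : S_GU := by
  intro k m hk α β S e f P hα hβ hD he hf hUp A ε hε
  obtain ⟨A0, K, R, hK, hP⟩ := hUp
  obtain ⟨C, hC, hc⟩ := h k m hk α β S hα hβ (UN α β * A0 : ℝ) A ε hε
  refine ⟨(K + 1) * C, by positivity, fun X hX => ?_⟩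
  obtain ⟨hfin, hcard⟩ := hc X hX
  have h1 : ∀ g ∈ CvA P A X, ∃ x ∈ PtsQ α β S (UN α β * A0 : ℝ) A X, g ∈ R x := by
    rintro g ⟨W, hW, hX', hΔ, rfl⟩
    obtain ⟨hW0, x, hn, hl, ⟨κ, hκ0, hκA, hκ, hprod⟩, hR⟩ := hP W hW
    exact ⟨x, mem_PtsQ hk hα hD he hf hn hl hW0 hκ0 hκA hκ hprod hX' hΔ, hR⟩
  obtain ⟨h2, h3⟩ := ncard_biUnion_le hfin R K hK h1
  refine ⟨h2, h3.trans ?_⟩
  have h5 : (0 : ℝ) ≤ (PtsQ α β S (UN α β * A0 : ℝ) A X).ncard := Nat.cast_nonneg _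
  have h6 : (0 : ℝ) ≤ K := Nat.cast_nonneg _
  calc (K : ℝ) * (PtsQ α β S (UN α β * A0 : ℝ) A X).ncard ≤
        (K + 1) * (C * X ^ (2 / ((k : ℝ) + 2 * m) + ε)) := by
        apply mul_le_mul (by linarith) hcard h5 (by linarith)
    _ = _ := by ring

end Pool.Agent.L0h46.TQ.GU
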