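import Pool.Agent.L0h46.TQ.Defs

/-! Independence, irreducibility and disjointness of the forms. -/

set_option autoImplicit false

namespace Pool.Agent.L0h46.TQ.J

open Pool.Agent.L0h46.TQ

/-- a prime outside `{2,3,5}` does not divide a divisor of `30 ^ 4` -/
theorem not_dvd {p : ℕ} (hp : p.Prime) (hS : p ∉ S30) {c : ℤ} (hc : c ∣ 30 ^ 4) :
    ¬(p : ℤ) ∣ c := by
  intro h
  have h1 : (p : ℤ) ∣ ((30 ^ 4 : ℕ) : ℤ) := by
    have := h.trans hc
    exact_mod_cast this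
  have h2 : p ∣ 30 ^ 4 := Int.natCast_dvd_natCast.1 h1
  have h3 : p ∣ 30 := hp.dvd_of_dvd_pow h2
  have h4 : p ∈ Nat.primeFactors 30 := Nat.mem_primeFactors.2 ⟨hp, h3, by norm_num⟩
  have h5 : Nat.primeFactors 30 = S30 := by
    rw [show (30 : ℕ) = 2 * (3 * 5) by norm_num, Nat.primeFactors_mul (by norm_num) (by norm_num),
      Nat.primeFactors_mul (by norm_num) (by norm_num), Nat.prime_two.primeFactors,
      Nat.prime_three.primeFactors, Nat.prime_five.primeFactors]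
    rfl
  exact hS (h5 ▸ h4)

/-- the conclusion from the divisibility of multiples of powers of the coordinates -/
theorem absurd_of {p : ℕ} (hp : p.Prime) (hS : p ∉ S30) {x : ℤ × ℤ} (hx : IsCoprime x.1 x.2)
    {c : ℤ} {n : ℕ} (hc : c ∣ 30 ^ 4) (h1 : (p : ℤ) ∣ c * x.1 ^ n) (h2 : (p : ℤ) ∣ c * x.2 ^ n) :
    False := by
  have hpp : Prime (p : ℤ) := Nat.prime_iff_prime_int.1 hp
  have a1 : (p : ℤ) ∣ x.1 :=
    hpp.dvd_of_dvd_pow ((hpp.dvd_or_dvd h1).resolve_left (not_dvd hp hS hc))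
  have a2 : (p : ℤ) ∣ x.2 :=
    hpp.dvd_of_dvd_pow ((hpp.dvd_or_dvd h2).resolve_left (not_dvd hp hS hc))
  exact hpp.not_isUnit (hx.isUnit_of_dvd' a1 a2)

theorem ll {p : ℕ} (hp : p.Prime) (hS : p ∉ S30) {x : ℤ × ℤ} (hx : IsCoprime x.1 x.2)
    (a b : ℤ × ℤ) (hc : a.1 * b.2 - a.2 * b.1 ∣ 30 ^ 4) (h1 : (p : ℤ) ∣ Lf a x)
    (h2 : (p : ℤ) ∣ Lf b x) : False := by
  refine absurd_of hp hS hx (n := 1) hc ?_ ?_
  · have : (a.1 * b.2 - a.2 * b.1) * x.1 ^ 1 = a.1 * Lf b x - b.1 * Lf a x := by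
      simp only [Lf]; ring
    rw [this]; exact dvd_sub (h2.mul_left _) (h1.mul_left _)
  · have : (a.1 * b.2 - a.2 * b.1) * x.2 ^ 1 = a.2 * Lf b x - b.2 * Lf a x := by
      simp only [Lf]; ring
    rw [this]; exact dvd_sub (h2.mul_left _) (h1.mul_left _)

theorem lq {p : ℕ} (hp : p.Prime) (hS : p ∉ S30) {x : ℤ × ℤ} (hx : IsCoprime x.1 x.2)
    (a b : ℤ × ℤ) (hc : Qf b a ∣ 30 ^ 4) (h1 : (p : ℤ) ∣ Lf a x)
    (h2 : (p : ℤ) ∣ Qf b x) : False := by
  refine absurd_of hp hS hx (n := 2) hc ?_ ?_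
  · have : Qf b a * x.1 ^ 2 = a.1 ^ 2 * Qf b x +
        (b.1 * a.1 * x.1 + b.2 * a.2 * x.1 + b.2 * a.1 * x.2) * Lf a x := by
      simp only [Lf, Qf]; ring
    rw [this]; exact dvd_add (h2.mul_left _) (h1.mul_left _)
  · have : Qf b a * x.2 ^ 2 = a.2 ^ 2 * Qf b x -
        (a.2 * x.1 + a.1 * x.2 + b.1 * a.2 * x.2) * Lf a x := by
      simp only [Lf, Qf]; ring
    rw [this]; exact dvd_sub (h2.mul_left _) (h1.mul_left _)

/-- the resultant -/
def res (b c : ℤ × ℤ) : ℤ := Qf b (-(b.2 - c.2), b.1 - c.1)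

theorem qq {p : ℕ} (hp : p.Prime) (hS : p ∉ S30) {x : ℤ × ℤ} (hx : IsCoprime x.1 x.2)
    (b c : ℤ × ℤ) (hc : res b c ∣ 30 ^ 4) (h1 : (p : ℤ) ∣ Qf b x)
    (h2 : (p : ℤ) ∣ Qf c x) : False := by
  have hpp : Prime (p : ℤ) := Nat.prime_iff_prime_int.1 hp
  have h3 : (p : ℤ) ∣ x.2 * Lf (-(b.2 - c.2), b.1 - c.1) x := by
    have : x.2 * Lf (-(b.2 - c.2), b.1 - c.1) x = Qf b x - Qf c x := by
      simp only [Lf, Qf]; ring
    rw [this]; exact dvd_sub h1 h2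
  rcases hpp.dvd_or_dvd h3 with h | h
  · have h4 : (p : ℤ) ∣ x.1 ^ 2 := by
      have : x.1 ^ 2 = Qf b x - (b.1 * x.1 + b.2 * x.2) * x.2 := by
        simp only [Qf]; ring
      rw [this]; exact dvd_sub h1 (h.mul_left _)
    exact hpp.not_isUnit (hx.isUnit_of_dvd' (hpp.dvd_of_dvd_pow h4) h)
  · exact lq hp hS hx _ b hc h h1

theorem dj {k m : ℕ} (α : Fin k → ℤ × ℤ) (β : Fin m → ℤ × ℤ)
    (h1 : ∀ i j, i ≠ j → (α i).1 * (α j).2 - (α i).2 * (α j).1 ∣ 30 ^ 4)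
    (h2 : ∀ i j, Qf (β j) (α i) ∣ 30 ^ 4)
    (h3 : ∀ i j, i ≠ j → res (β i) (β j) ∣ 30 ^ 4) : Dj α β S30 := by
  intro x hx p hp hS
  exact ⟨fun i j hij a b => ll hp hS hx _ _ (h1 i j hij) a b,
    fun i j a b => lq hp hS hx _ _ (h2 i j) a b,
    fun i j hij a b => qq hp hS hx _ _ (h3 i j hij) a b⟩

theorem nsq {n : ℤ} (m : ℤ) (h1 : m ^ 2 < n) (h2 : n < (m + 1) ^ 2) (hm : 0 ≤ m) :
    ¬IsSquare n := by
  rintro ⟨r, hr⟩
  have h3 : m < |r| := by
    by_contra h; push Not at h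
    have : |r| ^ 2 ≤ m ^ 2 := pow_le_pow_left₀ (abs_nonneg _) h 2
    rw [sq_abs] at this; nlinarith
  have h4 : |r| < m + 1 := by
    by_contra h; push Not at h
    have : (m + 1) ^ 2 ≤ |r| ^ 2 := pow_le_pow_left₀ (by linarith) h 2
    rw [sq_abs] at this; nlinarith
  omega

theorem nsq' {n : ℤ} (h : n < 0) : ¬IsSquare n := by
  rintro ⟨r, hr⟩
  nlinarith [mul_self_nonneg r]

theorem main : S_J := by
  refine ⟨⟨by unfold Indep; decide, by unfold Indep; decide⟩, ⟨?_, ?_, ?_, ?_⟩, ?_, ?_, ?_, ?_⟩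
  · intro j; fin_cases j
    exact nsq 2 (by simp [β8]) (by simp [β8]) (by norm_num)
  · intro j; fin_cases j
    · exact nsq 2 (by simp [β10]) (by simp [β10]) (by norm_num)
    · exact nsq 4 (by simp [β10]) (by simp [β10]) (by norm_num)
  · intro j; fin_cases j
    · exact nsq' (by simp [β12])
    · exact nsq' (by simp [β12])
    · exact nsq 3 (by simp [β12]) (by simp [β12]) (by norm_num)
  · intro j; fin_cases j
    · exact nsq' (by simp [β28])
    · exact nsq 2 (by simp [β28]) (by simp [β28]) (by norm_num)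
    · exact nsq 2 (by simp [β28]) (by simp [β28]) (by norm_num)
  · exact dj _ _ (by decide) (by decide) (by decide)
  · exact dj _ _ (by decide) (by decide) (by decide)
  · exact dj _ _ (by decide) (by decide) (by decide)
  · exact dj _ _ (by decide) (by decide) (by decide)

end Pool.Agent.L0h46.TQ.J
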