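import Pool.Agent.L0h46.TQ.U10

/-!
# Project TQ, module L10: many curves with a point of order ten
-/

set_option autoImplicit false

namespace Pool.Agent.L0h46.TQ.L10

open Finset WeierstrassCurve Pool.Agent.L0h46.TQ Pool.Agent.Y680.T

/-- the curve with a point of order ten -/
def Wuv (u v : ℤ) : WeierstrassCurve ℤ where
  a₁ := u * (3 * u * v - u ^ 2 - v ^ 2) - v * (2 * v - u) * (v - u)
  a₂ := -(u * v ^ 3 * (2 * v - u) * (v - u))
  a₃ := -(u * (3 * u * v - u ^ 2 - v ^ 2) * (u * v ^ 3 * (2 * v - u) * (v - u)))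
  a₄ := 0
  a₆ := 0

theorem c4_Wuv (u v : ℤ) : (Wuv u v).c₄ = g10 u v := by
  simp only [WeierstrassCurve.c₄, WeierstrassCurve.b₂, WeierstrassCurve.b₄, Wuv, g10, g5]
  ring

theorem D_Wuv (u v : ℤ) : (Wuv u v).Δ = h10 u v := by
  simp only [WeierstrassCurve.Δ, WeierstrassCurve.b₂, WeierstrassCurve.b₄, WeierstrassCurve.b₆,
    WeierstrassCurve.b₈, Wuv, h10]
  ring

section
variable {F : Type*} [Field F] [DecidableEq F] {W : WeierstrassCurve F}

/-- a criterion for the double of a point -/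
lemma dbl_of {x y l x' y' : F} (h : W.toAffine.Nonsingular x y)
    (h' : W.toAffine.Nonsingular x' y') (h0 : psi W x y ≠ 0)
    (hl : l * psi W x y = 3 * x ^ 2 + 2 * W.a₂ * x + W.a₄ - W.a₁ * y)
    (hx : x' = l ^ 2 + W.a₁ * l - W.a₂ - 2 * x)
    (hy : y' = -(l * (x' - x) + y) - W.a₁ * x' - W.a₃) :
    2 • Affine.Point.some x y h = Affine.Point.some x' y' h' := by
  obtain ⟨l', x'', y'', h'', e1, e2, e3, e4⟩ := dbl h h0
  have hll : l' = l := mul_right_cancel₀ h0 (e1.trans hl.symm)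
  have hx' : x'' = x' := by rw [e2, hll, hx]
  have hy' : y'' = y' := by rw [e3, hll, hx', hy]
  rw [e4]
  subst hx' hy'
  rfl

theorem ord10 {u v : F} (hD : W.Δ ≠ 0) (hu : u ≠ 0) (hv : v ≠ 0) (h1 : v - u ≠ 0)
    (h2 : 2 * v - u ≠ 0) (hl : 3 * u * v - u ^ 2 - v ^ 2 ≠ 0)
    (a1 : W.a₁ = u * (3 * u * v - u ^ 2 - v ^ 2) - v * (2 * v - u) * (v - u))
    (a2 : W.a₂ = -(u * v ^ 3 * (2 * v - u) * (v - u)))
    (a3 : W.a₃ = -(u * (3 * u * v - u ^ 2 - v ^ 2) * (u * v ^ 3 * (2 * v - u) * (v - u))))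
    (a4 : W.a₄ = 0) (a6 : W.a₆ = 0) : ∃ P : W.toAffine.Point, addOrderOf P = 10 := by
  have hns : ∀ x y : F, W.toAffine.Equation x y → W.toAffine.Nonsingular x y := fun x y h =>
    (Affine.equation_iff_nonsingular_of_Δ_ne_zero hD).mp h
  have n1 : W.toAffine.Nonsingular 0 0 := by
    apply hns
    rw [Affine.equation_iff, a6]
    ring
  have n2 : W.toAffine.Nonsingular (u * v ^ 3 * (2 * v - u) * (v - u))
      (u * v ^ 4 * (2 * v - u) ^ 2 * (v - u) ^ 2) := by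
    apply hns
    rw [Affine.equation_iff, a1, a2, a3, a4, a6]
    ring
  have n4 : W.toAffine.Nonsingular (u ^ 2 * v ^ 2 * ((2 * v - u) * (v - u)))
      (u ^ 2 * v ^ 4 * (2 * v - u) * (v - u) ^ 2) := by
    apply hns
    rw [Affine.equation_iff, a1, a2, a3, a4, a6]
    ring
  have n8 : W.toAffine.Nonsingular (u * v ^ 3 * (2 * v - u) * (v - u)) 0 := by
    apply hns
    rw [Affine.equation_iff, a1, a2, a3, a4, a6]
    ring
  have d1 : 2 • Affine.Point.some _ _ n1 = Affine.Point.some _ _ n2 := by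
    refine dbl_of (l := 0) n1 n2 ?_ ?_ ?_ ?_
    · have e : psi W 0 0 = -(u * (3 * u * v - u ^ 2 - v ^ 2) *
          (u * v ^ 3 * (2 * v - u) * (v - u))) := by
        rw [psi, a1, a3]; ring
      rw [e, neg_ne_zero]
      positivity
    · rw [psi, a1, a2, a3, a4]
      ring
    · rw [a1, a2]
      ring
    · rw [a1, a3]
      ring
  have d2 : 2 • Affine.Point.some _ _ n2 = Affine.Point.some _ _ n4 := by
    refine dbl_of (l := u * v ^ 2 - u * (3 * u * v - u ^ 2 - v ^ 2) + v * (2 * v - u) * (v - u))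
      n2 n4 ?_ ?_ ?_ ?_
    · have e : psi W (u * v ^ 3 * (2 * v - u) * (v - u))
          (u * v ^ 4 * (2 * v - u) ^ 2 * (v - u) ^ 2) =
          u * v ^ 4 * (2 * v - u) ^ 2 * (v - u) ^ 2 := by
        rw [psi, a1, a3]; ring
      rw [e]
      positivity
    · rw [psi, a1, a2, a3, a4]
      ring
    · rw [a1, a2]
      ring
    · rw [a1, a3]
      ring
  have d4 : 2 • Affine.Point.some _ _ n4 = Affine.Point.some _ _ n8 := by
    refine dbl_of (l := 2 * v ^ 2 * (v - u)) n4 n8 ?_ ?_ ?_ ?_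
    · have e : psi W (u ^ 2 * v ^ 2 * ((2 * v - u) * (v - u)))
          (u ^ 2 * v ^ 4 * (2 * v - u) * (v - u) ^ 2) =
          u ^ 2 * v ^ 2 * (2 * v - u) * (v - u) ^ 4 := by
        rw [psi, a1, a3]; ring
      rw [e]
      positivity
    · rw [psi, a1, a2, a3, a4]
      ring
    · rw [a1, a2]
      ring
    · rw [a1, a3]
      ring
  have e8 : Affine.Point.some _ _ n8 = - Affine.Point.some _ _ n2 := by
    rw [Affine.Point.neg_some]
    have : W.toAffine.negY (u * v ^ 3 * (2 * v - u) * (v - u))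
      (u * v ^ 4 * (2 * v - u) ^ 2 * (v - u) ^ 2) = 0 := by
      rw [Affine.negY, a1, a3]
      ring
    congr 1
    exact this.symm
  set P := Affine.Point.some _ _ n1 with hP
  have m4 : 4 • P = Affine.Point.some _ _ n4 := by
    have e : 4 • P = 2 • (2 • P) := mul_nsmul P 2 2
    rw [e, d1, d2]
  have m8 : 8 • P = - Affine.Point.some _ _ n2 := by
    have e : 8 • P = 2 • (4 • P) := mul_nsmul P 4 2
    rw [e, m4, d4, e8]
  refine ⟨P, addOrderOf_eq_of_nsmul_and_div_prime_nsmul (by norm_num) ?_ ?_⟩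
  · rw [show (10 : ℕ) = 8 + 2 by norm_num, add_nsmul, m8, d1, neg_add_cancel]
  · intro p hp hpd
    have hp' : p = 2 ∨ p = 5 := by
      have h3 : p ∣ 2 * 5 := by simpa using hpd
      rcases (Nat.Prime.dvd_mul hp).1 h3 with h | h
      · exact Or.inl ((Nat.prime_dvd_prime_iff_eq hp Nat.prime_two).1 h)
      · exact Or.inr ((Nat.prime_dvd_prime_iff_eq hp Nat.prime_five).1 h)
    rcases hp' with rfl | rfl
    · intro h
      rw [show (10 / 2 : ℕ) = 4 + 1 by norm_num, add_nsmul, one_nsmul, m4] at h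
      have h3 := eq_neg_of_add_eq_zero_left h
      rw [hP, Affine.Point.neg_some, Affine.Point.some.injEq] at h3
      have h4 : u ^ 2 * v ^ 2 * ((2 * v - u) * (v - u)) ≠ 0 := by positivity
      exact h4 h3.1
    · rw [show (10 / 5 : ℕ) = 2 by norm_num, d1]
      exact Affine.Point.some_ne_zero _

end

theorem tor {u v : ℤ} (hh : h10 u v ≠ 0) : TorQ (ZMod 10) (Wuv u v) := by
  have hD : (Wuv u v).Δ ≠ 0 := by rw [D_Wuv]; exact hh
  obtain ⟨W, hW⟩ : ∃ W, W = (Wuv u v).map (Int.castRingHom ℚ) := ⟨_, rfl⟩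
  have hDW : W.Δ ≠ 0 := by
    rw [hW, WeierstrassCurve.map_Δ]
    simpa using hD
  have ne : u ≠ 0 ∧ v ≠ 0 ∧ v - u ≠ 0 ∧ 2 * v - u ≠ 0 ∧ 3 * u * v - u ^ 2 - v ^ 2 ≠ 0 := by
    refine ⟨?_, ?_, ?_, ?_, ?_⟩ <;> intro h <;> apply hh <;> unfold h10
    · rw [h]; ring
    · rw [h]; ring
    · rw [show u - v = -(v - u) by ring, h]; ring
    · rw [h]; ring
    · rw [show u ^ 2 - 3 * u * v + v ^ 2 = -(3 * u * v - u ^ 2 - v ^ 2) by ring, h]; ring
  obtain ⟨k1, k2, k3, k4, k5⟩ := ne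
  have h10' : ∃ P : W.toAffine.Point, addOrderOf P = 10 := by
    refine ord10 (u := (u : ℚ)) (v := (v : ℚ)) hDW (by exact_mod_cast k1) (by exact_mod_cast k2)
      (by exact_mod_cast k3) (by exact_mod_cast k4) (by exact_mod_cast k5) ?_ ?_ ?_ ?_ ?_ <;>
    · rw [hW]
      simp [Wuv]
  obtain ⟨P, hP⟩ := h10'
  unfold TorQ
  rw [← hW]
  exact emb_of_order hP

theorem cop {u v : ℤ} (huv : IsCoprime u v) (h2 : (2 : ℤ) ∣ v) (h5 : (5 : ℤ) ∣ v) :
    IsCoprime (g10 u v) (h10 u v) := by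
  rw [Int.isCoprime_iff_gcd_eq_one]
  refine Nat.coprime_of_dvd fun p hp h3 h4 => ?_
  have h3' : (p : ℤ) ∣ g10 u v := Int.natCast_dvd.2 h3
  have h4' : (p : ℤ) ∣ h10 u v := Int.natCast_dvd.2 h4
  have hpi : Prime (p : ℤ) := Nat.prime_iff_prime_int.1 hp
  have hpv : (p : ℤ) ∣ v := by
    rcases U10.bad huv hp h3' h4' with rfl | rfl
    · exact h2
    · exact h5
  exact hpi.not_isUnit (huv.isUnit_of_dvd'
    (hpi.dvd_of_dvd_pow (U10.dvd_rest (U10.g10_v u v) h3' hpv)) hpv)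

/-- the parameters -/
def uu (p : ℕ × ℕ) : ℤ := p.2
/-- the parameters -/
def vv (p : ℕ × ℕ) : ℤ := 30 * p.1

theorem good {p : ℕ × ℕ} (hp : Gd30 p) : IsCoprime (uu p) (vv p) ∧ h10 (uu p) (vv p) ≠ 0 := by
  obtain ⟨h1, h2, h3, h4⟩ := hp
  have c1 : IsCoprime (uu p) (vv p) := by
    unfold uu vv
    refine IsCoprime.mul_right ?_ ?_
    · exact_mod_cast Nat.isCoprime_iff_coprime.2 h4
    · exact Nat.isCoprime_iff_coprime.2 h3.symm
  refine ⟨c1, ?_⟩
  have hu2 : uu p % 2 = 1 := by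
    have : ¬ 2 ∣ p.2 := fun h => by
      have h5 : 2 ∣ Nat.gcd p.2 30 := Nat.dvd_gcd h (by norm_num)
      rw [h4] at h5
      omega
    unfold uu
    omega
  have hv2 : vv p % 2 = 0 := by unfold vv; omega
  have hv0 : vv p ≠ 0 := by unfold vv; positivity
  generalize uu p = u at *
  generalize vv p = v at *
  have q1 : (3 * (u * v)) % 2 = 0 := by
    obtain ⟨w, rfl⟩ : ∃ w, v = 2 * w := ⟨v / 2, by omega⟩
    rw [show 3 * (u * (2 * w)) = 2 * (3 * u * w) by ring]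
    omega
  have q2 : (v ^ 2) % 2 = 0 := by
    obtain ⟨w, rfl⟩ : ∃ w, v = 2 * w := ⟨v / 2, by omega⟩
    rw [show (2 * w) ^ 2 = 2 * (2 * w ^ 2) by ring]
    omega
  have q3 : (u ^ 2) % 2 = 1 := by
    obtain ⟨w, rfl⟩ : ∃ w, u = 2 * w + 1 := ⟨u / 2, by omega⟩
    rw [show (2 * w + 1) ^ 2 = 2 * (2 * w ^ 2 + 2 * w) + 1 by ring]
    omega
  have k1 : u ≠ 0 := by omega
  have k2 : u - v ≠ 0 := by omega
  have k3 : 2 * v - u ≠ 0 := by omega
  have k4 : u ^ 2 - 3 * u * v + v ^ 2 ≠ 0 := by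
    rw [show u ^ 2 - 3 * u * v + v ^ 2 = u ^ 2 - 3 * (u * v) + v ^ 2 by ring]
    omega
  have k5 : 4 * v ^ 2 - 2 * u * v - u ^ 2 ≠ 0 := by
    rw [show 4 * v ^ 2 - 2 * u * v - u ^ 2 = 4 * v ^ 2 - 2 * (u * v) - u ^ 2 by ring]
    omega
  unfold h10
  exact mul_ne_zero (mul_ne_zero (mul_ne_zero (mul_ne_zero (mul_ne_zero (pow_ne_zero _ hv0)
    (pow_ne_zero _ k1)) (pow_ne_zero _ k2)) (pow_ne_zero _ k3)) (pow_ne_zero _ k4)) k5

/-- the polynomial whose roots are the slopes of the parameters of the curves with given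
invariants -/
noncomputable def FP (a b : ℚ) : Polynomial ℚ :=
  Polynomial.C b * (g10 (1 : Polynomial ℚ) Polynomial.X) ^ 3 -
    Polynomial.C a * h10 (1 : Polynomial ℚ) Polynomial.X

theorem eval_FP (a b s : ℚ) : (FP a b).eval s = b * (g10 1 s) ^ 3 - a * h10 1 s := by
  simp [FP, g10, g5, h10]

theorem FP_ne {a b : ℚ} (hb : b ≠ 0) : FP a b ≠ 0 := by
  intro h
  have h1 := eval_FP a b 0
  rw [h, Polynomial.eval_zero] at h1
  apply hb
  simp [g10, g5, h10] at h1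
  exact h1.symm

theorem deg_FP (a b : ℚ) : (FP a b).natDegree ≤ 36 := by
  unfold FP g10 g5 h10
  compute_degree

theorem g10_cast (u v : ℤ) : ((g10 u v : ℤ) : ℚ) = g10 (u : ℚ) (v : ℚ) := by
  simp only [g10, g5]
  push_cast
  ring

theorem h10_cast (u v : ℤ) : ((h10 u v : ℤ) : ℚ) = h10 (u : ℚ) (v : ℚ) := by
  simp only [h10]
  push_cast
  ring

theorem fib (g : ℤ × ℤ) (s : Finset (ℕ × ℕ))
    (hs : ∀ p ∈ s, Gd30 p ∧ inv (Wuv (uu p) (vv p)) = g) : s.card ≤ 36 := by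
  classical
  rcases s.eq_empty_or_nonempty with rfl | ⟨p0, hp0⟩
  · simp
  have hD : ∀ p ∈ s, g10 (uu p) (vv p) = g.1 ∧ 1728 * h10 (uu p) (vv p) = g.1 ^ 3 - g.2 ^ 2 := by
    intro p hp
    have h1 := (hs p hp).2
    unfold inv at h1
    have h2 := (Wuv (uu p) (vv p)).c_relation
    rw [← h1, ← c4_Wuv, ← D_Wuv]
    exact ⟨rfl, h2⟩
  set b : ℚ := h10 (uu p0) (vv p0) with hb
  have hb0 : b ≠ 0 := by
    rw [hb, ← h10_cast]
    exact_mod_cast (good (hs p0 hp0).1).2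
  set a : ℚ := (g.1 : ℚ) ^ 3 with ha
  have hroot : ∀ p ∈ s, ((vv p : ℚ) / uu p) ∈ (FP a b).roots.toFinset := by
    intro p hp
    rw [Multiset.mem_toFinset, Polynomial.mem_roots (FP_ne hb0), Polynomial.IsRoot.def, eval_FP]
    have hu : (uu p : ℚ) ≠ 0 := by
      have := (hs p hp).1.2.1
      unfold uu
      positivity
    have e1 : (g10 (uu p) (vv p) : ℚ) = (uu p : ℚ) ^ 12 * g10 1 ((vv p : ℚ) / uu p) := by
      simp only [g10, g5]
      field_simp
    have e2 : (h10 (uu p) (vv p) : ℚ) = (uu p : ℚ) ^ 36 * h10 1 ((vv p : ℚ) / uu p) := by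
      simp only [h10]
      field_simp
    have e3 : b = h10 (uu p : ℚ) (vv p) := by
      rw [hb, ← h10_cast, ← h10_cast]
      have e4 := (hD p hp).2
      have e5 := (hD p0 hp0).2
      have e6 : h10 (uu p0) (vv p0) = h10 (uu p) (vv p) := by linarith
      rw [e6]
    have e4 : a = (g10 (uu p : ℚ) (vv p)) ^ 3 := by
      rw [ha, ← g10_cast, (hD p hp).1]
    rw [e3, e4, e1, e2]
    ring
  have hinj : ∀ p ∈ s, ∀ q ∈ s, (vv p : ℚ) / uu p = (vv q : ℚ) / uu q → p = q := by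
    intro p hp q hq h
    obtain ⟨a1, a2, a3, -⟩ := (hs p hp).1
    obtain ⟨b1, b2, b3, -⟩ := (hs q hq).1
    have hu : (uu p : ℚ) ≠ 0 := by unfold uu; positivity
    have hu' : (uu q : ℚ) ≠ 0 := by unfold uu; positivity
    rw [div_eq_div_iff hu hu'] at h
    have h4 : p.1 * q.2 = q.1 * p.2 := by
      unfold uu vv at h
      push_cast at h
      have h5 : (30 : ℚ) * (p.1 * q.2) = 30 * (q.1 * p.2) := by linarith
      have h6 := mul_left_cancel₀ (by norm_num : (30 : ℚ) ≠ 0) h5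
      exact_mod_cast h6
    have h5 : p.1 ∣ q.1 := a3.dvd_of_dvd_mul_right (h4 ▸ dvd_mul_right _ _)
    have h6 : q.1 ∣ p.1 := b3.dvd_of_dvd_mul_right (h4 ▸ dvd_mul_right _ _)
    have h7 : p.1 = q.1 := Nat.dvd_antisymm h5 h6
    rw [h7] at h4
    exact Prod.ext h7 (Nat.eq_of_mul_eq_mul_left b1 h4).symm
  have h1 : s.card ≤ (FP a b).roots.toFinset.card :=
    Finset.card_le_card_of_injOn (fun p => (vv p : ℚ) / uu p) hroot
      (fun p hp q hq h => hinj p hp q hq h)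
  exact h1.trans ((Multiset.toFinset_card_le _).trans ((Polynomial.card_roots' _).trans
    (deg_FP a b)))

theorem main : S_L10 := by
  refine ⟨30, 36, fun p => inv (Wuv (uu p) (vv p)), fun p hp => ?_, fib⟩
  obtain ⟨h1, h2⟩ := good hp
  have h3 : (2 : ℤ) ∣ vv p := by unfold vv; omega
  have h5 : (5 : ℤ) ∣ vv p := by unfold vv; omega
  refine ⟨Wuv (uu p) (vv p), ⟨⟨?_, ?_⟩, tor h2⟩, rfl, (uu p, vv p), 1, one_pos, ?_, ?_⟩
  · rw [D_Wuv]; exact h2
  · rw [D_Wuv, c4_Wuv]; exact cop h1 h3 h5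
  · rw [U10.FF_eq, D_Wuv, one_mul]
  · unfold htn uu vv
    simp only
    omega

end Pool.Agent.L0h46.TQ.L10
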