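import Pool.Agent.L0h46.TQ.L8
import Pool.Agent.L0h98.T12.Low12

/-!
# Project TQ: many curves with a point of order twelve
-/

set_option autoImplicit false

namespace Pool.Agent.L0h46.TQ.L12

open Pool.Agent.L0h46.TQ WeierstrassCurve Pool.Agent.W307.RT Pool.Agent.L0h5.T8
open Pool.Agent.L0h46.TQ.L8 (aa bb facts pair_inj tor_of Wc c4_eq c6_eq disc_eq cop)

/-- the odd parameter -/
def TT (u v : ℤ) : ℤ := (u ^ 2 - v ^ 2) ^ 3 * (u ^ 2 + 3 * v ^ 2)

/-- the invariants -/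
def I12 (p : ℕ × ℕ) : ℤ × ℤ :=
  (TT (bb p) (aa p) ^ 2 - 256 * (aa p ^ 6 * bb p ^ 2) * TT (bb p) (aa p) +
      4096 * (aa p ^ 6 * bb p ^ 2) ^ 2,
    -TT (bb p) (aa p) ^ 3 - 480 * (aa p ^ 6 * bb p ^ 2) * TT (bb p) (aa p) ^ 2 +
      24576 * (aa p ^ 6 * bb p ^ 2) ^ 2 * TT (bb p) (aa p) - 262144 * (aa p ^ 6 * bb p ^ 2) ^ 3)

theorem FF12_eq (u v : ℤ) : FF α4 β12 e12 f12 (u, v) =
    (u ^ 2 * v ^ 6 * (u - v) ^ 12 * (u + v) ^ 12 *
      ((u ^ 2 + v ^ 2) ^ 3 * (u ^ 2 + 3 * v ^ 2) ^ 4 * (u ^ 2 - 3 * v ^ 2))).natAbs := by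
  unfold FF α4 β12 e12 f12 Lf Qf
  rw [Fin.prod_univ_four, Fin.prod_univ_three]
  simp only [Matrix.cons_val_zero, Matrix.cons_val_one, Matrix.cons_val, Matrix.cons_val_fin_one,
    Int.natAbs_mul, Int.natAbs_pow, pow_one, mul_one, mul_zero, sub_zero, zero_sub, Int.natAbs_neg,
    mul_neg, sub_neg_eq_add, zero_mul, add_zero, neg_mul, one_mul]
  rfl

theorem main : S_L12 := by
  refine ⟨61, 1, I12, ?_, ?_⟩
  · intro p hp
    obtain ⟨ha, hab, hc, ⟨k, hk⟩, h3⟩ := facts hp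
    set v := aa p with haa
    set u := bb p with hbb
    have ha2 : v = 2 * (15 * p.1) := by rw [haa]; unfold aa; ring
    set c : ℤ := 15 * p.1 with hcc
    set T : ℤ := TT u v with hT
    set G : ℤ := v ^ 6 * u ^ 2 with hG
    set m : ℤ := k ^ 2 + k - c ^ 2 with hm
    set n : ℤ := k ^ 2 + k + 3 * c ^ 2 with hn
    have e1 : u ^ 2 - v ^ 2 = 1 + 4 * m := by rw [hk, ha2, hm]; ring
    have e2 : u ^ 2 + 3 * v ^ 2 = 1 + 4 * n := by rw [hk, ha2, hn]; ring
    have hTs : T = 1 + 4 * (n + (3 * m + 12 * m ^ 2 + 16 * m ^ 3) * (1 + 4 * n)) := by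
      rw [hT]
      unfold TT
      rw [e1, e2]; ring
    set s : ℤ := n + (3 * m + 12 * m ^ 2 + 16 * m ^ 3) * (1 + 4 * n) with hs
    -- coprimality
    have c1 : IsCoprime (u ^ 2 - v ^ 2) v := by
      have h1 := (hc.symm.pow_left (m := 2)).add_mul_right_left (-v)
      rwa [show u ^ 2 + -v * v = u ^ 2 - v ^ 2 by ring] at h1
    have c2 : IsCoprime (u ^ 2 + 3 * v ^ 2) v := by
      have h1 := (hc.symm.pow_left (m := 2)).add_mul_right_left (3 * v)
      rwa [show u ^ 2 + 3 * v * v = u ^ 2 + 3 * v ^ 2 by ring] at h1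
    have c3 : IsCoprime (u ^ 2 - v ^ 2) u := by
      have h1 := ((hc.pow_left (m := 2)).neg_left).add_mul_right_left u
      rwa [show -v ^ 2 + u * u = u ^ 2 - v ^ 2 by ring] at h1
    have c4 : IsCoprime (u ^ 2 + 3 * v ^ 2) u := by
      have h1 := (h3.symm.mul_left (hc.pow_left (m := 2))).add_mul_right_left u
      rwa [show 3 * v ^ 2 + u * u = u ^ 2 + 3 * v ^ 2 by ring] at h1
    have c5 : IsCoprime T v := by rw [hT]; unfold TT; exact (c1.pow_left).mul_left c2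
    have c6 : IsCoprime T u := by rw [hT]; unfold TT; exact (c3.pow_left).mul_left c4
    have c7 : IsCoprime T 16 := by
      have h1 : IsCoprime T 2 := ⟨1, -2 * s, by rw [hTs]; ring⟩
      have h2 := h1.pow_right (n := 4)
      norm_num at h2
      exact h2
    have hcop : IsCoprime T (16 * G) := by
      rw [hG]
      exact c7.mul_right ((c5.pow_right).mul_right (c6.pow_right))
    obtain ⟨q1, q2, q3, q4, -⟩ := Pool.Agent.L0h98.T12.pos12 ha hab
    have hTd : T = Pool.Agent.L0h98.T12.Dd v u := by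
      rw [hT]; unfold TT Pool.Agent.L0h98.T12.Dd; ring
    have hT0 : T ≠ 0 := by rw [hTd]; exact q4.ne'
    have hd1 : 16 * G - T = -((u ^ 2 + v ^ 2) ^ 3 * (u ^ 2 - 3 * v ^ 2)) := by
      rw [hG, hT]; unfold TT; ring
    have hD : (Wc s G T).Δ = G * (16 * G - T) * T ^ 4 := disc_eq hTs
    have hD0 : (Wc s G T).Δ ≠ 0 := by
      rw [hD, hd1, hG]
      refine mul_ne_zero (mul_ne_zero (by positivity) (neg_ne_zero.2 ?_)) (pow_ne_zero _ hT0)
      positivity
    have hP : Pool.Agent.L0h98.T12.Pd v u = 64 * G - 2 * T := by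
      unfold Pool.Agent.L0h98.T12.Pd
      rw [← hTd, hG]; ring
    refine ⟨Wc s G T, ⟨⟨hD0, ?_⟩, ?_⟩, ?_, (u, v), 1, by norm_num, ?_, ?_⟩
    · rw [c4_eq hTs, hD]
      exact cop hcop
    · refine tor_of hD0 ?_ ?_ (Pool.Agent.L0h98.T12.hasP12 ha hab)
      · rw [c4_eq hTs, hP, ← hTd]
        unfold Pool.Agent.L0h98.T12.Ac
        ring
      · rw [c6_eq hTs, hP, ← hTd]
        unfold Pool.Agent.L0h98.T12.Bc
        ring
    · unfold inv I12
      rw [c4_eq hTs, c6_eq hTs, ← haa, ← hbb]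
    · rw [FF12_eq, hD, one_mul]
      have h1 : G * (16 * G - T) * T ^ 4 =
          -(u ^ 2 * v ^ 6 * (u - v) ^ 12 * (u + v) ^ 12 *
            ((u ^ 2 + v ^ 2) ^ 3 * (u ^ 2 + 3 * v ^ 2) ^ 4 * (u ^ 2 - 3 * v ^ 2))) := by
        rw [hd1, hT, hG]
        unfold TT
        rw [show (u ^ 2 - v ^ 2) = (u - v) * (u + v) by ring]
        ring
      rw [h1, Int.natAbs_neg]
    · unfold htn
      simp only
      rw [haa, hbb]
      unfold aa bb
      omega
  · intro g s hs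
    refine Finset.card_le_one.2 fun p hp p' hp' => ?_
    obtain ⟨g1, e1⟩ := hs p hp
    obtain ⟨g2, e2⟩ := hs p' hp'
    obtain ⟨ha, hab, -⟩ := facts g1
    obtain ⟨ha', hab', -⟩ := facts g2
    have h := e1.trans e2.symm
    unfold I12 at h
    rw [Prod.mk.injEq] at h
    obtain ⟨h1, h2⟩ := h
    have hT : ∀ u v : ℤ, TT u v = Pool.Agent.L0h98.T12.Dd v u := by
      intro u v; unfold TT Pool.Agent.L0h98.T12.Dd; ring
    have hP : ∀ u v : ℤ, Pool.Agent.L0h98.T12.Pd v u =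
        64 * (v ^ 6 * u ^ 2) - 2 * Pool.Agent.L0h98.T12.Dd v u := by
      intro u v; unfold Pool.Agent.L0h98.T12.Pd; ring
    rw [hT, hT] at h1 h2
    obtain ⟨r1, r2⟩ := Pool.Agent.L0h98.T12.inj_uv ha hab ha' hab'
      (by rw [hP, hP]
          unfold Pool.Agent.L0h98.T12.Ac
          linear_combination (-27) * h1)
      (by rw [hP, hP]
          unfold Pool.Agent.L0h98.T12.Bc
          linear_combination (-54) * h2)
    exact pair_inj r1 r2

end Pool.Agent.L0h46.TQ.L12
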