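import Pool.Agent.L0h46.TQ.Tools
import Pool.Agent.L0h80.T8.Low28

/-!
# Project TQ: many curves with the torsion group `ℤ/2 × ℤ/8`
-/

set_option autoImplicit false

namespace Pool.Agent.L0h46.TQ.L28

open Pool.Agent.L0h46.TQ WeierstrassCurve Pool.Agent.W307.RT Pool.Agent.L0h5.T8
open Pool.Agent.L0h80.T8 (A8 B8 hasT8 inj28 pos28)

/-- the curve -/
def Wc (s M N : ℤ) : WeierstrassCurve ℤ := ⟨1, s + 4 * M, 0, M * N, 0⟩

theorem c4_eq {s M N : ℤ} (h : N = 1 + 4 * s) :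
    (Wc s M N).c₄ = (16 * M) ^ 2 - 16 * M * N + N ^ 2 := by
  subst h
  simp only [Wc, WeierstrassCurve.c₄, WeierstrassCurve.b₂, WeierstrassCurve.b₄]
  ring

theorem c6_eq {s M N : ℤ} (h : N = 1 + 4 * s) :
    (Wc s M N).c₆ = -((16 * M + N) * (32 * M - N) * (8 * M - N)) := by
  subst h
  simp only [Wc, WeierstrassCurve.c₆, WeierstrassCurve.b₂, WeierstrassCurve.b₄,
    WeierstrassCurve.b₆]
  ring

theorem disc_eq {s M N : ℤ} (h : N = 1 + 4 * s) :
    (Wc s M N).Δ = (M * N * (16 * M - N)) ^ 2 := by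
  subst h
  simp only [Wc, WeierstrassCurve.Δ, WeierstrassCurve.b₂, WeierstrassCurve.b₄,
    WeierstrassCurve.b₆, WeierstrassCurve.b₈]
  ring

theorem cop {M N : ℤ} (h : IsCoprime N (16 * M)) :
    IsCoprime ((16 * M) ^ 2 - 16 * M * N + N ^ 2) ((M * N * (16 * M - N)) ^ 2) := by
  have hG : IsCoprime N M := h.of_mul_right_right
  refine IsCoprime.pow_right (IsCoprime.mul_right (IsCoprime.mul_right ?_ ?_) ?_)
  · have h1 : IsCoprime (N ^ 2) M := hG.pow_left
    have h2 := h1.add_mul_right_left (256 * M - 16 * N)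
    rwa [show N ^ 2 + (256 * M - 16 * N) * M = (16 * M) ^ 2 - 16 * M * N + N ^ 2 by ring] at h2
  · have h1 : IsCoprime ((16 * M) ^ 2) N := h.symm.pow_left
    have h2 := h1.add_mul_right_left (N - 16 * M)
    rwa [show (16 * M) ^ 2 + (N - 16 * M) * N = (16 * M) ^ 2 - 16 * M * N + N ^ 2 by ring] at h2
  · have h0 : IsCoprime (16 * M) (16 * M - N) := by
      have h1 := h.symm.neg_right.add_mul_right_right 1
      rwa [show -N + 1 * (16 * M) = 16 * M - N by ring] at h1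
    have h1 : IsCoprime ((16 * M) ^ 2) (16 * M - N) := h0.pow_left
    have h2 := h1.add_mul_right_left (-N)
    rwa [show (16 * M) ^ 2 + -N * (16 * M - N) =
      (16 * M) ^ 2 - 16 * M * N + N ^ 2 by ring] at h2

/-- the first coordinate -/
def vv (p : ℕ × ℕ) : ℤ := 30 * p.1

/-- the second coordinate -/
def uu (p : ℕ × ℕ) : ℤ := p.2 + 90 * p.1

theorem facts {p : ℕ × ℕ} (h : Gd30 p) : 0 < vv p ∧ 3 * vv p < uu p ∧ IsCoprime (vv p) (uu p) ∧
    (∃ k, uu p = 2 * k + 1) := by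
  obtain ⟨h1, h2, h3, h4⟩ := h
  unfold vv uu
  have h1' : (0 : ℤ) < p.1 := by exact_mod_cast h1
  have h2' : (0 : ℤ) < p.2 := by exact_mod_cast h2
  have c1 : IsCoprime (p.1 : ℤ) (p.2 : ℤ) := Nat.isCoprime_iff_coprime.2 h3
  have c2 : IsCoprime (30 : ℤ) (p.2 : ℤ) := (Nat.isCoprime_iff_coprime.2 h4).symm
  have c3 : IsCoprime (30 * (p.1 : ℤ)) (p.2 : ℤ) := c2.mul_left c1
  refine ⟨by linarith, by linarith, ?_, ?_⟩
  · have := c3.add_mul_right_right 3
    rwa [show (p.2 : ℤ) + 3 * (30 * (p.1 : ℤ)) = p.2 + 90 * p.1 by ring] at this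
  · have h5 : ¬ 2 ∣ p.2 := by
      intro h
      have h6 : 2 ∣ Nat.gcd p.2 30 := Nat.dvd_gcd h (by norm_num)
      rw [h4] at h6
      omega
    refine ⟨(p.2 : ℤ) / 2 + 45 * p.1, ?_⟩
    omega

/-- the invariants -/
def I28 (p : ℕ × ℕ) : ℤ × ℤ :=
  ((16 * (uu p ^ 4 * vv p ^ 4)) ^ 2 - 16 * (uu p ^ 4 * vv p ^ 4) * (uu p ^ 2 - vv p ^ 2) ^ 4 +
      ((uu p ^ 2 - vv p ^ 2) ^ 4) ^ 2,
    -((16 * (uu p ^ 4 * vv p ^ 4) + (uu p ^ 2 - vv p ^ 2) ^ 4) *
      (32 * (uu p ^ 4 * vv p ^ 4) - (uu p ^ 2 - vv p ^ 2) ^ 4) *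
      (8 * (uu p ^ 4 * vv p ^ 4) - (uu p ^ 2 - vv p ^ 2) ^ 4)))

theorem FF28_eq (u v : ℤ) : FF α4 β28 e28 f28 (u, v) =
    (u ^ 8 * v ^ 8 * (u - v) ^ 8 * (u + v) ^ 8 *
      ((u ^ 2 + v ^ 2) ^ 4 * (u ^ 2 + 2 * u * v - v ^ 2) ^ 2 *
        (u ^ 2 - 2 * u * v - v ^ 2) ^ 2)).natAbs := by
  unfold FF α4 β28 e28 f28 Lf Qf
  rw [Fin.prod_univ_four, Fin.prod_univ_three]
  simp only [Matrix.cons_val_zero, Matrix.cons_val_one, Matrix.cons_val, Matrix.cons_val_fin_one,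
    Int.natAbs_mul, Int.natAbs_pow, pow_one, mul_one, mul_zero, sub_zero, zero_sub, Int.natAbs_neg,
    mul_neg, sub_neg_eq_add, zero_mul, add_zero, neg_mul, one_mul]
  rfl

theorem main : S_L28 := by
  refine ⟨91, 1, I28, ?_, ?_⟩
  · intro p hp
    obtain ⟨ha, hab, hc, ⟨k, hk⟩⟩ := facts hp
    set v := vv p with haa
    set u := uu p with hbb
    have ha2 : v = 2 * (15 * p.1) := by rw [haa]; unfold vv; ring
    set c : ℤ := 15 * p.1 with hcc
    set N : ℤ := (u ^ 2 - v ^ 2) ^ 4 with hN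
    set M : ℤ := u ^ 4 * v ^ 4 with hM
    set m : ℤ := k ^ 2 + k - c ^ 2 with hm
    have e1 : u ^ 2 - v ^ 2 = 1 + 4 * m := by rw [hk, ha2, hm]; ring
    have hNs : N = 1 + 4 * (4 * m + 24 * m ^ 2 + 64 * m ^ 3 + 64 * m ^ 4) := by
      rw [hN, e1]; ring
    set s : ℤ := 4 * m + 24 * m ^ 2 + 64 * m ^ 3 + 64 * m ^ 4 with hs
    have c1 : IsCoprime (u ^ 2 - v ^ 2) v := by
      have h1 := (hc.symm.pow_left (m := 2)).add_mul_right_left (-v)
      rwa [show u ^ 2 + -v * v = u ^ 2 - v ^ 2 by ring] at h1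
    have c3 : IsCoprime (u ^ 2 - v ^ 2) u := by
      have h1 := ((hc.pow_left (m := 2)).neg_left).add_mul_right_left u
      rwa [show -v ^ 2 + u * u = u ^ 2 - v ^ 2 by ring] at h1
    have c5 : IsCoprime N v := by rw [hN]; exact c1.pow_left
    have c6 : IsCoprime N u := by rw [hN]; exact c3.pow_left
    have c7 : IsCoprime N 16 := by
      have h1 : IsCoprime N 2 := ⟨1, -2 * s, by rw [hNs]; ring⟩
      have h2 := h1.pow_right (n := 4)
      norm_num at h2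
      exact h2
    have hcop : IsCoprime N (16 * M) := by
      rw [hM]
      exact c7.mul_right ((c6.pow_right).mul_right (c5.pow_right))
    obtain ⟨p1, p2, p3, p4⟩ := pos28 ha hab
    have eM : 16 * M = M28 u v := by rw [hM]; unfold M28; ring
    have eN : N = N28 u v := by rw [hN]; unfold N28; ring
    have hD : (Wc s M N).Δ = (M * N * (16 * M - N)) ^ 2 := disc_eq hNs
    have hM0 : M ≠ 0 := by
      intro h
      rw [← eM, h] at p3
      norm_num at p3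
    have hN0 : N ≠ 0 := by rw [eN]; exact (p3.trans p4).ne'
    have hMN : 16 * M - N ≠ 0 := by rw [eM, eN]; exact (sub_neg.2 p4).ne
    have hD0 : (Wc s M N).Δ ≠ 0 := by
      rw [hD]
      exact pow_ne_zero _ (mul_ne_zero (mul_ne_zero hM0 hN0) hMN)
    refine ⟨Wc s M N, ⟨⟨hD0, ?_⟩, ?_⟩, ?_, (u, v), 1, by norm_num, ?_, ?_⟩
    · rw [c4_eq hNs, hD]
      exact cop hcop
    · refine torQ28_of hD0 ?_
      have huq : (0 : ℚ) < u := by exact_mod_cast (by linarith : (0 : ℤ) < u)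
      have hvq : (0 : ℚ) < v := by exact_mod_cast ha
      have h1 : -27 * (Wc s M N).c₄ = A8 (M28 u v) (N28 u v) := by
        rw [c4_eq hNs, ← eM, ← eN]; unfold A8; ring
      have h2 : -54 * (Wc s M N).c₆ = B8 (M28 u v) (N28 u v) := by
        rw [c6_eq hNs, ← eM, ← eN]; unfold B8; ring
      rw [h1, h2]
      refine hasT8 (p := 2 * u * v) (q := u ^ 2 - v ^ 2) (r := u ^ 2 + v ^ 2) (by positivity) ?_
        (by positivity) (by ring) ?_ ?_
      · exact_mod_cast p2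
      · unfold A8 M28 N28; push_cast; ring
      · unfold B8 M28 N28; push_cast; ring
    · unfold inv I28
      rw [c4_eq hNs, c6_eq hNs, ← haa, ← hbb]
    · rw [FF28_eq, hD, one_mul]
      congr 1
      rw [hM, hN]
      rw [show (u ^ 2 - v ^ 2) = (u - v) * (u + v) by ring]
      ring
    · unfold htn
      simp only
      rw [haa, hbb]
      unfold vv uu
      omega
  · intro g s hs
    refine Finset.card_le_one.2 fun p hp p' hp' => ?_
    obtain ⟨g1, e1⟩ := hs p hp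
    obtain ⟨g2, e2⟩ := hs p' hp'
    obtain ⟨ha, hab, -⟩ := facts g1
    obtain ⟨ha', hab', -⟩ := facts g2
    have h := e1.trans e2.symm
    unfold I28 at h
    rw [Prod.mk.injEq] at h
    obtain ⟨h1, h2⟩ := h
    obtain ⟨r1, r2⟩ := inj28 ha hab ha' hab'
      (by unfold A8 M28 N28; linear_combination (-27) * h1)
      (by unfold B8 M28 N28; linear_combination (-54) * h2)
    unfold uu at r1
    unfold vv at r2
    ext
    · omega
    · omega

end Pool.Agent.L0h46.TQ.L28
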