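import Pool.Agent.L0h46.TQ.Tools
import Pool.Agent.L0h98.T8.Low8a

/-!
# Project TQ: many curves with a point of order eight
-/

set_option autoImplicit false

namespace Pool.Agent.L0h46.TQ.L8

open Pool.Agent.L0h46.TQ WeierstrassCurve Pool.Agent.W307.RT Pool.Agent.L0h5.T8

/-- the curve -/
def Wc (s G T : ℤ) : WeierstrassCurve ℤ := ⟨1, s + 16 * G, 0, 8 * G * T, G * T ^ 2⟩

theorem c4_eq {s G T : ℤ} (h : T = 1 + 4 * s) :
    (Wc s G T).c₄ = T ^ 2 - 256 * G * T + 4096 * G ^ 2 := by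
  subst h
  simp only [Wc, WeierstrassCurve.c₄, WeierstrassCurve.b₂, WeierstrassCurve.b₄]
  ring

theorem c6_eq {s G T : ℤ} (h : T = 1 + 4 * s) :
    (Wc s G T).c₆ = -T ^ 3 - 480 * G * T ^ 2 + 24576 * G ^ 2 * T - 262144 * G ^ 3 := by
  subst h
  simp only [Wc, WeierstrassCurve.c₆, WeierstrassCurve.b₂, WeierstrassCurve.b₄,
    WeierstrassCurve.b₆]
  ring

theorem disc_eq {s G T : ℤ} (h : T = 1 + 4 * s) :
    (Wc s G T).Δ = G * (16 * G - T) * T ^ 4 := by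
  subst h
  simp only [Wc, WeierstrassCurve.Δ, WeierstrassCurve.b₂, WeierstrassCurve.b₄,
    WeierstrassCurve.b₆, WeierstrassCurve.b₈]
  ring

theorem cop {G T : ℤ} (h : IsCoprime T (16 * G)) :
    IsCoprime (T ^ 2 - 256 * G * T + 4096 * G ^ 2) (G * (16 * G - T) * T ^ 4) := by
  have hG : IsCoprime T G := h.of_mul_right_right
  refine IsCoprime.mul_right (IsCoprime.mul_right ?_ ?_) (IsCoprime.pow_right ?_)
  · have h1 : IsCoprime (T ^ 2) G := hG.pow_left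
    have h2 := h1.add_mul_right_left (4096 * G - 256 * T)
    rwa [show T ^ 2 + (4096 * G - 256 * T) * G = T ^ 2 - 256 * G * T + 4096 * G ^ 2 by ring] at h2
  · have h0 : IsCoprime (16 * G) (16 * G - T) := by
      have h1 := h.symm.neg_right.add_mul_right_right 1
      rwa [show -T + 1 * (16 * G) = 16 * G - T by ring] at h1
    have h1 : IsCoprime ((16 * G) ^ 2) (16 * G - T) := h0.pow_left
    have h2 := h1.add_mul_right_left (240 * G - T)
    rwa [show (16 * G) ^ 2 + (240 * G - T) * (16 * G - T) =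
      T ^ 2 - 256 * G * T + 4096 * G ^ 2 by ring] at h2
  · have h1 : IsCoprime ((16 * G) ^ 2) T := h.symm.pow_left
    have h2 : IsCoprime (16 : ℤ) T := h.symm.of_mul_left_left
    have h3 : IsCoprime (16 * (16 * G) ^ 2) T := h2.mul_left h1
    have h4 := h3.add_mul_right_left (T - 256 * G)
    rwa [show 16 * (16 * G) ^ 2 + (T - 256 * G) * T =
      T ^ 2 - 256 * G * T + 4096 * G ^ 2 by ring] at h4

/-- the first coordinate -/
def aa (p : ℕ × ℕ) : ℤ := 30 * p.1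

/-- the second coordinate -/
def bb (p : ℕ × ℕ) : ℤ := p.2 + 60 * p.1

theorem facts {p : ℕ × ℕ} (h : Gd30 p) : 0 < aa p ∧ 2 * aa p < bb p ∧ IsCoprime (aa p) (bb p) ∧
    (∃ k, bb p = 2 * k + 1) ∧ IsCoprime (bb p) 3 := by
  obtain ⟨h1, h2, h3, h4⟩ := h
  unfold aa bb
  have h1' : (0 : ℤ) < p.1 := by exact_mod_cast h1
  have h2' : (0 : ℤ) < p.2 := by exact_mod_cast h2
  have c1 : IsCoprime (p.1 : ℤ) (p.2 : ℤ) := Nat.isCoprime_iff_coprime.2 h3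
  have c2 : IsCoprime (30 : ℤ) (p.2 : ℤ) := (Nat.isCoprime_iff_coprime.2 h4).symm
  have c3 : IsCoprime (30 * (p.1 : ℤ)) (p.2 : ℤ) := c2.mul_left c1
  refine ⟨by linarith, by linarith, ?_, ?_, ?_⟩
  · have := c3.add_mul_right_right 2
    rwa [show (p.2 : ℤ) + 2 * (30 * (p.1 : ℤ)) = p.2 + 60 * p.1 by ring] at this
  · have h5 : ¬ 2 ∣ p.2 := by
      intro h
      have h6 : 2 ∣ Nat.gcd p.2 30 := Nat.dvd_gcd h (by norm_num)
      rw [h4] at h6
      omega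
    refine ⟨(p.2 : ℤ) / 2 + 30 * p.1, ?_⟩
    omega
  · have c4 : IsCoprime (3 * 10 : ℤ) (p.2 : ℤ) := c2
    have c5 := c4.of_mul_left_left.symm.add_mul_right_left (20 * (p.1 : ℤ))
    rwa [show (p.2 : ℤ) + 20 * (p.1 : ℤ) * 3 = p.2 + 60 * p.1 by ring] at c5

theorem pair_inj {p p' : ℕ × ℕ} (h1 : aa p = aa p') (h2 : bb p = bb p') : p = p' := by
  unfold aa at h1
  unfold bb at h2
  ext
  · omega
  · omega

/-- the curve belongs to the short form -/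
theorem tor_of {W : WeierstrassCurve ℤ} {n : ℕ} [NeZero n] {A B : ℤ} (hD : W.Δ ≠ 0)
    (hA : A = -27 * W.c₄) (hB : B = -54 * W.c₆) (h : HasP n (Sh A B)) : TorQ (ZMod n) W := by
  subst hA hB
  exact torQ_of hD h

/-- the invariants -/
def I8 (p : ℕ × ℕ) : ℤ × ℤ :=
  (((bb p ^ 2 - aa p ^ 2) ^ 2) ^ 2 - 16 * aa p ^ 4 * (bb p ^ 2 - aa p ^ 2) ^ 2 + 16 * aa p ^ 8,
    -((bb p ^ 2 - aa p ^ 2) ^ 2) ^ 3 - 30 * aa p ^ 4 * ((bb p ^ 2 - aa p ^ 2) ^ 2) ^ 2 +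
      96 * aa p ^ 8 * (bb p ^ 2 - aa p ^ 2) ^ 2 - 64 * aa p ^ 12)

theorem FF8_eq (u v : ℤ) : FF α4 β8 e8 f8 (u, v) =
    (u ^ 2 * v ^ 4 * (u - v) ^ 8 * (u + v) ^ 8 * (u ^ 2 - 2 * v ^ 2)).natAbs := by
  unfold FF α4 β8 e8 f8 Lf Qf
  rw [Fin.prod_univ_four, Fin.prod_univ_one]
  simp only [Matrix.cons_val_zero, Matrix.cons_val_one, Matrix.cons_val, Matrix.cons_val_fin_one,
    Int.natAbs_mul, Int.natAbs_pow, pow_one, mul_one, mul_zero, sub_zero, zero_sub, Int.natAbs_neg,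
    mul_neg, sub_neg_eq_add, zero_mul, add_zero, neg_mul]
  rfl

theorem main : S_L8 := by
  refine ⟨61, 1, I8, ?_, ?_⟩
  · intro p hp
    obtain ⟨ha, hab, hc, ⟨k, hk⟩, -⟩ := facts hp
    set a := aa p with haa
    set b := bb p with hbb
    have ha2 : a = 2 * (15 * p.1) := by rw [haa]; unfold aa; ring
    set c : ℤ := 15 * p.1 with hcc
    set T : ℤ := (b ^ 2 - a ^ 2) ^ 2 with hT
    set m : ℤ := k ^ 2 + k - c ^ 2 with hm
    have hTs : T = 1 + 4 * (2 * m + 4 * m ^ 2) := by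
      rw [hT, hk, ha2, hm]; ring
    have hG : a ^ 4 = 16 * c ^ 4 := by rw [ha2]; ring
    have hcop : IsCoprime T (16 * c ^ 4) := by
      rw [← hG, hT]
      refine IsCoprime.pow ?_
      have h1 := (hc.symm.pow_left (m := 2)).add_mul_right_left (-a)
      rwa [show b ^ 2 + -a * a = b ^ 2 - a ^ 2 by ring] at h1
    obtain ⟨q1, q2, q3⟩ := Pool.Agent.L0h98.T8.pos8 ha hab
    have hT0 : T ≠ 0 := by rw [hT]; positivity
    have hc0 : c ≠ 0 := by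
      intro h
      rw [ha2, h] at ha
      norm_num at ha
    have hd1 : 16 * c ^ 4 - T = -(b ^ 2 * (b ^ 2 - 2 * a ^ 2)) := by rw [← hG, hT]; ring
    have hD : (Wc (2 * m + 4 * m ^ 2) (c ^ 4) T).Δ = c ^ 4 * (16 * c ^ 4 - T) * T ^ 4 := disc_eq hTs
    have hD0 : (Wc (2 * m + 4 * m ^ 2) (c ^ 4) T).Δ ≠ 0 := by
      rw [hD, hd1]
      refine mul_ne_zero (mul_ne_zero (pow_ne_zero _ hc0) (neg_ne_zero.2 ?_)) (pow_ne_zero _ hT0)
      positivity
    refine ⟨Wc (2 * m + 4 * m ^ 2) (c ^ 4) T, ⟨⟨hD0, ?_⟩, ?_⟩, ?_, (b, a), 16, by norm_num, ?_, ?_⟩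
    · rw [c4_eq hTs, hD]
      exact cop hcop
    · refine tor_of hD0 (A := Pool.Agent.L0h98.T8.A8 a b) (B := Pool.Agent.L0h98.T8.B8 a b) ?_ ?_
        (Pool.Agent.L0h98.T8.hasP8 ha hab)
      · rw [c4_eq hTs]
        unfold Pool.Agent.L0h98.T8.A8 Pool.Agent.L0h98.T8.Pf Pool.Agent.L0h98.T8.Tf
        rw [← hT, hG]; ring
      · rw [c6_eq hTs]
        unfold Pool.Agent.L0h98.T8.B8 Pool.Agent.L0h98.T8.Pf Pool.Agent.L0h98.T8.Tf
        rw [← hT, hG]; ring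
    · unfold inv I8
      rw [c4_eq hTs, c6_eq hTs, ← haa, ← hbb, ← hT]
      refine Prod.ext ?_ ?_
      · simp only
        rw [show a ^ 8 = (a ^ 4) ^ 2 by ring, hG]; ring
      · simp only
        rw [show a ^ 8 = (a ^ 4) ^ 2 by ring, show a ^ 12 = (a ^ 4) ^ 3 by ring, hG]; ring
    · rw [FF8_eq, hD]
      have h1 : 16 * (c ^ 4 * (16 * c ^ 4 - T) * T ^ 4) =
          -(b ^ 2 * a ^ 4 * (b - a) ^ 8 * (b + a) ^ 8 * (b ^ 2 - 2 * a ^ 2)) := by
        rw [hd1, hT, hG]; ring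
      rw [← Int.natAbs_neg (b ^ 2 * a ^ 4 * (b - a) ^ 8 * (b + a) ^ 8 * (b ^ 2 - 2 * a ^ 2)), ← h1]
      exact (Int.natAbs_mul 16 (c ^ 4 * (16 * c ^ 4 - T) * T ^ 4)).symm
    · unfold htn
      simp only
      rw [haa, hbb]
      unfold aa bb
      omega
  · intro g s hs
    refine Finset.card_le_one.2 fun p hp p' hp' => ?_
    obtain ⟨g1, e1⟩ := hs p hp
    obtain ⟨g2, e2⟩ := hs p' hp'
    obtain ⟨ha, hab, -⟩ := facts g1
    obtain ⟨ha', hab', -⟩ := facts g2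
    have h := e1.trans e2.symm
    unfold I8 at h
    rw [Prod.mk.injEq] at h
    obtain ⟨h1, h2⟩ := h
    obtain ⟨r1, r2⟩ := Pool.Agent.L0h98.T8.inj_ab ha hab ha' hab'
      (by unfold Pool.Agent.L0h98.T8.A8 Pool.Agent.L0h98.T8.Pf Pool.Agent.L0h98.T8.Tf
          linear_combination (-27) * h1)
      (by unfold Pool.Agent.L0h98.T8.B8 Pool.Agent.L0h98.T8.Pf Pool.Agent.L0h98.T8.Tf
          linear_combination (-54) * h2)
    exact pair_inj r1 r2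

end Pool.Agent.L0h46.TQ.L8
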