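import Pool.Agent.L0h46.TQ.Defs
import Pool.Agent.Y911.PL.Main

set_option autoImplicit false

namespace Pool.Agent.L0h46.TQ.LIN

theorem main : S_LIN := by
  intro q hq α hα S
  refine ⟨?_, ?_⟩
  · obtain ⟨C, hC, h⟩ := Pool.Agent.Y911.PL.upper_sharp hq α hα S
    exact ⟨C, hC, fun X hX => ⟨Pool.Agent.Y911.PL.pts_finite hq α hα S hX, h X hX⟩⟩
  · intro δ hδ
    exact Pool.Agent.Y911.PL.high_points hq α hα S hδ

end Pool.Agent.L0h46.TQ.LIN
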