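import Pool.Agent.L0h46.TQ.Tools
import Pool.Agent.L0h80.T8.Par28

/-!
# TQ, module P28: the parametrisation for `ℤ/2 × ℤ/8`
-/

set_option autoImplicit false

open WeierstrassCurve

namespace Pool.Agent.L0h46.TQ.P28

open Pool.Agent.L0h5.T8

theorem main : S_P28 := by
  intro W hD hT
  obtain ⟨u, v, s, hR⟩ := Pool.Agent.L0h80.T8.exR (disc_ne hD) (hasT_of hD hT)
  obtain ⟨M, hM⟩ : ∃ M : ℚ, M = (M28 u v : ℚ) := ⟨_, rfl⟩
  obtain ⟨N, hN⟩ : ∃ N : ℚ, N = (N28 u v : ℚ) := ⟨_, rfl⟩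
  have ea := hR.ea
  have eb := hR.eb
  rw [← hM, ← hN] at ea eb
  push_cast at ea eb
  have hrel : 1728 * (W.Δ : ℚ) = (W.c₄ : ℚ) ^ 3 - (W.c₆ : ℚ) ^ 2 := by
    exact_mod_cast W.c_relation
  have hM' : 16 * (u : ℚ) ^ 4 * (v : ℚ) ^ 4 = M := by
    rw [hM]; simp only [M28]; push_cast; ring
  have hN' : ((u : ℚ) ^ 2 - (v : ℚ) ^ 2) ^ 4 = N := by
    rw [hN]; simp only [N28]; push_cast; ring
  have h4 : (W.c₄ : ℚ) = s ^ 4 * (M ^ 2 - M * N + N ^ 2) / 81 := by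
    linear_combination (-1 / 81) * ea
  have h6 : (W.c₆ : ℚ) = -(s ^ 6 * ((M + N) * (2 * M - N) * (M - 2 * N))) / 1458 := by
    linear_combination (-1 / 1458) * eb
  refine ⟨u, v, s / 3, div_ne_zero hR.s0 (by norm_num), ?_, ?_⟩
  · rw [hM', hN', h4]
    ring
  · rw [hM', hN']
    have : (W.Δ : ℚ) = ((W.c₄ : ℚ) ^ 3 - (W.c₆ : ℚ) ^ 2) / 1728 := by rw [← hrel]; ring
    rw [this, h4, h6]
    ring

end Pool.Agent.L0h46.TQ.P28
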