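import Pool.Agent.L0h46.TQ.Tools
import Pool.Agent.L0h98.T8.Par8

/-!
# TQ, module P8: the parametrisation for `ℤ/8`
-/

set_option autoImplicit false

open WeierstrassCurve

namespace Pool.Agent.L0h46.TQ.P8

open Pool.Agent.L0h98.T8

theorem main : S_P8 := by
  intro W hD hT
  obtain ⟨a, b, c, hR⟩ := exR8 (disc_ne hD) (hasP_of hD hT)
  have ea : 48 * (-27 * (W.c₄ : ℚ)) = (c : ℚ) ^ 4 * (3 * (Tf a b : ℚ) ^ 2 - (Pf a b : ℚ) ^ 2) := by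
    exact_mod_cast hR.ea
  have eb : 1728 * (-54 * (W.c₆ : ℚ)) = (c : ℚ) ^ 6 *
      ((Pf a b : ℚ) * (2 * (Pf a b : ℚ) ^ 2 - 9 * (Tf a b : ℚ) ^ 2)) := by
    exact_mod_cast hR.eb
  have hrel : 1728 * (W.Δ : ℚ) = (W.c₄ : ℚ) ^ 3 - (W.c₆ : ℚ) ^ 2 := by
    exact_mod_cast W.c_relation
  have hc0 : (c : ℚ) ≠ 0 := by exact_mod_cast hR.c0
  have hP : (Pf a b : ℚ) = 4 * (a : ℚ) ^ 4 - 2 * (((b : ℚ) ^ 2 - (a : ℚ) ^ 2) ^ 2) := by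
    simp only [Pf]; push_cast; ring
  have hTt : (Tf a b : ℚ) = ((b : ℚ) ^ 2 - (a : ℚ) ^ 2) ^ 2 := by
    simp only [Tf]; push_cast; ring
  obtain ⟨T, hTT⟩ : ∃ T : ℚ, T = ((b : ℚ) ^ 2 - (a : ℚ) ^ 2) ^ 2 := ⟨_, rfl⟩
  obtain ⟨G, hG⟩ : ∃ G : ℚ, G = (a : ℚ) ^ 4 := ⟨_, rfl⟩
  rw [hP, hTt, ← hTT, ← hG] at ea eb
  have h4 : (W.c₄ : ℚ) = (c : ℚ) ^ 4 * ((4 * G - 2 * T) ^ 2 - 3 * T ^ 2) / 1296 := by
    linear_combination (-1 / 1296) * ea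
  have h6 : (W.c₆ : ℚ) = -((c : ℚ) ^ 6 * ((4 * G - 2 * T) * (2 * (4 * G - 2 * T) ^ 2 - 9 * T ^ 2))) /
      93312 := by
    linear_combination (-1 / 93312) * eb
  refine ⟨b, a, (c : ℚ) / 6, div_ne_zero hc0 (by norm_num), ?_, ?_⟩
  · rw [← hTT, ← hG, h4, gGT]
    ring
  · rw [← hTT, ← hG, hGT]
    have : (W.Δ : ℚ) = ((W.c₄ : ℚ) ^ 3 - (W.c₆ : ℚ) ^ 2) / 1728 := by rw [← hrel]; ring
    rw [this, h4, h6]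
    ring

end Pool.Agent.L0h46.TQ.P8
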