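import Pool.Agent.L0h46.TQ.Defs
import Pool.Agent.W578.CF.DIVS
import Pool.Agent.W230.CF.TAU
import Pool.Agent.W335.CF.RAD

/-!
# TQ, module QL: the values of a quadratic form with small radical
-/

set_option autoImplicit false

namespace Pool.Agent.L0h46.TQ.QL

open Finset NumberField Pool.Agent.W4.CF

lemma lift_root {K : Type} [Field K] [NumberField K] {b c : ℤ} {r : K} (hint : IsIntegral ℤ r)
    (hr : r ^ 2 + (b : K) * r + (c : K) = 0) : ∃ ρ : 𝓞 K, ρ ^ 2 + b * ρ + c = 0 := by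
  obtain ⟨ρ, hρ⟩ : ∃ ρ : 𝓞 K, (ρ : K) = r := ⟨⟨r, hint⟩, rfl⟩
  refine ⟨ρ, ?_⟩
  have h0 : ((ρ ^ 2 + b * ρ + c : 𝓞 K) : K) = 0 := by
    rw [← hρ] at hr
    simpa using hr
  exact_mod_cast h0

lemma exists_field (b c : ℤ) : ∃ (K : Type) (_ : Field K) (_ : NumberField K) (ρ : 𝓞 K),
    ρ ^ 2 + b * ρ + c = 0 := by
  classical
  let p : Polynomial ℚ := Polynomial.X ^ 2 + Polynomial.C (b : ℚ) * Polynomial.X +
    Polynomial.C (c : ℚ)
  have hdeg : p.natDegree = 2 := by
    simp only [p]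
    compute_degree!
  have hnf : NumberField p.SplittingField :=
    { to_charZero := inferInstance, to_finiteDimensional := inferInstance }
  have hsp := Polynomial.SplittingField.splits p
  have hd0 : (p.map (algebraMap ℚ p.SplittingField)).degree ≠ 0 := by
    rw [Polynomial.degree_map]
    intro h
    have h2 : p.natDegree = 0 := Polynomial.natDegree_eq_of_degree_eq_some h
    omega
  obtain ⟨r, hr⟩ := hsp.exists_eval_eq_zero hd0
  have hr' : r ^ 2 + (b : p.SplittingField) * r + (c : p.SplittingField) = 0 := by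
    have h1 := hr
    simp only [p, Polynomial.map_add, Polynomial.map_mul, Polynomial.map_pow, Polynomial.map_X,
      Polynomial.map_C, Polynomial.eval_add, Polynomial.eval_mul, Polynomial.eval_pow,
      Polynomial.eval_X, Polynomial.eval_C] at h1
    simpa using h1
  have hint : IsIntegral ℤ r := by
    refine ⟨Polynomial.X ^ 2 + Polynomial.C b * Polynomial.X + Polynomial.C c, ?_, ?_⟩
    · monicity!
    · simp only [Polynomial.eval₂_add, Polynomial.eval₂_mul, Polynomial.eval₂_pow,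
        Polynomial.eval₂_X, Polynomial.eval₂_C]
      simpa using hr'
  exact ⟨p.SplittingField, inferInstance, hnf, lift_root hint hr'⟩

lemma card_le_real {α γ : Type*} [DecidableEq γ] (s : Finset α) (f : α → γ) (B : ℝ)
    (h : ∀ y ∈ s.image f, ((s.filter (fun x => f x = y)).card : ℝ) ≤ B) :
    (s.card : ℝ) ≤ (s.image f).card * B := by
  rw [Finset.card_eq_sum_card_image f s]
  push_cast
  calc (∑ y ∈ s.image f, ((s.filter (fun x => f x = y)).card : ℝ)) ≤ ∑ y ∈ s.image f, B :=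
        Finset.sum_le_sum h
    _ = _ := by rw [Finset.sum_const, nsmul_eq_mul]

/-- the product of the primes in `S` -/
def mm (S : Finset ℕ) : ℕ := ∏ p ∈ S.filter Nat.Prime, p

lemma mm_pos (S : Finset ℕ) : 1 ≤ mm S := by
  unfold mm
  exact Finset.prod_pos fun _ hp => Nat.Prime.pos (Finset.mem_filter.1 hp).2

lemma dvd_mm {S : Finset ℕ} {p : ℕ} (hp : p.Prime) : p ∣ mm S ↔ p ∈ S := by
  unfold mm
  rw [hp.prime.dvd_finsetProd_iff]
  constructor
  · rintro ⟨q, hq, hpq⟩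
    rw [Finset.mem_filter] at hq
    rw [(Nat.prime_dvd_prime_iff_eq hp hq.2).1 hpq]
    exact hq.1
  · intro h
    exact ⟨p, Finset.mem_filter.2 ⟨h, hp⟩, dvd_rfl⟩

lemma radp_eq (S : Finset ℕ) (n : ℕ) : radp (mm S) n = ∏ p ∈ n.primeFactors \ S, p := by
  unfold radp
  congr 1
  ext p
  rw [Finset.mem_filter, Finset.mem_sdiff]
  constructor
  · rintro ⟨h1, h2⟩
    exact ⟨h1, fun h => h2 ((dvd_mm (Nat.prime_of_mem_primeFactors h1)).2 h)⟩
  · rintro ⟨h1, h2⟩
    exact ⟨h1, fun h => h2 ((dvd_mm (Nat.prime_of_mem_primeFactors h1)).1 h)⟩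

lemma radp_pos (m n : ℕ) : 0 < radp m n :=
  Finset.prod_pos fun _ hp => (Nat.prime_of_mem_primeFactors (Finset.mem_filter.1 hp).1).pos

lemma radp_le {S : Finset ℕ} {n : ℤ} {R : ℝ} (hR : 1 ≤ R) (h : lg S n ≤ Real.log R) :
    (radp (mm S) n.natAbs : ℝ) ≤ R := by
  have h1 : Real.log (radp (mm S) n.natAbs) = lg S n := by
    rw [radp_eq, Nat.cast_prod, Real.log_prod]
    · rfl
    · intro p hp
      exact_mod_cast (Nat.prime_of_mem_primeFactors (Finset.mem_sdiff.1 hp).1).ne_zero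
  have h2 := radp_pos (mm S) n.natAbs
  rw [← h1] at h
  exact (Real.log_le_log_iff (by exact_mod_cast h2) (by linarith)).1 h

/-- a bound for the values -/
def UU (β : ℤ × ℤ) : ℕ := 1 + β.1.natAbs + β.2.natAbs

lemma Qf_le (β x : ℤ × ℤ) : (Qf β x).natAbs ≤ UU β * htn x ^ 2 := by
  have h1 : x.1.natAbs ≤ htn x := le_max_left _ _
  have h2 : x.2.natAbs ≤ htn x := le_max_right _ _
  have e : (Qf β x).natAbs ≤ x.1.natAbs ^ 2 + β.1.natAbs * x.1.natAbs * x.2.natAbs +
      β.2.natAbs * x.2.natAbs ^ 2 := by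
    unfold Qf
    refine (Int.natAbs_add_le _ _).trans ?_
    refine (Nat.add_le_add_right (Int.natAbs_add_le _ _) _).trans ?_
    rw [Int.natAbs_mul, Int.natAbs_mul, Int.natAbs_mul, Int.natAbs_pow, Int.natAbs_pow]
  refine e.trans ?_
  calc x.1.natAbs ^ 2 + β.1.natAbs * x.1.natAbs * x.2.natAbs + β.2.natAbs * x.2.natAbs ^ 2
      ≤ htn x ^ 2 + β.1.natAbs * htn x * htn x + β.2.natAbs * htn x ^ 2 := by gcongr
    _ = UU β * htn x ^ 2 := by unfold UU; ring

lemma root_le {b c : ℤ} {z : ℂ} (h : z ^ 2 + b * z + c = 0) :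
    ‖z‖ ≤ 1 + |(b : ℝ)| + |(c : ℝ)| := by
  by_cases hz : ‖z‖ ≤ 1
  · have := abs_nonneg (b : ℝ)
    have := abs_nonneg (c : ℝ)
    linarith
  · push Not at hz
    have h1 : z ^ 2 = -(b * z + c) := by linear_combination h
    have h2 : ‖z‖ ^ 2 ≤ |(b : ℝ)| * ‖z‖ + |(c : ℝ)| := by
      rw [← norm_pow, h1, norm_neg]
      refine (norm_add_le _ _).trans ?_
      rw [norm_mul]
      simp
    have hb := abs_nonneg (b : ℝ)
    have hc := abs_nonneg (c : ℝ)
    have h3 : ‖z‖ ^ 2 ≤ (|(b : ℝ)| + |(c : ℝ)|) * ‖z‖ := by nlinarith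
    have h4 : ‖z‖ ≤ |(b : ℝ)| + |(c : ℝ)| := by
      have h5 : ‖z‖ * ‖z‖ ≤ (|(b : ℝ)| + |(c : ℝ)|) * ‖z‖ := by nlinarith
      exact le_of_mul_le_mul_right h5 (by linarith)
    linarith

lemma irr_rat {b c : ℤ} (h : Irr (b, c)) (r : ℚ) : r ^ 2 + b * r + c ≠ 0 := by
  intro h0
  apply h
  have h1 : ((b ^ 2 - 4 * c : ℤ) : ℚ) = (2 * r + b) * (2 * r + b) := by
    push_cast
    linear_combination (-4) * h0
  have h2 : IsSquare ((b ^ 2 - 4 * c : ℤ) : ℚ) := ⟨_, h1⟩
  exact (Rat.isSquare_intCast_iff).1 h2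

section

variable {K : Type} [Field K] [NumberField K]

lemma rho_ne {b c : ℤ} (h : Irr (b, c)) {ρ : 𝓞 K} (hρ : ρ ^ 2 + b * ρ + c = 0) (u v : ℤ)
    (hv : v ≠ 0) : (u : 𝓞 K) - v * ρ ≠ 0 := by
  intro h0
  have hv' : (v : K) ≠ 0 := by exact_mod_cast hv
  have h1 : (u : K) - v * (ρ : K) = 0 := by
    have := congrArg (fun x : 𝓞 K => (x : K)) h0
    simpa using this
  have h2 : (ρ : K) ^ 2 + b * (ρ : K) + c = 0 := by
    have := congrArg (fun x : 𝓞 K => (x : K)) hρ
    simpa using this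
  have h3 : (ρ : K) = ((u / v : ℚ) : K) := by
    push_cast
    field_simp
    linear_combination -h1
  apply irr_rat h (u / v : ℚ)
  rw [h3] at h2
  exact_mod_cast h2

end

theorem main : S_QL := by
  classical
  intro β hβ S ε hε
  obtain ⟨b, c⟩ := β
  obtain ⟨K, i1, i2, ρ, hρ⟩ := exists_field b c
  set ε' : ℝ := ε / 5 with hε'
  have he : 0 < ε' := by positivity
  obtain ⟨C1, hC1, h1⟩ := Pool.Agent.W578.CF.t_DIVS K ε' he
  obtain ⟨C2, hC2, h2⟩ := Pool.Agent.W230.CF.t_TAU K 1 ε' one_pos he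
  obtain ⟨C3, hC3, h3⟩ := Pool.W335.CF.t_RAD ε' he
  set U : ℕ := UU (b, c) with hU
  have hU1 : 1 ≤ U := by
    rw [hU]
    unfold UU
    omega
  set V : ℝ := 2 + |(b : ℝ)| + |(c : ℝ)| with hV
  have hV1 : 1 ≤ V := by
    have := abs_nonneg (b : ℝ)
    have := abs_nonneg (c : ℝ)
    linarith
  have hm := mm_pos S
  set m := mm S with hmdef
  set tau : ℤ × ℤ → 𝓞 K := fun x => (x.1 : 𝓞 K) - x.2 * ρ with htau
  have hinj : Function.Injective tau := by
    intro x y hxy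
    have e1 : ((x.1 - y.1 : ℤ) : 𝓞 K) - ((x.2 - y.2 : ℤ) : 𝓞 K) * ρ = 0 := by
      simp only [htau] at hxy
      push_cast
      linear_combination hxy
    have e2 : x.2 - y.2 = 0 := by
      by_contra hcon
      exact rho_ne hβ hρ _ _ hcon e1
    rw [e2] at e1
    have e3 : x.1 - y.1 = 0 := by
      have : ((x.1 - y.1 : ℤ) : 𝓞 K) = 0 := by simpa using e1
      exact_mod_cast this
    exact Prod.ext (by omega) (by omega)
  have htau0 : tau (0, 0) = 0 := by simp [htau]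
  have hQ : ∀ x : ℤ × ℤ, ((Qf (b, c) x : ℤ) : 𝓞 K) = tau x * ((x.1 : 𝓞 K) + x.2 * b + x.2 * ρ) := by
    intro x
    simp only [htau, Qf]
    push_cast
    linear_combination ((x.2 : 𝓞 K) ^ 2) * hρ
  have hconj : ∀ x : ℤ × ℤ, ∀ Y : ℝ, (htn x : ℝ) ≤ Y → ∀ σ : K →+* ℂ, ‖σ (tau x : K)‖ ≤ V * Y := by
    intro x Y hx σ
    have e1 : (σ (ρ : K)) ^ 2 + b * σ (ρ : K) + c = 0 := by
      have := congrArg (fun x : 𝓞 K => σ (x : K)) hρ
      simpa using this
    have e2 := root_le e1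
    have e3 : σ (tau x : K) = (x.1 : ℂ) - x.2 * σ (ρ : K) := by
      simp [htau]
    have e4 : |(x.1 : ℝ)| ≤ Y := by
      refine le_trans ?_ hx
      have : x.1.natAbs ≤ htn x := le_max_left _ _
      rw [← Int.cast_abs, Int.abs_eq_natAbs]
      exact_mod_cast this
    have e5 : |(x.2 : ℝ)| ≤ Y := by
      refine le_trans ?_ hx
      have : x.2.natAbs ≤ htn x := le_max_right _ _
      rw [← Int.cast_abs, Int.abs_eq_natAbs]
      exact_mod_cast this
    have hY : 0 ≤ Y := (Nat.cast_nonneg _).trans hx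
    rw [e3]
    refine (norm_sub_le _ _).trans ?_
    rw [norm_mul, Complex.norm_intCast, Complex.norm_intCast]
    calc |(x.1 : ℝ)| + |(x.2 : ℝ)| * ‖σ (ρ : K)‖ ≤ Y + Y * (1 + |(b : ℝ)| + |(c : ℝ)|) := by
          gcongr
      _ = V * Y := by rw [hV]; ring
  -- points with a given value
  have hfib : ∀ (Y : ℝ) (n : ℕ), 1 ≤ Y → 1 ≤ n → ∀ F : Finset (ℤ × ℤ),
      (∀ x ∈ F, (htn x : ℝ) ≤ Y ∧ (Qf (b, c) x).natAbs = n) →
      (F.card : ℝ) ≤ (C1 * (n : ℝ) ^ ε') * (C2 * (V * Y) ^ ε') := by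
    intro Y n hY hn F hF
    have hne : ∀ x ∈ F, tau x ≠ 0 := by
      intro x hx h0
      have e1 := hQ x
      rw [h0, zero_mul] at e1
      have e2 : Qf (b, c) x = 0 := by exact_mod_cast e1
      have e3 := (hF x hx).2
      rw [e2] at e3
      simp at e3
      omega
    refine (card_le_real F (fun x => Ideal.span {tau x}) (C2 * (V * Y) ^ ε') ?_).trans ?_
    · intro I hI
      rw [Finset.mem_image] at hI
      obtain ⟨x0, hx0, rfl⟩ := hI
      have hI0 : Ideal.span {tau x0} ≠ ⊥ := by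
        rw [Ne, Ideal.span_singleton_eq_bot]
        exact hne x0 hx0
      have e1 := h2 (Ideal.span {tau x0}) hI0 (V * Y) (by nlinarith)
        ((F.filter (fun x => Ideal.span {tau x} = Ideal.span {tau x0})).image tau) ?_
      · rwa [Finset.card_image_of_injective _ hinj] at e1
      · intro t ht
        rw [Finset.mem_image] at ht
        obtain ⟨x, hx, rfl⟩ := ht
        rw [Finset.mem_filter] at hx
        refine ⟨?_, hne x hx.1, ?_, hconj x Y (hF x hx.1).1⟩
        · rw [← hx.2]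
          exact Ideal.mem_span_singleton_self _
        · rw [← hx.2, Ideal.absNorm_span_singleton, one_mul]
    · have hpos : 0 ≤ C2 * (V * Y) ^ ε' := by positivity
      refine mul_le_mul_of_nonneg_right ?_ hpos
      refine h1 n hn _ ?_
      intro J hJ
      rw [Finset.mem_image] at hJ
      obtain ⟨x, hx, rfl⟩ := hJ
      rw [Ideal.dvd_span_singleton, Ideal.mem_span_singleton]
      have e1 : tau x ∣ ((Qf (b, c) x : ℤ) : 𝓞 K) := ⟨_, hQ x⟩
      have e2 := (hF x hx).2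
      rcases Int.natAbs_eq (Qf (b, c) x) with h | h
      · rw [h, e2] at e1
        exact_mod_cast e1
      · rw [h, e2] at e1
        push_cast at e1
        exact (dvd_neg).1 e1
  refine ⟨1 + (C3 * ((m : ℝ) * U) ^ ε') * ((C1 * (U : ℝ) ^ ε') * (C2 * V ^ ε')), by positivity, ?_⟩
  intro Y R hY hR F hF
  -- nonzero points
  set F' := F.filter (fun x => x ≠ (0, 0)) with hF'
  have hcard : (F.card : ℝ) ≤ 1 + F'.card := by
    have e1 : F ⊆ insert (0, 0) F' := by
      intro x hx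
      rw [Finset.mem_insert, hF', Finset.mem_filter]
      by_cases h0 : x = (0, 0)
      · exact Or.inl h0
      · exact Or.inr ⟨hx, h0⟩
    have e2 := (Finset.card_le_card e1).trans (Finset.card_insert_le _ _)
    have e3 : F.card ≤ 1 + F'.card := by omega
    exact_mod_cast e3
  have hval : ∀ x ∈ F', 1 ≤ (Qf (b, c) x).natAbs := by
    intro x hx
    rw [hF', Finset.mem_filter] at hx
    by_contra hcon
    have e0 : Qf (b, c) x = 0 := by omega
    have e1 := hQ x
    rw [e0] at e1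
    have e2 : tau x * ((x.1 : 𝓞 K) + x.2 * b + x.2 * ρ) = 0 := by
      rw [← e1]
      simp
    have e3 : x.2 ≠ 0 ∨ x.1 ≠ 0 := by
      by_contra h
      push Not at h
      exact hx.2 (Prod.ext h.2 h.1)
    have e4 : tau x ≠ 0 := by
      intro h
      rw [← htau0] at h
      exact hx.2 (hinj h)
    rcases mul_eq_zero.1 e2 with h | h
    · exact e4 h
    · by_cases h0 : x.2 = 0
      · rw [h0] at h
        simp only [Int.cast_zero, zero_mul, add_zero] at h
        have : x.1 = 0 := by exact_mod_cast h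
        exact hx.2 (Prod.ext this h0)
      · have e5 : (((x.1 + x.2 * b : ℤ)) : 𝓞 K) - ((-x.2 : ℤ) : 𝓞 K) * ρ = 0 := by
          push_cast
          linear_combination h
        exact rho_ne hβ hρ _ _ (by omega) e5
  set N : ℕ := ⌊(U : ℝ) * Y ^ 2⌋₊ with hN
  have hN1 : 1 ≤ N := by
    rw [hN]
    apply Nat.le_floor
    have e1 : (1 : ℝ) ≤ U := by exact_mod_cast hU1
    have e2 : (1 : ℝ) ≤ Y ^ 2 := by nlinarith
    push_cast
    nlinarith
  have hNle : (N : ℝ) ≤ U * Y ^ 2 := Nat.floor_le (by positivity)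
  have hvalN : ∀ x ∈ F', (Qf (b, c) x).natAbs ≤ N := by
    intro x hx
    rw [hN]
    apply Nat.le_floor
    have e1 := Qf_le (b, c) x
    rw [hF', Finset.mem_filter] at hx
    have e2 := (hF x hx.1).1
    calc (((Qf (b, c) x).natAbs : ℕ) : ℝ) ≤ ((U * htn x ^ 2 : ℕ) : ℝ) := by exact_mod_cast e1
      _ = (U : ℝ) * (htn x : ℝ) ^ 2 := by push_cast; ring
      _ ≤ U * Y ^ 2 := by gcongr
  have hstep : (F'.card : ℝ) ≤ ((F'.image (fun x => (Qf (b, c) x).natAbs)).card : ℝ) *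
      ((C1 * (N : ℝ) ^ ε') * (C2 * (V * Y) ^ ε')) := by
    refine card_le_real F' (fun x => (Qf (b, c) x).natAbs) _ ?_
    intro n hn
    rw [Finset.mem_image] at hn
    obtain ⟨x0, hx0, rfl⟩ := hn
    refine (hfib Y _ hY (hval x0 hx0) _ ?_).trans ?_
    · intro x hx
      rw [Finset.mem_filter] at hx
      refine ⟨?_, hx.2⟩
      have := hx.1
      rw [hF', Finset.mem_filter] at this
      exact (hF x this.1).1
    · have e1 : (((Qf (b, c) x0).natAbs : ℕ) : ℝ) ≤ N := by exact_mod_cast hvalN x0 hx0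
      have e2 : (((Qf (b, c) x0).natAbs : ℕ) : ℝ) ^ ε' ≤ (N : ℝ) ^ ε' :=
        Real.rpow_le_rpow (Nat.cast_nonneg _) e1 he.le
      gcongr
  have himg : ((F'.image (fun x => (Qf (b, c) x).natAbs)).card : ℝ) ≤
      R * (C3 * ((m : ℝ) * N) ^ ε') := by
    have e1 : ((F'.image (fun x => (Qf (b, c) x).natAbs)).card : ℝ) ≤
        ∑ n ∈ F'.image (fun x => (Qf (b, c) x).natAbs), R * ((1 : ℝ) / (radp m n : ℝ)) := by
      rw [← nsmul_one, ← Finset.sum_const]
      refine Finset.sum_le_sum fun n hn => ?_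
      rw [Finset.mem_image] at hn
      obtain ⟨x0, hx0, rfl⟩ := hn
      rw [hF', Finset.mem_filter] at hx0
      have e2 := radp_le hR (hF x0 hx0.1).2
      have e3 : (0 : ℝ) < radp m (Qf (b, c) x0).natAbs := by exact_mod_cast radp_pos _ _
      rw [mul_one_div, le_div_iff₀ e3, one_mul]
      exact e2
    refine e1.trans ?_
    rw [← Finset.mul_sum]
    refine mul_le_mul_of_nonneg_left ?_ (by linarith)
    refine le_trans ?_ (h3 m N hm hN1)
    refine Finset.sum_le_sum_of_subset_of_nonneg ?_ fun n _ _ => by positivity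
    intro n hn
    rw [Finset.mem_image] at hn
    obtain ⟨x0, hx0, rfl⟩ := hn
    rw [Finset.mem_Icc]
    exact ⟨hval x0 hx0, hvalN x0 hx0⟩
  have hYpos : 0 < Y := by linarith
  have hm0 : (0 : ℝ) ≤ m := Nat.cast_nonneg _
  have hU0 : (0 : ℝ) ≤ U := Nat.cast_nonneg _
  have f1 : ((m : ℝ) * N) ^ ε' ≤ ((m : ℝ) * U) ^ ε' * Y ^ (2 * ε') := by
    calc ((m : ℝ) * N) ^ ε' ≤ ((m : ℝ) * U * Y ^ 2) ^ ε' := by
          apply Real.rpow_le_rpow (by positivity) _ he.le
          rw [mul_assoc]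
          gcongr
      _ = _ := by
          rw [Real.mul_rpow (by positivity) (by positivity), ← Real.rpow_natCast Y 2,
            ← Real.rpow_mul hYpos.le]
          norm_num
  have f2 : (N : ℝ) ^ ε' ≤ (U : ℝ) ^ ε' * Y ^ (2 * ε') := by
    calc (N : ℝ) ^ ε' ≤ ((U : ℝ) * Y ^ 2) ^ ε' :=
          Real.rpow_le_rpow (by positivity) hNle he.le
      _ = _ := by
          rw [Real.mul_rpow (by positivity) (by positivity), ← Real.rpow_natCast Y 2,
            ← Real.rpow_mul hYpos.le]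
          norm_num
  have f3 : (V * Y) ^ ε' = V ^ ε' * Y ^ ε' := Real.mul_rpow (by linarith) hYpos.le
  have f4 : Y ^ (2 * ε') * (Y ^ (2 * ε') * Y ^ ε') = Y ^ ε := by
    rw [← Real.rpow_add hYpos, ← Real.rpow_add hYpos]
    congr 1
    rw [hε']
    ring
  have f5 : 1 ≤ R * Y ^ ε := by
    have e1 : 1 ≤ Y ^ ε := Real.one_le_rpow hY hε.le
    nlinarith
  calc (F.card : ℝ) ≤ 1 + F'.card := hcard
    _ ≤ 1 + (R * (C3 * ((m : ℝ) * N) ^ ε')) * ((C1 * (N : ℝ) ^ ε') * (C2 * (V * Y) ^ ε')) := by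
        have hp : 0 ≤ (C1 * (N : ℝ) ^ ε') * (C2 * (V * Y) ^ ε') := by positivity
        have := hstep.trans (mul_le_mul_of_nonneg_right himg hp)
        linarith
    _ ≤ 1 + (R * (C3 * (((m : ℝ) * U) ^ ε' * Y ^ (2 * ε')))) *
          ((C1 * ((U : ℝ) ^ ε' * Y ^ (2 * ε'))) * (C2 * (V ^ ε' * Y ^ ε'))) := by
        rw [f3]
        gcongr
    _ = 1 + (C3 * ((m : ℝ) * U) ^ ε') * ((C1 * (U : ℝ) ^ ε') * (C2 * V ^ ε')) * (R *
          (Y ^ (2 * ε') * (Y ^ (2 * ε') * Y ^ ε'))) := by ring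
    _ ≤ R * Y ^ ε + (C3 * ((m : ℝ) * U) ^ ε') * ((C1 * (U : ℝ) ^ ε') * (C2 * V ^ ε')) * (R *
          (Y ^ (2 * ε') * (Y ^ (2 * ε') * Y ^ ε'))) := by gcongr
    _ = _ := by rw [f4]; ring

end Pool.Agent.L0h46.TQ.QL
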