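import Pool.Agent.L0h46.TQ.Defs

/-! The points of a box at which a quadratic form takes a small value. -/

set_option autoImplicit false

namespace Pool.Agent.L0h46.TQ.QN

open Pool.Agent.L0h46.TQ

theorem close {β : ℤ × ℤ} {M : ℝ} {y a b : ℤ} (ha : ((Qf β (a, y)).natAbs : ℝ) ≤ M)
    (hb : ((Qf β (b, y)).natAbs : ℝ) ≤ M)
    (hs : 0 ≤ (2 * a + β.1 * y) * (2 * b + β.1 * y)) :
    (a - b).natAbs ≤ ⌊Real.sqrt (2 * M)⌋₊ := by
  set t : ℤ := 2 * a + β.1 * y with ht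
  set s : ℤ := 2 * b + β.1 * y with hs'
  have h1 : (t - s) ^ 2 ≤ |t ^ 2 - s ^ 2| := by
    have e : t ^ 2 - s ^ 2 = (t - s) * (t + s) := by ring
    rw [e, abs_mul, ← sq_abs, sq]
    refine mul_le_mul_of_nonneg_left ?_ (abs_nonneg _)
    rw [← sq_le_sq]
    nlinarith
  have h2 : t ^ 2 - s ^ 2 = 4 * (Qf β (a, y) - Qf β (b, y)) := by
    simp only [Qf, ht, hs']; ring
  have h3 : ((a - b : ℤ) : ℝ) ^ 2 ≤ 2 * M := by
    have e : (t - s) ^ 2 = 4 * (a - b) ^ 2 := by simp only [ht, hs']; ring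
    rw [e, h2, abs_mul] at h1
    have h4 : ((a - b) ^ 2 : ℤ) ≤ |Qf β (a, y)| + |Qf β (b, y)| := by
      have := abs_sub (Qf β (a, y)) (Qf β (b, y))
      have h5 : |(4 : ℤ)| = 4 := by norm_num
      rw [h5] at h1
      linarith
    have h5 : (((a - b) ^ 2 : ℤ) : ℝ) ≤ ((|Qf β (a, y)| + |Qf β (b, y)| : ℤ) : ℝ) := by
      exact_mod_cast h4
    have ha' : ((|Qf β (a, y)| : ℤ) : ℝ) ≤ M := by
      rw [← Int.natCast_natAbs, Int.cast_natCast]; exact ha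
    have hb' : ((|Qf β (b, y)| : ℤ) : ℝ) ≤ M := by
      rw [← Int.natCast_natAbs, Int.cast_natCast]; exact hb
    push_cast at h5 ha' hb' ⊢
    linarith
  refine Nat.le_floor ?_
  have h6 : |((a - b : ℤ) : ℝ)| ≤ Real.sqrt (2 * M) := Real.abs_le_sqrt h3
  have h7 : (((a - b).natAbs : ℕ) : ℝ) = |((a - b : ℤ) : ℝ)| := by
    rw [← Int.cast_abs, ← Int.natCast_natAbs]; rfl
  rw [h7]; exact h6

theorem fib (β : ℤ × ℤ) (M : ℝ) (y : ℤ) : ∃ a b : ℤ, ∀ x : ℤ, ((Qf β (x, y)).natAbs : ℝ) ≤ M →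
    (x - a).natAbs ≤ ⌊Real.sqrt (2 * M)⌋₊ ∨ (x - b).natAbs ≤ ⌊Real.sqrt (2 * M)⌋₊ := by
  classical
  by_cases h1 : ∃ a : ℤ, ((Qf β (a, y)).natAbs : ℝ) ≤ M ∧ 0 ≤ 2 * a + β.1 * y
  · obtain ⟨a, ha, ha'⟩ := h1
    by_cases h2 : ∃ b : ℤ, ((Qf β (b, y)).natAbs : ℝ) ≤ M ∧ 2 * b + β.1 * y ≤ 0
    · obtain ⟨b, hb, hb'⟩ := h2
      refine ⟨a, b, fun x hx => ?_⟩
      rcases le_total 0 (2 * x + β.1 * y) with h | h
      · exact Or.inl (close hx ha (mul_nonneg h ha'))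
      · exact Or.inr (close hx hb (mul_nonneg_of_nonpos_of_nonpos h hb'))
    · refine ⟨a, a, fun x hx => ?_⟩
      rcases le_total 0 (2 * x + β.1 * y) with h | h
      · exact Or.inl (close hx ha (mul_nonneg h ha'))
      · exact absurd ⟨x, hx, h⟩ h2
  · by_cases h2 : ∃ b : ℤ, ((Qf β (b, y)).natAbs : ℝ) ≤ M ∧ 2 * b + β.1 * y ≤ 0
    · obtain ⟨b, hb, hb'⟩ := h2
      refine ⟨b, b, fun x hx => ?_⟩
      rcases le_total 0 (2 * x + β.1 * y) with h | h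
      · exact absurd ⟨x, hx, h⟩ h1
      · exact Or.inr (close hx hb (mul_nonneg_of_nonpos_of_nonpos h hb'))
    · refine ⟨0, 0, fun x hx => ?_⟩
      rcases le_total 0 (2 * x + β.1 * y) with h | h
      · exact absurd ⟨x, hx, h⟩ h1
      · exact absurd ⟨x, hx, h⟩ h2

theorem main : S_QN := by
  classical
  intro β
  refine ⟨24, by norm_num, fun H M hH hM => ?_⟩
  choose fa fb hf using fib β M
  set L : ℕ := ⌊Real.sqrt (2 * M)⌋₊ with hL
  set N : ℕ := ⌊H⌋₊ with hN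
  set F : Finset (ℤ × ℤ) := (Finset.Icc (-(N : ℤ)) N).biUnion fun y =>
    (Finset.Icc (fa y - L) (fa y + L) ∪ Finset.Icc (fb y - L) (fb y + L)).image
      fun x => (x, y) with hF
  have hsub : ({x : ℤ × ℤ | (htn x : ℝ) ≤ H ∧ ((Qf β x).natAbs : ℝ) ≤ M} : Set (ℤ × ℤ)) ⊆ ↑F := by
    rintro ⟨x, y⟩ ⟨h1, h2⟩
    have h3 : htn (x, y) ≤ N := Nat.le_floor h1
    have h4 : y.natAbs ≤ N := (le_max_right _ _).trans h3
    rw [Finset.mem_coe, hF, Finset.mem_biUnion]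
    refine ⟨y, Finset.mem_Icc.2 ⟨by omega, by omega⟩, Finset.mem_image.2 ⟨x, ?_, rfl⟩⟩
    rw [Finset.mem_union, Finset.mem_Icc, Finset.mem_Icc]
    rcases hf y x h2 with h | h
    · left; omega
    · right; omega
  have hcard : F.card ≤ (2 * N + 1) * (2 * (2 * L + 1)) := by
    rw [hF]
    refine (Finset.card_biUnion_le_card_mul _ _ (2 * (2 * L + 1)) fun y _ => ?_).trans ?_
    · refine Finset.card_image_le.trans ((Finset.card_union_le _ _).trans ?_)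
      rw [Int.card_Icc, Int.card_Icc]
      omega
    · rw [Int.card_Icc]
      refine Nat.mul_le_mul_right _ ?_
      omega
  refine ⟨F.finite_toSet.subset hsub, ?_⟩
  have h1 : ({x : ℤ × ℤ | (htn x : ℝ) ≤ H ∧ ((Qf β x).natAbs : ℝ) ≤ M} : Set (ℤ × ℤ)).ncard ≤
      (2 * N + 1) * (2 * (2 * L + 1)) := by
    refine (Set.ncard_le_ncard hsub F.finite_toSet).trans ?_
    rw [Set.ncard_coe_finset]; exact hcard
  have h2 : (({x : ℤ × ℤ | (htn x : ℝ) ≤ H ∧ ((Qf β x).natAbs : ℝ) ≤ M} : Set (ℤ × ℤ)).ncard : ℝ) ≤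
      (2 * N + 1) * (2 * (2 * L + 1)) := by exact_mod_cast h1
  refine h2.trans ?_
  rw [← Real.sqrt_eq_rpow]
  have hN' : (N : ℝ) ≤ H := Nat.floor_le (by linarith)
  have hL' : (L : ℝ) ≤ Real.sqrt (2 * M) := Nat.floor_le (Real.sqrt_nonneg _)
  have hs1 : 1 ≤ Real.sqrt M := by
    rw [show (1 : ℝ) = Real.sqrt 1 by simp]; exact Real.sqrt_le_sqrt hM
  have hs2 : Real.sqrt (2 * M) ≤ 3 / 2 * Real.sqrt M := by
    rw [Real.sqrt_mul (by norm_num)]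
    refine mul_le_mul_of_nonneg_right ?_ (Real.sqrt_nonneg _)
    rw [Real.sqrt_le_left (by norm_num)]; norm_num
  have h3 : (2 * N + 1 : ℝ) ≤ 3 * H := by linarith
  have h4 : (2 * (2 * L + 1) : ℝ) ≤ 8 * Real.sqrt M := by linarith
  calc ((2 * N + 1) * (2 * (2 * L + 1)) : ℝ) ≤ (3 * H) * (8 * Real.sqrt M) :=
        mul_le_mul h3 h4 (by positivity) (by linarith)
    _ = 24 * H * Real.sqrt M := by ring

end Pool.Agent.L0h46.TQ.QN
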