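import Pool.Agent.L0h46.TQ.Defs2
import Pool.Agent.N840.TP.Main

set_option autoImplicit false

namespace Pool.Agent.L0h46.TQ.TAL

theorem main : S_TAL := by
  intro ε hε
  obtain ⟨M, hM, h⟩ := Pool.Agent.N840.TP.tall ε hε
  exact ⟨M, hM, fun q hq α hα S A => h q hq α hα S A⟩

end Pool.Agent.L0h46.TQ.TAL
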