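import Pool.Agent.L0h46.TQ.Tools

/-!
# Project TQ, module U10: the curves with a point of order ten
-/

set_option autoImplicit false

namespace Pool.Agent.L0h46.TQ.U10

open Finset Pool.Agent.L0h46.TQ

theorem g10_Q1 (u v : ℤ) : g10 u v = (u ^ 2 - 3 * u * v + v ^ 2) *
    (u ^ 10 - 5 * u ^ 9 * v + 45 * u ^ 7 * v ^ 3 - 105 * u ^ 6 * v ^ 4 + 72 * u ^ 5 * v ^ 5 +
      65 * u ^ 4 * v ^ 6 - 165 * u ^ 3 * v ^ 7 + 160 * u ^ 2 * v ^ 8 - 75 * u * v ^ 9 +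
      31 * v ^ 10) + 5 * v ^ 11 * (8 * u - 3 * v) := by
  simp only [g10, g5]; ring

theorem g10_Q2 (u v : ℤ) : g10 u v = (4 * v ^ 2 - 2 * u * v - u ^ 2) *
    -(u ^ 10 - 10 * u ^ 9 * v + 40 * u ^ 8 * v ^ 2 - 80 * u ^ 7 * v ^ 3 + 80 * u ^ 6 * v ^ 4 -
      48 * u ^ 5 * v ^ 5 + 160 * u ^ 4 * v ^ 6 - 800 * u ^ 3 * v ^ 7 + 2960 * u ^ 2 * v ^ 8 -
      9840 * u * v ^ 9 + 31936 * v ^ 10) + 80 * v ^ 11 * (1597 * v - 1292 * u) := by
  simp only [g10, g5]; ring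

theorem g10_v (a b : ℤ) : g10 a b = b * (-8 * a ^ 11 + 16 * a ^ 10 * b + 40 * a ^ 9 * b ^ 2 -
    240 * a ^ 8 * b ^ 3 + 432 * a ^ 7 * b ^ 4 - 256 * a ^ 6 * b ^ 5 - 288 * a ^ 5 * b ^ 6 +
    720 * a ^ 4 * b ^ 7 - 720 * a ^ 3 * b ^ 8 + 416 * a ^ 2 * b ^ 9 - 128 * a * b ^ 10 +
    16 * b ^ 11) + a ^ 12 := by
  simp only [g10, g5]; ring

theorem g10_u (a b : ℤ) : g10 a b = a * (a ^ 11 - 8 * a ^ 10 * b + 16 * a ^ 9 * b ^ 2 +
    40 * a ^ 8 * b ^ 3 - 240 * a ^ 7 * b ^ 4 + 432 * a ^ 6 * b ^ 5 -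
    256 * a ^ 5 * b ^ 6 - 288 * a ^ 4 * b ^ 7 + 720 * a ^ 3 * b ^ 8 -
    720 * a ^ 2 * b ^ 9 + 416 * a * b ^ 10 - 128 * b ^ 11) + 2 ^ 4 * b ^ 12 := by
  simp only [g10, g5]; ring

theorem g10_w1 (w b : ℤ) : g10 (b + w) b = w * (-4 * b ^ 11 - 6 * b ^ 10 * w +
    20 * b ^ 9 * w ^ 2 + 15 * b ^ 8 * w ^ 3 - 24 * b ^ 7 * w ^ 4 - 4 * b ^ 6 * w ^ 5 +
    24 * b ^ 5 * w ^ 6 + 15 * b ^ 4 * w ^ 7 - 20 * b ^ 3 * w ^ 8 - 6 * b ^ 2 * w ^ 9 +
    4 * b * w ^ 10 + w ^ 11) + b ^ 12 := by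
  simp only [g10, g5]; ring

theorem g10_w2 (w b : ℤ) : g10 (2 * b + w) b = w * (64 * b ^ 11 + 64 * b ^ 10 * w -
    80 * b ^ 9 * w ^ 2 - 240 * b ^ 8 * w ^ 3 - 96 * b ^ 7 * w ^ 4 + 416 * b ^ 6 * w ^ 5 +
    816 * b ^ 5 * w ^ 6 + 720 * b ^ 4 * w ^ 7 + 360 * b ^ 3 * w ^ 8 + 104 * b ^ 2 * w ^ 9 +
    16 * b * w ^ 10 + w ^ 11) + 2 ^ 4 * b ^ 12 := by
  simp only [g10, g5]; ring

theorem dvd_rest {p g q c r : ℤ} (e : g = q * c + r) (hg : p ∣ g) (hq : p ∣ q) : p ∣ r := by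
  have : r = g - q * c := by rw [e]; ring
  rw [this]
  exact dvd_sub hg (hq.mul_right _)

/-- the primes dividing `c₄` and `Δ` -/
theorem bad {a b : ℤ} (hab : IsCoprime a b) {p : ℕ} (hp : p.Prime) (hg : (p : ℤ) ∣ g10 a b)
    (hh : (p : ℤ) ∣ h10 a b) : p = 2 ∨ p = 5 := by
  by_contra hcon
  push Not at hcon
  obtain ⟨h2, h5⟩ := hcon
  have hpi : Prime (p : ℤ) := Nat.prime_iff_prime_int.1 hp
  have n2 : ¬(p : ℤ) ∣ 2 := fun hd => h2 ((Nat.prime_dvd_prime_iff_eq hp Nat.prime_two).1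
    (by exact_mod_cast hd))
  have n5 : ¬(p : ℤ) ∣ 5 := fun hd => h5 ((Nat.prime_dvd_prime_iff_eq hp Nat.prime_five).1
    (by exact_mod_cast hd))
  have nb : ¬(p : ℤ) ∣ b := fun h =>
    hpi.not_isUnit (hab.isUnit_of_dvd' (hpi.dvd_of_dvd_pow (dvd_rest (g10_v a b) hg h)) h)
  have npow : ∀ n : ℕ, ¬(p : ℤ) ∣ b ^ n := fun n h => nb (hpi.dvd_of_dvd_pow h)
  have npow2 : ∀ n : ℕ, ¬(p : ℤ) ∣ 2 ^ 4 * b ^ n := fun n h => by
    rcases hpi.dvd_mul.1 h with h | h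
    · exact n2 (hpi.dvd_of_dvd_pow h)
    · exact npow n h
  have fin1 : (p : ℤ) ∣ 8 * a - 3 * b → (p : ℤ) ∣ a ^ 2 - 3 * a * b + b ^ 2 → False :=
      fun h1 h2 => by
    refine npow 2 ?_
    have e : b ^ 2 = 64 * (a ^ 2 - 3 * a * b + b ^ 2) - (8 * a - 21 * b) * (8 * a - 3 * b) := by ring
    rw [e]
    exact dvd_sub (h2.mul_left _) (h1.mul_left _)
  have fin2 : (p : ℤ) ∣ 1597 * b - 1292 * a → (p : ℤ) ∣ 4 * b ^ 2 - 2 * a * b - a ^ 2 → False :=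
      fun h1 h2 => by
    refine npow 2 ?_
    have e : b ^ 2 = -1292 ^ 2 * (4 * b ^ 2 - 2 * a * b - a ^ 2) +
        (1292 * a + (2 * 1292 + 1597) * b) * (1597 * b - 1292 * a) := by ring
    rw [e]
    exact dvd_add (h2.mul_left _) (h1.mul_left _)
  unfold h10 at hh
  rcases hpi.dvd_mul.1 hh with hh | hh
  · rcases hpi.dvd_mul.1 hh with hh | hh
    · rcases hpi.dvd_mul.1 hh with hh | hh
      · rcases hpi.dvd_mul.1 hh with hh | hh
        · rcases hpi.dvd_mul.1 hh with hh | hh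
          · exact npow 10 hh
          · exact npow2 _ (dvd_rest (g10_u a b) hg (hpi.dvd_of_dvd_pow hh))
        · have h := hpi.dvd_of_dvd_pow hh
          have e : g10 a b = g10 (b + (a - b)) b := by rw [show b + (a - b) = a by ring]
          exact npow _ (dvd_rest (e.trans (g10_w1 (a - b) b)) hg h)
      · have h := hpi.dvd_of_dvd_pow hh
        have h' : (p : ℤ) ∣ a - 2 * b := by
          rw [← dvd_neg, neg_sub]; exact h
        have e : g10 a b = g10 (2 * b + (a - 2 * b)) b := by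
          rw [show 2 * b + (a - 2 * b) = a by ring]
        exact npow2 _ (dvd_rest (e.trans (g10_w2 (a - 2 * b) b)) hg h')
    · have h := hpi.dvd_of_dvd_pow hh
      have h' := dvd_rest (g10_Q1 a b) hg h
      rcases hpi.dvd_mul.1 h' with h' | h'
      · rcases hpi.dvd_mul.1 h' with h' | h'
        · exact n5 h'
        · exact npow _ h'
      · exact fin1 h' h
  · have h' := dvd_rest (g10_Q2 a b) hg hh
    rcases hpi.dvd_mul.1 h' with h' | h'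
    · rcases hpi.dvd_mul.1 h' with h' | h'
      · rw [show (80 : ℤ) = 2 ^ 4 * 5 by norm_num] at h'
        rcases hpi.dvd_mul.1 h' with h' | h'
        · exact n2 (hpi.dvd_of_dvd_pow h')
        · exact n5 h'
      · exact npow _ h'
    · exact fin2 h' hh

theorem g10_mod {n : ℤ} {a b c d : ℤ} (h1 : a ≡ c [ZMOD n]) (h2 : b ≡ d [ZMOD n]) :
    g10 a b ≡ g10 c d [ZMOD n] := by
  have hL : a ^ 3 - 2 * b * a ^ 2 + 2 * b ^ 2 * a - 2 * b ^ 3 ≡
      c ^ 3 - 2 * d * c ^ 2 + 2 * d ^ 2 * c - 2 * d ^ 3 [ZMOD n] :=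
    (((h1.pow 3).sub ((h2.mul_left 2).mul (h1.pow 2))).add (((h2.pow 2).mul_left 2).mul h1)).sub
      ((h2.pow 3).mul_left 2)
  have hM : a ^ 3 - 2 * b * a ^ 2 + 2 * b ^ 3 ≡ c ^ 3 - 2 * d * c ^ 2 + 2 * d ^ 3 [ZMOD n] :=
    ((h1.pow 3).sub ((h2.mul_left 2).mul (h1.pow 2))).add ((h2.pow 3).mul_left 2)
  unfold g10 g5
  exact ((((hL.pow 4).sub (((hL.pow 3).mul_left 3).mul hM)).sub ((hL.pow 2).mul (hM.pow 2))).add
    ((hL.mul_left 3).mul (hM.pow 3))).add (hM.pow 4)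

/-- `25` does not divide `c₄` -/
theorem not25 {a b : ℤ} (hab : IsCoprime a b) : ¬ (25 : ℤ) ∣ g10 a b := by
  intro h
  have key : ∀ c ∈ Finset.range 25, ∀ d ∈ Finset.range 25,
      g10 (c : ℤ) (d : ℤ) % 25 = 0 → c % 5 = 0 ∧ d % 5 = 0 := by
    decide +kernel
  have ha0 : 0 ≤ a % 25 := Int.emod_nonneg _ (by norm_num)
  have ha1 : a % 25 < 25 := Int.emod_lt_of_pos _ (by norm_num)
  have hb0 : 0 ≤ b % 25 := Int.emod_nonneg _ (by norm_num)
  have hb1 : b % 25 < 25 := Int.emod_lt_of_pos _ (by norm_num)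
  have e1 : ((a % 25).toNat : ℤ) = a % 25 := Int.toNat_of_nonneg ha0
  have e2 : ((b % 25).toNat : ℤ) = b % 25 := Int.toNat_of_nonneg hb0
  have h1 := key (a % 25).toNat (Finset.mem_range.2 (by omega)) (b % 25).toNat
    (Finset.mem_range.2 (by omega)) (by
      rw [e1, e2]
      have := (g10_mod (Int.mod_modEq a 25) (Int.mod_modEq b 25))
      have h3 : g10 (a % 25) (b % 25) % 25 = g10 a b % 25 := this
      rw [h3]
      exact Int.emod_eq_zero_of_dvd h)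
  have h5 : (5 : ℤ) ∣ a := by omega
  have h6 : (5 : ℤ) ∣ b := by omega
  have := hab.isUnit_of_dvd' h5 h6
  exact absurd this (by decide)

/-- `32` does not divide `c₄` -/
theorem not32 {a b : ℤ} (hab : IsCoprime a b) : ¬ (32 : ℤ) ∣ g10 a b := by
  intro h
  have key : ∀ c ∈ Finset.range 32, ∀ d ∈ Finset.range 32,
      g10 (c : ℤ) (d : ℤ) % 32 = 0 → c % 2 = 0 ∧ d % 2 = 0 := by
    decide +kernel
  have ha0 : 0 ≤ a % 32 := Int.emod_nonneg _ (by norm_num)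
  have ha1 : a % 32 < 32 := Int.emod_lt_of_pos _ (by norm_num)
  have hb0 : 0 ≤ b % 32 := Int.emod_nonneg _ (by norm_num)
  have hb1 : b % 32 < 32 := Int.emod_lt_of_pos _ (by norm_num)
  have e1 : ((a % 32).toNat : ℤ) = a % 32 := Int.toNat_of_nonneg ha0
  have e2 : ((b % 32).toNat : ℤ) = b % 32 := Int.toNat_of_nonneg hb0
  have h1 := key (a % 32).toNat (Finset.mem_range.2 (by omega)) (b % 32).toNat
    (Finset.mem_range.2 (by omega)) (by
      rw [e1, e2]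
      have := (g10_mod (Int.mod_modEq a 32) (Int.mod_modEq b 32))
      have h3 : g10 (a % 32) (b % 32) % 32 = g10 a b % 32 := this
      rw [h3]
      exact Int.emod_eq_zero_of_dvd h)
  have h5 : (2 : ℤ) ∣ a := by omega
  have h6 : (2 : ℤ) ∣ b := by omega
  have := hab.isUnit_of_dvd' h5 h6
  exact absurd this (by decide)

theorem FF_eq (a b : ℤ) : FF α10 β10 e10 f10 (a, b) = (h10 a b).natAbs := by
  unfold FF
  rw [Fin.prod_univ_four, Fin.prod_univ_two]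
  simp only [α10, β10, e10, f10, Lf, Qf, Matrix.cons_val_zero, Matrix.cons_val_one,
    Matrix.cons_val, mul_one, mul_zero, sub_zero, zero_sub]
  simp only [← Int.natAbs_pow, ← Int.natAbs_mul]
  rw [Int.natAbs_eq_natAbs_iff]
  unfold h10
  left
  ring

theorem int10 {c D : ℤ} (hcop : IsCoprime c D) (hD : D ≠ 0) (u v l : ℚ)
    (hc : (c : ℚ) = l ^ 4 * g10 u v) (hd : (D : ℚ) = l ^ 12 * h10 u v) :
    ∃ (a b : ℤ) (t : ℕ), IsCoprime a b ∧ 0 < b ∧ (t = 1 ∨ t = 2) ∧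
      (t : ℤ) ^ 4 * c = g10 a b ∧ (t : ℤ) ^ 12 * D = h10 a b := by
  have hv : v ≠ 0 := by
    rintro rfl
    apply hD
    have : (D : ℚ) = 0 := by rw [hd]; simp [h10]
    exact_mod_cast this
  obtain ⟨q, a, b, hq, hab, hb, rfl, rfl⟩ := Pool.Agent.Y680.T.cop2 u v hv
  obtain ⟨t, ht, e1, e2⟩ := scaleK c D (g10 a b) (h10 a b) 1 (fun p hp h => by
      have h1 := Nat.le_of_dvd one_pos h
      have h2 : 2 ^ 12 ≤ p ^ 12 := Nat.pow_le_pow_left hp.two_le 12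
      omega) hcop (l * q ^ 3) (by
        rw [hc]
        simp only [g10, g5]
        push_cast
        ring) (by
        rw [hd]
        simp only [h10]
        push_cast
        ring)
  rw [Nat.cast_one, one_mul] at e2
  refine ⟨a, b, t, hab, hb, ?_, e1, e2⟩
  refine Pool.Agent.Y680.T.t_two ht (fun p hp hpt => ?_) fun h4 => ?_
  · have hpt' : (p : ℤ) ∣ (t : ℤ) := by exact_mod_cast hpt
    rcases bad hab hp (e1 ▸ (dvd_pow hpt' (by norm_num)).mul_right _)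
      (e2 ▸ (dvd_pow hpt' (by norm_num)).mul_right _) with h | h
    · exact h
    · exfalso
      subst h
      refine not25 hab ?_
      rw [← e1]
      refine Dvd.dvd.mul_right ?_ _
      have h1 : ((5 : ℕ) : ℤ) ^ 4 ∣ (t : ℤ) ^ 4 := pow_dvd_pow_of_dvd hpt' 4
      exact (by norm_num : (25 : ℤ) ∣ ((5 : ℕ) : ℤ) ^ 4).trans h1
  · refine not32 hab ?_
    rw [← e1]
    refine Dvd.dvd.mul_right ?_ _
    have h1 : ((4 : ℕ) : ℤ) ^ 4 ∣ (t : ℤ) ^ 4 := pow_dvd_pow_of_dvd (by exact_mod_cast h4) 4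
    exact (by norm_num : (32 : ℤ) ∣ ((4 : ℕ) : ℤ) ^ 4).trans h1

theorem main (h : S_P10) : S_U10 := by
  classical
  refine ⟨4096, 4, fun x => RR (g10 x.1 x.2) (h10 x.1 x.2) ∪
    RR (g10 x.1 x.2 / 16) (h10 x.1 x.2 / 4096), fun x => ?_, ?_⟩
  · exact (Finset.card_union_le _ _).trans (by
      have := RR_card (g10 x.1 x.2) (h10 x.1 x.2)
      have := RR_card (g10 x.1 x.2 / 16) (h10 x.1 x.2 / 4096)
      omega)
  rintro W ⟨⟨hD, hcop⟩, hT⟩
  obtain ⟨u, v, l, hl, hc, hd⟩ := h W hD hT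
  obtain ⟨a, b, t, hab, hb, ht, e1, e2⟩ := int10 hcop hD u v l hc hd
  have ht0 : (t : ℤ) ≠ 0 := by rcases ht with rfl | rfl <;> norm_num
  have hh : h10 a b ≠ 0 := by
    rw [← e2]
    exact mul_ne_zero (pow_ne_zero _ ht0) hD
  refine ⟨hD, (a, b), ⟨hab, Or.inl hb⟩, ?_, ⟨t ^ 12, ?_, ?_, ?_, ?_⟩, ?_⟩
  · intro i hi
    apply hh
    unfold h10
    fin_cases i
    · have : a = 0 := by simpa [Lf, α10] using hi
      rw [this]; ring
    · have : b = 0 := by simpa [Lf, α10] using hi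
      rw [this]; ring
    · have : a - b = 0 := by simpa [Lf, α10] using hi
      rw [this]; ring
    · have : a - b * 2 = 0 := by simpa [Lf, α10] using hi
      rw [show 2 * b - a = 0 by linarith]; ring
  · rcases ht with rfl | rfl <;> norm_num
  · rcases ht with rfl | rfl <;> norm_num
  · intro p hp hpt
    have hpt' := hp.dvd_of_dvd_pow hpt
    rcases ht with rfl | rfl
    · exact absurd (Nat.dvd_one.1 hpt') hp.one_lt.ne'
    · rw [(Nat.prime_dvd_prime_iff_eq hp Nat.prime_two).1 hpt']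
      decide
  · rw [FF_eq, ← e2, Int.natAbs_mul, Int.natAbs_pow]
    simp
  · rw [Finset.mem_union]
    rcases ht with rfl | rfl
    · left
      refine mem_RR W ?_ ?_
      · rw [← e1]; simp
      · rw [← e2]; simp
    · right
      refine mem_RR W ?_ ?_
      · rw [← e1]
        push_cast
        omega
      · rw [← e2]
        push_cast
        omega

end Pool.Agent.L0h46.TQ.U10
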