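import Pool.Agent.L0h46.TQ.UpG

/-!
# TQ, module U12
-/

set_option autoImplicit false

open WeierstrassCurve

namespace Pool.Agent.L0h46.TQ.U12

/-- the parameter `G` -/
def G (x : ℤ × ℤ) : ℤ := 16 * x.2 ^ 6 * x.1 ^ 2

/-- the parameter `T` -/
def T (x : ℤ × ℤ) : ℤ := (x.1 ^ 2 - x.2 ^ 2) ^ 3 * (x.1 ^ 2 + 3 * x.2 ^ 2)

/-- `c₄` -/
def g (x : ℤ × ℤ) : ℤ := gGT (G x) (T x)

/-- `Δ` -/
def h (x : ℤ × ℤ) : ℤ := T x ^ 4 * (x.2 ^ 6 * x.1 ^ 2) * (G x - T x)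

lemma hFF (x : ℤ × ℤ) : (h x).natAbs = FF α4 β12 e12 f12 x := by
  have : h x = -(x.1 ^ 2 * (-x.2) ^ 6 * (x.1 - x.2) ^ 12 * (x.1 + x.2) ^ 12 *
      ((x.1 ^ 2 + 0 * x.1 * x.2 + 1 * x.2 ^ 2) ^ 3 * (x.1 ^ 2 + 0 * x.1 * x.2 + 3 * x.2 ^ 2) ^ 4 *
        (x.1 ^ 2 + 0 * x.1 * x.2 + -3 * x.2 ^ 2) ^ 1)) := by
    unfold h G T
    ring
  rw [this, Int.natAbs_neg]
  simp only [FF, Fin.prod_univ_four, Fin.prod_univ_three, Lf, Qf, α4, β12, e12, f12,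
    Matrix.cons_val_zero, Matrix.cons_val_one, Matrix.cons_val, Int.natAbs_mul, Int.natAbs_pow]
  congr 5 <;> ring_nf

theorem main (hP12 : S_P12) : S_U12 := by
  refine up_of g h 1 (by norm_num) ?_ (by decide) (by decide) hFF ?_
  · intro p hp hpd
    exact absurd hpd (by rw [Nat.dvd_one]; exact hp.one_lt.ne')
  · rintro W ⟨⟨hD, hcop⟩, hT⟩
    refine ⟨hD, ?_⟩
    obtain ⟨u, v, l, hl, hc, hd⟩ := hP12 W hD hT
    have hv : v ≠ 0 := by
      rintro rfl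
      apply hD
      have : 16 * (W.Δ : ℚ) = 0 := by
        rw [hd, hGT]
        ring
      have : (W.Δ : ℚ) = 0 := by linarith
      exact_mod_cast this
    obtain ⟨q, a, b, hq, hab, hb, rfl, rfl⟩ := Pool.Agent.Y680.T.cop2 u v hv
    have hg1 : (W.c₄ : ℚ) = (l * q ^ 4) ^ 4 * (g (a, b) : ℤ) := by
      rw [hc]
      simp only [g, gGT, G, T]
      push_cast
      ring
    have hh1 : ((1 : ℕ) : ℚ) * (W.Δ : ℚ) = (l * q ^ 4) ^ 12 * (h (a, b) : ℤ) := by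
      have e : (W.Δ : ℚ) = (16 * (W.Δ : ℚ)) / 16 := by ring
      rw [e, hd]
      simp only [h, hGT, G, T]
      push_cast
      ring
    obtain ⟨t, ht, e1, e2⟩ := scaleK W.c₄ W.Δ (g (a, b)) (h (a, b)) 1 (by
      intro p hp hpd
      have h1 := Nat.le_of_dvd (by norm_num) hpd
      have h2 : 2 ^ 12 ≤ p ^ 12 := Nat.pow_le_pow_left hp.two_le 12
      omega) hcop (l * q ^ 4) hg1 hh1
    have hgT : g (a, b) = gGT (16 * b ^ 6 * a ^ 2) ((a ^ 2 - b ^ 2) ^ 3 * (a ^ 2 + 3 * b ^ 2)) := rfl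
    have hpr : ∀ p : ℕ, p.Prime → p ∣ t → p = 2 := by
      intro p hp hpt
      have hpt' : (p : ℤ) ∣ (t : ℤ) := by exact_mod_cast hpt
      have hg : (p : ℤ) ^ 4 ∣ g (a, b) := by
        rw [← e1]
        exact (pow_dvd_pow_of_dvd hpt' 4).mul_right _
      have hg' : (p : ℤ) ∣ g (a, b) := (dvd_pow_self _ (by norm_num)).trans hg
      have hh : (p : ℤ) ∣ h (a, b) := by
        rw [← e2]
        exact (((dvd_pow hpt' (by norm_num)).mul_left _)).mul_right _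
      have hpi : Prime (p : ℤ) := Nat.prime_iff_prime_int.1 hp
      have hcon : (p : ℤ) ∣ a → (p : ℤ) ∣ b → False := fun h1 h2 =>
        hpi.not_isUnit (hab.isUnit_of_dvd' h1 h2)
      have h1 : (p : ℤ) ∣ (a ^ 2 - b ^ 2) ^ 3 * (a ^ 2 + 3 * b ^ 2) ∧
          ((p : ℤ) ∣ 2 ∨ (p : ℤ) ∣ 16 * b ^ 6 * a ^ 2) := by
        refine gGT_prime hpi hg' ?_
        have h2 : (p : ℤ) ∣ ((a ^ 2 - b ^ 2) ^ 3 * (a ^ 2 + 3 * b ^ 2)) ^ 4 * (b ^ 6 * a ^ 2) *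
          (16 * b ^ 6 * a ^ 2 - (a ^ 2 - b ^ 2) ^ 3 * (a ^ 2 + 3 * b ^ 2)) := hh
        rcases hpi.dvd_mul.1 h2 with h3 | h3
        · rcases hpi.dvd_mul.1 h3 with h4 | h4
          · exact Or.inl (hpi.dvd_of_dvd_pow h4)
          · right; left
            have : 16 * b ^ 6 * a ^ 2 = 16 * (b ^ 6 * a ^ 2) := by ring
            rw [this]
            exact h4.mul_left _
        · exact Or.inr (Or.inr h3)
      by_contra hp2
      have h22 : ¬ (p : ℤ) ∣ 2 := by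
        intro h
        have h4 : p ∣ 2 := by exact_mod_cast h
        exact hp2 ((Nat.prime_dvd_prime_iff_eq hp Nat.prime_two).1 h4)
      have h2 := h1.2.resolve_left h22
      have hb' : ¬ (p : ℤ) ∣ b := by
        intro hb'
        refine hcon (hpi.dvd_of_dvd_pow (n := 8) ?_) hb'
        have : a ^ 8 = (a ^ 2 - b ^ 2) ^ 3 * (a ^ 2 + 3 * b ^ 2) -
            b * (-6 * a ^ 4 * b ^ 3 + 8 * a ^ 2 * b ^ 5 - 3 * b ^ 7) := by ring
        rw [this]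
        exact dvd_sub h1.1 (hb'.mul_right _)
      have ha : (p : ℤ) ∣ a := by
        rcases hpi.dvd_mul.1 h2 with h3 | h3
        · exfalso
          rcases hpi.dvd_mul.1 h3 with h4 | h4
          · exact h22 (hpi.dvd_of_dvd_pow (n := 4) (by simpa using h4))
          · exact hb' (hpi.dvd_of_dvd_pow h4)
        · exact hpi.dvd_of_dvd_pow h3
      have h3 : (p : ℤ) ∣ 3 := by
        have h4 : (p : ℤ) ∣ 3 * b ^ 8 := by
          have : 3 * b ^ 8 = a * (a ^ 7 - 6 * a ^ 3 * b ^ 4 + 8 * a * b ^ 6) -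
              (a ^ 2 - b ^ 2) ^ 3 * (a ^ 2 + 3 * b ^ 2) := by ring
          rw [this]
          exact dvd_sub (ha.mul_right _) h1.1
        exact (hpi.dvd_mul.1 h4).resolve_right fun h5 => hb' (hpi.dvd_of_dvd_pow h5)
      have hp3 : p = 3 := (Nat.prime_dvd_prime_iff_eq hp Nat.prime_three).1 (by exact_mod_cast h3)
      subst hp3
      obtain ⟨a', rfl⟩ := ha
      obtain ⟨z, hz⟩ := hg
      have hF : (3 : ℤ) ∣ ((9 * a' ^ 2 - b ^ 2) ^ 3 * (3 * a' ^ 2 + b ^ 2)) ^ 2 := by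
        have h5 : 9 * (((9 * a' ^ 2 - b ^ 2) ^ 3 * (3 * a' ^ 2 + b ^ 2)) ^ 2) =
            9 * (3 * (3 * z - 12288 * (b ^ 6 * a' ^ 2) ^ 2 + 256 * (b ^ 6 * a' ^ 2) *
              ((9 * a' ^ 2 - b ^ 2) ^ 3 * (3 * a' ^ 2 + b ^ 2)))) := by
          rw [hgT, gGT] at hz
          push_cast at hz
          linear_combination hz
        exact ⟨_, mul_left_cancel₀ (by norm_num) h5⟩
      have h6 := Int.prime_three.dvd_of_dvd_pow hF
      apply hb'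
      rcases Int.prime_three.dvd_mul.1 h6 with h7 | h7
      · have h8 := Int.prime_three.dvd_of_dvd_pow h7
        apply Int.prime_three.dvd_of_dvd_pow (n := 2)
        have : b ^ 2 = 3 * (3 * a' ^ 2) - (9 * a' ^ 2 - b ^ 2) := by ring
        rw [this]
        exact dvd_sub (dvd_mul_right _ _) h8
      · apply Int.prime_three.dvd_of_dvd_pow (n := 2)
        have : b ^ 2 = (3 * a' ^ 2 + b ^ 2) - 3 * a' ^ 2 := by ring
        rw [this]
        exact dvd_sub h7 (dvd_mul_right _ _)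
    refine ⟨(a, b), ⟨hab, Or.inl hb⟩, t, ht, hpr, e1, e2, ?_⟩
    intro h6
    have h2g : (2 : ℤ) ∣ g (a, b) := (by norm_num : (2 : ℤ) ∣ 65536).trans h6
    have h2T : (2 : ℤ) ∣ a ^ 2 - b ^ 2 := by
      have h7 : (2 : ℤ) ∣ ((a ^ 2 - b ^ 2) ^ 3 * (a ^ 2 + 3 * b ^ 2)) ^ 2 := by
        have : ((a ^ 2 - b ^ 2) ^ 3 * (a ^ 2 + 3 * b ^ 2)) ^ 2 = g (a, b) -
            2 * (8 * (16 * b ^ 6 * a ^ 2) ^ 2 - 8 * (16 * b ^ 6 * a ^ 2) *
              ((a ^ 2 - b ^ 2) ^ 3 * (a ^ 2 + 3 * b ^ 2))) := by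
          rw [hgT, gGT]
          ring
        rw [this]
        exact dvd_sub h2g (dvd_mul_right _ _)
      rcases Int.prime_two.dvd_mul.1 (Int.prime_two.dvd_of_dvd_pow h7) with h8 | h8
      · exact Int.prime_two.dvd_of_dvd_pow h8
      · have : a ^ 2 - b ^ 2 = (a ^ 2 + 3 * b ^ 2) - 2 * (2 * b ^ 2) := by ring
        rw [this]
        exact dvd_sub h8 (dvd_mul_right _ _)
    obtain ⟨ha1, hb1⟩ := odd_of hab h2T
    obtain ⟨k, hk⟩ := eight_dvd ha1 hb1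
    obtain ⟨z, hz⟩ := h6
    have hs : a ^ 2 + 3 * b ^ 2 = 4 * (2 * k + b ^ 2) := by linear_combination hk
    have h8 : 4096 * (b ^ 6 * a ^ 2) ^ 2 - 524288 * ((b ^ 6 * a ^ 2) * (k ^ 3 * (2 * k + b ^ 2))) +
        4194304 * (k ^ 3 * (2 * k + b ^ 2)) ^ 2 = 65536 * z := by
      rw [← hz, hgT, gGT, hk, hs]
      ring
    have h9 : (b ^ 6 * a ^ 2) ^ 2 % 2 = 1 := by
      rw [← Int.odd_iff]
      exact (((Int.odd_iff.2 hb1).pow).mul ((Int.odd_iff.2 ha1).pow)).pow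
    generalize (b ^ 6 * a ^ 2) ^ 2 = X at h8 h9
    generalize (b ^ 6 * a ^ 2) * (k ^ 3 * (2 * k + b ^ 2)) = Y at h8
    generalize (k ^ 3 * (2 * k + b ^ 2)) ^ 2 = Z at h8
    omega

end Pool.Agent.L0h46.TQ.U12
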