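import Pool.Agent.L0h46.TQ.UpG

/-!
# TQ, module U28
-/

set_option autoImplicit false

open WeierstrassCurve

namespace Pool.Agent.L0h46.TQ.U28

/-- `c₄` -/
def g (x : ℤ × ℤ) : ℤ := (16 * x.1 ^ 4 * x.2 ^ 4) ^ 2 -
  (16 * x.1 ^ 4 * x.2 ^ 4) * (x.1 ^ 2 - x.2 ^ 2) ^ 4 + ((x.1 ^ 2 - x.2 ^ 2) ^ 4) ^ 2

/-- `Δ` -/
def h (x : ℤ × ℤ) : ℤ := ((x.1 ^ 4 * x.2 ^ 4) * (x.1 ^ 2 - x.2 ^ 2) ^ 4 *
  (16 * x.1 ^ 4 * x.2 ^ 4 - (x.1 ^ 2 - x.2 ^ 2) ^ 4)) ^ 2

lemma hFF (x : ℤ × ℤ) : (h x).natAbs = FF α4 β28 e28 f28 x := by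
  have : h x = (x.1 ^ 8 * (-x.2) ^ 8 * (x.1 - x.2) ^ 8 * (x.1 + x.2) ^ 8 *
      ((x.1 ^ 2 + 0 * x.1 * x.2 + 1 * x.2 ^ 2) ^ 4 * (x.1 ^ 2 + 2 * x.1 * x.2 + -1 * x.2 ^ 2) ^ 2 *
        (x.1 ^ 2 + -2 * x.1 * x.2 + -1 * x.2 ^ 2) ^ 2)) := by
    unfold h
    ring
  rw [this]
  simp only [FF, Fin.prod_univ_four, Fin.prod_univ_three, Lf, Qf, α4, β28, e28, f28,
    Matrix.cons_val_zero, Matrix.cons_val_one, Matrix.cons_val, Int.natAbs_mul, Int.natAbs_pow]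
  congr 5 <;> ring_nf

theorem main (hP28 : S_P28) : S_U28 := by
  refine up_of g h 1 (by norm_num) ?_ (by decide) (by decide) hFF ?_
  · intro p hp hpd
    exact absurd hpd (by rw [Nat.dvd_one]; exact hp.one_lt.ne')
  · rintro W ⟨⟨hD, hcop⟩, hT⟩
    refine ⟨hD, ?_⟩
    obtain ⟨u, v, l, hl, hc, hd⟩ := hP28 W hD hT
    have hv : v ≠ 0 := by
      rintro rfl
      apply hD
      have : 256 * (W.Δ : ℚ) = 0 := by
        rw [hd]
        ring
      have : (W.Δ : ℚ) = 0 := by linarith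
      exact_mod_cast this
    obtain ⟨q, a, b, hq, hab, hb, rfl, rfl⟩ := Pool.Agent.Y680.T.cop2 u v hv
    have hg1 : (W.c₄ : ℚ) = (l * q ^ 4) ^ 4 * (g (a, b) : ℤ) := by
      rw [hc]
      simp only [g]
      push_cast
      ring
    have hh1 : ((1 : ℕ) : ℚ) * (W.Δ : ℚ) = (l * q ^ 4) ^ 12 * (h (a, b) : ℤ) := by
      have e : (W.Δ : ℚ) = (256 * (W.Δ : ℚ)) / 256 := by ring
      rw [e, hd]
      simp only [h]
      push_cast
      ring
    obtain ⟨t, ht, e1, e2⟩ := scaleK W.c₄ W.Δ (g (a, b)) (h (a, b)) 1 (by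
      intro p hp hpd
      have h1 := Nat.le_of_dvd (by norm_num) hpd
      have h2 : 2 ^ 12 ≤ p ^ 12 := Nat.pow_le_pow_left hp.two_le 12
      omega) hcop (l * q ^ 4) hg1 hh1
    obtain ⟨M, hM⟩ : ∃ M : ℤ, M = 16 * a ^ 4 * b ^ 4 := ⟨_, rfl⟩
    obtain ⟨N, hN⟩ : ∃ N : ℤ, N = (a ^ 2 - b ^ 2) ^ 4 := ⟨_, rfl⟩
    have hgM : g (a, b) = M ^ 2 - M * N + N ^ 2 := by rw [hM, hN]; rfl
    have hpr : ∀ p : ℕ, p.Prime → p ∣ t → p = 2 := by
      intro p hp hpt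
      have hpt' : (p : ℤ) ∣ (t : ℤ) := by exact_mod_cast hpt
      have hg : (p : ℤ) ∣ M ^ 2 - M * N + N ^ 2 := by
        rw [← hgM, ← e1]
        exact (dvd_pow hpt' (by norm_num)).mul_right _
      have hh : (p : ℤ) ∣ h (a, b) := by
        rw [← e2]
        exact (((dvd_pow hpt' (by norm_num)).mul_left _)).mul_right _
      have hpi : Prime (p : ℤ) := Nat.prime_iff_prime_int.1 hp
      have g2 : (p : ℤ) ∣ M * N * (M - N) := by
        have h1 : (p : ℤ) ∣ (a ^ 4 * b ^ 4) * N * (M - N) := by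
          apply hpi.dvd_of_dvd_pow (n := 2)
          rw [hM, hN]
          exact hh
        have h2 : M * N * (M - N) = 16 * ((a ^ 4 * b ^ 4) * N * (M - N)) := by
          rw [show M * N * (M - N) = (16 * a ^ 4 * b ^ 4) * N * (M - N) by rw [← hM]]
          ring
        rw [h2]
        exact h1.mul_left _
      have g3 : (p : ℤ) ∣ M ∧ (p : ℤ) ∣ N := by
        rcases hpi.dvd_mul.1 g2 with g3 | g3
        · rcases hpi.dvd_mul.1 g3 with g4 | g4
          · refine ⟨g4, hpi.dvd_of_dvd_pow (n := 2) ?_⟩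
            have : N ^ 2 = (M ^ 2 - M * N + N ^ 2) - M * (M - N) := by ring
            rw [this]
            exact dvd_sub hg (g4.mul_right _)
          · refine ⟨hpi.dvd_of_dvd_pow (n := 2) ?_, g4⟩
            have : M ^ 2 = (M ^ 2 - M * N + N ^ 2) - N * (N - M) := by ring
            rw [this]
            exact dvd_sub hg (g4.mul_right _)
        · have h1 : (p : ℤ) ∣ N ^ 2 := by
            have : N ^ 2 = (M ^ 2 - M * N + N ^ 2) - (M - N) * M := by ring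
            rw [this]
            exact dvd_sub hg (g3.mul_right _)
          have h2 : (p : ℤ) ∣ M ^ 2 := by
            have : M ^ 2 = (M ^ 2 - M * N + N ^ 2) + (M - N) * N := by ring
            rw [this]
            exact dvd_add hg (g3.mul_right _)
          exact ⟨hpi.dvd_of_dvd_pow h2, hpi.dvd_of_dvd_pow h1⟩
      rw [hM, hN] at g3
      have h5 := hpi.dvd_of_dvd_pow g3.2
      rcases hpi.dvd_mul.1 g3.1 with h6 | h6
      · rcases hpi.dvd_mul.1 h6 with h7 | h7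
        · have h8 : (p : ℤ) ∣ 2 := hpi.dvd_of_dvd_pow (n := 4) (by simpa using h7)
          have h9 : p ∣ 2 := by exact_mod_cast h8
          exact (Nat.prime_dvd_prime_iff_eq hp Nat.prime_two).1 h9
        · exfalso
          have h8 := hpi.dvd_of_dvd_pow h7
          refine hpi.not_isUnit (hab.isUnit_of_dvd' h8 (hpi.dvd_of_dvd_pow (n := 2) ?_))
          have : b ^ 2 = a * a - (a ^ 2 - b ^ 2) := by ring
          rw [this]
          exact dvd_sub (h8.mul_left _) h5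
      · exfalso
        have h8 := hpi.dvd_of_dvd_pow h6
        refine hpi.not_isUnit (hab.isUnit_of_dvd' (hpi.dvd_of_dvd_pow (n := 2) ?_) h8)
        have : a ^ 2 = b * b + (a ^ 2 - b ^ 2) := by ring
        rw [this]
        exact dvd_add (h8.mul_left _) h5
    refine ⟨(a, b), ⟨hab, Or.inl hb⟩, t, ht, hpr, e1, e2, ?_⟩
    intro h6
    have h2g : (2 : ℤ) ∣ g (a, b) := (by norm_num : (2 : ℤ) ∣ 65536).trans h6
    have h2T : (2 : ℤ) ∣ a ^ 2 - b ^ 2 := by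
      have h7 : (2 : ℤ) ∣ ((a ^ 2 - b ^ 2) ^ 4) ^ 2 := by
        have : ((a ^ 2 - b ^ 2) ^ 4) ^ 2 = g (a, b) -
            2 * (128 * (a ^ 4 * b ^ 4) ^ 2 - 8 * (a ^ 4 * b ^ 4) * (a ^ 2 - b ^ 2) ^ 4) := by
          simp only [g]
          ring
        rw [this]
        exact dvd_sub h2g (dvd_mul_right _ _)
      exact Int.prime_two.dvd_of_dvd_pow (Int.prime_two.dvd_of_dvd_pow h7)
    obtain ⟨ha1, hb1⟩ := odd_of hab h2T
    obtain ⟨k, hk⟩ := eight_dvd ha1 hb1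
    obtain ⟨z, hz⟩ := h6
    have h8 : 256 * (a ^ 4 * b ^ 4) ^ 2 - 65536 * ((a ^ 4 * b ^ 4) * k ^ 4) +
        16777216 * k ^ 8 = 65536 * z := by
      rw [← hz]
      simp only [g]
      rw [hk]
      ring
    have h9 : (a ^ 4 * b ^ 4) ^ 2 % 2 = 1 := by
      rw [← Int.odd_iff]
      exact (((Int.odd_iff.2 ha1).pow).mul ((Int.odd_iff.2 hb1).pow)).pow
    generalize (a ^ 4 * b ^ 4) ^ 2 = X at h8 h9
    generalize (a ^ 4 * b ^ 4) * k ^ 4 = Y at h8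
    generalize k ^ 8 = Z at h8
    omega

end Pool.Agent.L0h46.TQ.U28
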