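import Pool.Agent.L0h46.TQ.UpG

/-!
# TQ, module U8
-/

set_option autoImplicit false

open WeierstrassCurve

namespace Pool.Agent.L0h46.TQ.U8

/-- `c₄` -/
def g (x : ℤ × ℤ) : ℤ := gGT (x.2 ^ 4) ((x.1 ^ 2 - x.2 ^ 2) ^ 2)

/-- `16 Δ` -/
def h (x : ℤ × ℤ) : ℤ := hGT (x.2 ^ 4) ((x.1 ^ 2 - x.2 ^ 2) ^ 2)

lemma hFF (x : ℤ × ℤ) : (h x).natAbs = FF α4 β8 e8 f8 x := by
  have : h x = -(x.1 ^ 2 * (-x.2) ^ 4 * (x.1 - x.2) ^ 8 * (x.1 + x.2) ^ 8 *
      (x.1 ^ 2 + 0 * x.1 * x.2 + -2 * x.2 ^ 2) ^ 1) := by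
    unfold h hGT
    ring
  rw [this, Int.natAbs_neg]
  simp only [FF, Fin.prod_univ_four, Fin.prod_univ_one, Lf, Qf, α4, β8, e8, f8,
    Matrix.cons_val_zero, Matrix.cons_val_one, Matrix.cons_val, Int.natAbs_mul, Int.natAbs_pow]
  congr 5 <;> ring_nf

theorem main (hP8 : S_P8) : S_U8 := by
  refine up_of g h 16 (by norm_num) ?_ (by decide) (by decide) hFF ?_
  · intro p hp hpd
    have h2 : p ∣ 2 := hp.dvd_of_dvd_pow (n := 4) (by simpa using hpd)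
    rw [(Nat.prime_dvd_prime_iff_eq hp Nat.prime_two).1 h2]
    decide
  · rintro W ⟨⟨hD, hcop⟩, hT⟩
    refine ⟨hD, ?_⟩
    obtain ⟨u, v, l, hl, hc, hd⟩ := hP8 W hD hT
    have hv : v ≠ 0 := by
      rintro rfl
      apply hD
      have : 16 * (W.Δ : ℚ) = 0 := by
        rw [hd, hGT]
        ring
      have : (W.Δ : ℚ) = 0 := by linarith
      exact_mod_cast this
    obtain ⟨q, a, b, hq, hab, hb, rfl, rfl⟩ := Pool.Agent.Y680.T.cop2 u v hv
    have hg1 : (W.c₄ : ℚ) = (l * q ^ 2) ^ 4 * (g (a, b) : ℤ) := by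
      rw [hc]
      simp only [g, gGT]
      push_cast
      ring
    have hh1 : ((16 : ℕ) : ℚ) * (W.Δ : ℚ) = (l * q ^ 2) ^ 12 * (h (a, b) : ℤ) := by
      push_cast
      rw [hd]
      simp only [h, hGT]
      push_cast
      ring
    obtain ⟨t, ht, e1, e2⟩ := scaleK W.c₄ W.Δ (g (a, b)) (h (a, b)) 16 (by
      intro p hp hpd
      have h1 := Nat.le_of_dvd (by norm_num) hpd
      have h2 : 2 ^ 12 ≤ p ^ 12 := Nat.pow_le_pow_left hp.two_le 12
      omega) hcop (l * q ^ 2) hg1 hh1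
    have hpr : ∀ p : ℕ, p.Prime → (p : ℤ) ∣ g (a, b) → (p : ℤ) ∣ h (a, b) →
        (p : ℤ) ∣ a ^ 2 - b ^ 2 ∧ p = 2 := by
      intro p hp hg hh
      have hpi : Prime (p : ℤ) := Nat.prime_iff_prime_int.1 hp
      have h1 : (p : ℤ) ∣ (a ^ 2 - b ^ 2) ^ 2 ∧ ((p : ℤ) ∣ 2 ∨ (p : ℤ) ∣ b ^ 4) := by
        refine gGT_prime hpi hg ?_
        have h2 : (p : ℤ) ∣ ((a ^ 2 - b ^ 2) ^ 2) ^ 4 * b ^ 4 * (b ^ 4 - (a ^ 2 - b ^ 2) ^ 2) := hh
        rcases hpi.dvd_mul.1 h2 with h3 | h3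
        · rcases hpi.dvd_mul.1 h3 with h4 | h4
          · exact Or.inl (hpi.dvd_of_dvd_pow h4)
          · exact Or.inr (Or.inl h4)
        · exact Or.inr (Or.inr h3)
      have h2 := hpi.dvd_of_dvd_pow h1.1
      refine ⟨h2, ?_⟩
      rcases h1.2 with h3 | h3
      · have h4 : p ∣ 2 := by exact_mod_cast h3
        exact (Nat.prime_dvd_prime_iff_eq hp Nat.prime_two).1 h4
      · exfalso
        have h4 := hpi.dvd_of_dvd_pow h3
        have h5 : (p : ℤ) ∣ a := by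
          apply hpi.dvd_of_dvd_pow (n := 2)
          have : a ^ 2 = (a ^ 2 - b ^ 2) + b * b := by ring
          rw [this]
          exact dvd_add h2 (h4.mul_left _)
        exact hpi.not_isUnit (hab.isUnit_of_dvd' h5 h4)
    refine ⟨(a, b), ⟨hab, Or.inl hb⟩, t, ht, ?_, e1, e2, ?_⟩
    · intro p hp hpt
      have hpt' : (p : ℤ) ∣ (t : ℤ) := by exact_mod_cast hpt
      refine (hpr p hp ?_ ?_).2
      · rw [← e1]
        exact (dvd_pow hpt' (by norm_num)).mul_right _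
      · rw [← e2]
        exact (((dvd_pow hpt' (by norm_num)).mul_left _)).mul_right _
    · intro h6
      have h2g : (2 : ℤ) ∣ g (a, b) := (by norm_num : (2 : ℤ) ∣ 65536).trans h6
      have h2T : (2 : ℤ) ∣ a ^ 2 - b ^ 2 := by
        have h7 : (2 : ℤ) ∣ ((a ^ 2 - b ^ 2) ^ 2) ^ 2 := by
          have : ((a ^ 2 - b ^ 2) ^ 2) ^ 2 = g (a, b) -
              2 * (8 * (b ^ 4) ^ 2 - 8 * b ^ 4 * (a ^ 2 - b ^ 2) ^ 2) := by
            simp only [g, gGT]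
            ring
          rw [this]
          exact dvd_sub h2g (dvd_mul_right _ _)
        exact Int.prime_two.dvd_of_dvd_pow (Int.prime_two.dvd_of_dvd_pow h7)
      obtain ⟨ha1, hb1⟩ := odd_of hab h2T
      obtain ⟨k, hk⟩ := eight_dvd ha1 hb1
      obtain ⟨z, hz⟩ := h6
      have h8 : 16 * b ^ 8 - 1024 * (b ^ 4 * k ^ 2) + 4096 * k ^ 4 = 65536 * z := by
        rw [← hz]
        simp only [g, gGT]
        rw [hk]
        ring
      have h9 : b ^ 8 % 2 = 1 := by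
        rw [← Int.odd_iff]
        exact (Int.odd_iff.2 hb1).pow
      omega

end Pool.Agent.L0h46.TQ.U8
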