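import Pool.Agent.L0h46.TQ.Asm
import Pool.Agent.L0h46.TQ.LIN
import Pool.Agent.L0h46.TQ.TAL
import Pool.Agent.L0h46.TQ.QL
import Pool.Agent.L0h46.TQ.QN
import Pool.Agent.L0h46.TQ.CU
import Pool.Agent.L0h46.TQ.CE
import Pool.Agent.L0h46.TQ.CT
import Pool.Agent.L0h46.TQ.GU
import Pool.Agent.L0h46.TQ.GL
import Pool.Agent.L0h46.TQ.GE
import Pool.Agent.L0h46.TQ.GT
import Pool.Agent.L0h46.TQ.GD
import Pool.Agent.L0h46.TQ.J
import Pool.Agent.L0h46.TQ.P8
import Pool.Agent.L0h46.TQ.P10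
import Pool.Agent.L0h46.TQ.P12
import Pool.Agent.L0h46.TQ.P28
import Pool.Agent.L0h46.TQ.U8
import Pool.Agent.L0h46.TQ.U10
import Pool.Agent.L0h46.TQ.U12
import Pool.Agent.L0h46.TQ.U28
import Pool.Agent.L0h46.TQ.L8
import Pool.Agent.L0h46.TQ.L10
import Pool.Agent.L0h46.TQ.L12
import Pool.Agent.L0h46.TQ.L28

/-!
# Project TQ: all the parts
-/

set_option autoImplicit false

namespace Pool.Agent.L0h46.TQ

theorem parts : Parts := by
  have hLIN := LIN.main
  have hTAL := TAL.main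
  have hQL := QL.main
  have hQN := QN.main
  have hCU := CU.main hQL hLIN
  have hCE := CE.main hQL hLIN hCU
  have hCT := CT.main hQL hTAL hLIN
  have hGU := GU.main hCU
  have hGL := GL.main hGU GD.main
  have hGE := GE.main hCE hQN hLIN
  have hGT := GT.main hCT
  exact ⟨hGU, hGL, hGE, hGT, J.main, U8.main P8.main, U10.main P10.main, U12.main P12.main,
    U28.main P28.main, L8.main, L10.main, L12.main, L28.main⟩

end Pool.Agent.L0h46.TQ
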