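import Pool.Agent.L0h46.TQ.Defs2

/-!
# Project TQ: assembly
-/

set_option autoImplicit false

namespace Pool.Agent.L0h46.TQ

open Finset

/-- all the parts -/
structure Parts : Prop where
  gu : S_GU
  gl : S_GL
  ge : S_GE
  gt : S_GT
  j : S_J
  u8 : S_U8
  u10 : S_U10
  u12 : S_U12
  u28 : S_U28
  l8 : S_L8
  l10 : S_L10
  l12 : S_L12
  l28 : S_L28

/-- the law for the curves with the property `P` -/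
def LawP (P : WeierstrassCurve ℤ → Prop) (s r t : ℝ) : Prop :=
  (∀ A ε : ℝ, 0 < ε → ∃ C : ℝ, 0 < C ∧ ∀ X : ℝ, 1 ≤ X → (CvA P A X).Finite ∧
    ((CvA P A X).ncard : ℝ) ≤ C * X ^ (s + ε)) ∧
  (∃ c : ℝ, 0 < c ∧ ∀ A : ℝ, r ≤ A → ∃ X₀ : ℝ, ∀ X : ℝ, X₀ ≤ X →
    c * X ^ s ≤ ((CvA P A X).ncard : ℝ)) ∧
  (∀ A δ : ℝ, 0 < δ → ∃ η : ℝ, 0 < η ∧ ∃ C : ℝ, 0 < C ∧ ∀ X : ℝ, 1 ≤ X →
    ((BdA P A r δ X).ncard : ℝ) ≤ C * X ^ (s - η)) ∧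
  (∀ ε : ℝ, 0 < ε → ∃ M : ℝ, ∀ A : ℝ, ∃ C : ℝ, 0 < C ∧ ∀ X : ℝ, 1 ≤ X →
    (TCA P M A X).Finite ∧ ((TCA P M A X).ncard : ℝ) ≤ C * X ^ (t + ε))

theorem lawP_of (H : Parts) {k m : ℕ} (hk : 3 ≤ k) {α : Fin k → ℤ × ℤ} {β : Fin m → ℤ × ℤ}
    {S : Finset ℕ} {e : Fin k → ℕ} {f : Fin m → ℕ} {P : WeierstrassCurve ℤ → Prop}
    (h1 : Indep α) (h2 : ∀ j, Irr (β j)) (h3 : Dj α β S) (h4 : ∀ i, 1 ≤ e i) (h5 : ∀ j, 1 ≤ f j)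
    (h6 : Up α β S e f P) (h7 : Lo α β e f P) {s r t : ℝ} (hs : s = 2 / ((k : ℝ) + 2 * m))
    (hr : r = ((∑ i, e i : ℕ) + 2 * (∑ j, f j : ℕ) : ℝ) / ((k : ℝ) + 2 * m))
    (ht : t = 1 / ((k : ℝ) + m)) : LawP P s r t := by
  subst hs hr ht
  exact ⟨H.gu k m hk α β S e f P h1 h2 h3 h4 h5 h6, H.gl k m hk α β S e f P h1 h2 h3 h4 h5 h6 h7,
    H.ge k m hk α β S e f P h1 h2 h3 h4 h5 h6, H.gt k m hk α β S e f P h1 h2 h3 h4 h5 h6⟩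

theorem law8 (H : Parts) : LawP (Tor (ZMod 8)) (1 / 3) 4 (1 / 5) := by
  refine lawP_of H (by norm_num) H.j.1.1 H.j.2.1.1 H.j.2.2.1 ?_ ?_ H.u8 H.l8 ?_ ?_ ?_
  · decide
  · decide
  · norm_num
  · rw [show ∑ i, e8 i = 22 by decide, show ∑ j, f8 j = 1 by decide]
    norm_num
  · norm_num

theorem law10 (H : Parts) : LawP (Tor (ZMod 10)) (1 / 4) (9 / 2) (1 / 6) := by
  refine lawP_of H (by norm_num) H.j.1.2 H.j.2.1.2.1 H.j.2.2.2.1 ?_ ?_ H.u10 H.l10 ?_ ?_ ?_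
  · decide
  · decide
  · norm_num
  · rw [show ∑ i, e10 i = 30 by decide, show ∑ j, f10 j = 3 by decide]
    norm_num
  · norm_num

theorem law12 (H : Parts) : LawP (Tor (ZMod 12)) (1 / 5) (24 / 5) (1 / 7) := by
  refine lawP_of H (by norm_num) H.j.1.1 H.j.2.1.2.2.1 H.j.2.2.2.2.1 ?_ ?_ H.u12 H.l12 ?_ ?_ ?_
  · decide
  · decide
  · norm_num
  · rw [show ∑ i, e12 i = 32 by decide, show ∑ j, f12 j = 8 by decide]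
    norm_num
  · norm_num

theorem law28 (H : Parts) : LawP (Tor (ZMod 2 × ZMod 8)) (1 / 5) (24 / 5) (1 / 7) := by
  refine lawP_of H (by norm_num) H.j.1.1 H.j.2.1.2.2.2 H.j.2.2.2.2.2 ?_ ?_ H.u28 H.l28 ?_ ?_ ?_
  · decide
  · decide
  · norm_num
  · rw [show ∑ i, e28 i = 32 by decide, show ∑ j, f28 j = 8 by decide]
    norm_num
  · norm_num

end Pool.Agent.L0h46.TQ
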