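import Mathlib

/-!
# Project TQ: the Szpiro ratio by conductor for the torsion groups `ℤ/8`, `ℤ/10`, `ℤ/12` and
`ℤ/2 × ℤ/8`; statements of the parts

The discriminant of the curves is a product of powers of `k = 4` linear forms and of `m = 1, 2, 3`
irreducible monic quadratic forms.
-/

set_option autoImplicit false

namespace Pool.Agent.L0h46.TQ

open Finset

/-- Normalised coprime integer coordinates. -/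
def Nrm (x : ℤ × ℤ) : Prop := IsCoprime x.1 x.2 ∧ (0 < x.2 ∨ x.2 = 0 ∧ 0 < x.1)

/-- the sum of `log p` over the linear forms and over the primes outside `S` dividing them -/
noncomputable def N1 {q : ℕ} (α : Fin q → ℤ × ℤ) (S : Finset ℕ) (x : ℤ × ℤ) : ℝ :=
  ∑ i, ∑ p ∈ (x.1 * (α i).2 - x.2 * (α i).1).natAbs.primeFactors \ S, Real.log p

/-- the points with `N1 ≤ log X`, of all heights -/
def Pts {q : ℕ} (α : Fin q → ℤ × ℤ) (S : Finset ℕ) (X : ℝ) : Set (ℤ × ℤ) :=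
  {x | Nrm x ∧ (∀ i, x.1 * (α i).2 - x.2 * (α i).1 ≠ 0) ∧ N1 α S x ≤ Real.log X}

/-- the height of a point -/
noncomputable def hh (x : ℤ × ℤ) : ℝ := Real.log (max x.1.natAbs x.2.natAbs : ℕ)

/-- the value of the linear form attached to the point `α` -/
def Lf (α : ℤ × ℤ) (x : ℤ × ℤ) : ℤ := x.1 * α.2 - x.2 * α.1

/-- the height -/
def htn (x : ℤ × ℤ) : ℕ := max x.1.natAbs x.2.natAbs

/-- the product of the primes dividing the discriminant -/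
def rd (W : WeierstrassCurve ℤ) : ℕ := ∏ p ∈ W.Δ.natAbs.primeFactors, p

/-- the invariants `c₄, c₆` -/
def inv (W : WeierstrassCurve ℤ) : ℤ × ℤ := (W.c₄, W.c₆)

/-- semistable curves whose group of rational points contains a copy of `T` -/
def Tor (T : Type) [AddCommGroup T] (W : WeierstrassCurve ℤ) : Prop :=
  (W.Δ ≠ 0 ∧ IsCoprime W.c₄ W.Δ) ∧
    ∃ f : T →+ (W.map (Int.castRingHom ℚ)).toAffine.Point, Function.Injective f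

/-- the quadratic form `u² + β₁ u v + β₂ v²` -/
def Qf (β x : ℤ × ℤ) : ℤ := x.1 ^ 2 + β.1 * x.1 * x.2 + β.2 * x.2 ^ 2

/-- the form is irreducible -/
def Irr (β : ℤ × ℤ) : Prop := ¬ IsSquare (β.1 ^ 2 - 4 * β.2)

/-- the points are different -/
def Indep {k : ℕ} (α : Fin k → ℤ × ℤ) : Prop :=
  ∀ i j, i ≠ j → (α i).1 * (α j).2 ≠ (α j).1 * (α i).2

/-- the logarithm of the product of the primes of `n` outside `S` -/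
noncomputable def lg (S : Finset ℕ) (n : ℤ) : ℝ := ∑ p ∈ n.natAbs.primeFactors \ S, Real.log p

/-- the logarithm of the product of all the radicals -/
noncomputable def NQ {k m : ℕ} (α : Fin k → ℤ × ℤ) (β : Fin m → ℤ × ℤ) (S : Finset ℕ)
    (x : ℤ × ℤ) : ℝ := N1 α S x + ∑ j, lg S (Qf (β j) x)

/-- the points of height at most `B X ^ A` at which the product of the radicals is at most `X` -/
def PtsQ {k m : ℕ} (α : Fin k → ℤ × ℤ) (β : Fin m → ℤ × ℤ) (S : Finset ℕ) (B A X : ℝ) :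
    Set (ℤ × ℤ) :=
  {x | Nrm x ∧ (∀ i, Lf (α i) x ≠ 0) ∧ (htn x : ℝ) ≤ B * X ^ A ∧ NQ α β S x ≤ Real.log X}

/-! ### Counting points -/

/-- LIN: the known theorems on linear forms (start files; proved from `Y911.PL` in the assembly). -/
def S_LIN : Prop := ∀ (q : ℕ), 3 ≤ q → ∀ (α : Fin q → ℤ × ℤ), Indep α → ∀ S : Finset ℕ,
  (∃ C : ℝ, 0 < C ∧ ∀ X : ℝ, 1 ≤ X → (Pts α S X).Finite ∧
    ((Pts α S X).ncard : ℝ) ≤ C * X ^ (2 / (q : ℝ))) ∧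
  ∀ δ : ℝ, 0 < δ → ∃ ν : ℝ, 0 < ν ∧ ∃ C : ℝ, 0 < C ∧ ∃ X0 : ℝ, 1 ≤ X0 ∧ ∀ X : ℝ, X0 ≤ X →
    ∀ F : Finset (ℤ × ℤ), (∀ x ∈ F, x ∈ Pts α S X ∧ (1 / (q : ℝ) + δ) * Real.log X ≤ hh x) →
      (F.card : ℝ) ≤ C * X ^ (2 / (q : ℝ) - ν)

/-- QL: the values of a quadratic form with small radical. -/
def S_QL : Prop := ∀ (β : ℤ × ℤ), Irr β → ∀ (S : Finset ℕ) (ε : ℝ), 0 < ε → ∃ C : ℝ, 0 < C ∧
  ∀ Y R : ℝ, 1 ≤ Y → 1 ≤ R → ∀ F : Finset (ℤ × ℤ),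
    (∀ x ∈ F, (htn x : ℝ) ≤ Y ∧ lg S (Qf β x) ≤ Real.log R) → (F.card : ℝ) ≤ C * R * Y ^ ε

/-- QN: the points of a box at which a quadratic form takes a small value. -/
def S_QN : Prop := ∀ (β : ℤ × ℤ), ∃ C : ℝ, 0 < C ∧ ∀ H M : ℝ, 1 ≤ H → 1 ≤ M →
  ({x : ℤ × ℤ | (htn x : ℝ) ≤ H ∧ ((Qf β x).natAbs : ℝ) ≤ M} : Set (ℤ × ℤ)).Finite ∧
  (({x : ℤ × ℤ | (htn x : ℝ) ≤ H ∧ ((Qf β x).natAbs : ℝ) ≤ M} : Set (ℤ × ℤ)).ncard : ℝ) ≤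
    C * H * M ^ ((1 : ℝ) / 2)

/-- CU: the number of points. -/
def S_CU : Prop := ∀ (k m : ℕ), 3 ≤ k → ∀ (α : Fin k → ℤ × ℤ) (β : Fin m → ℤ × ℤ) (S : Finset ℕ),
  Indep α → (∀ j, Irr (β j)) → ∀ B A ε : ℝ, 0 < ε → ∃ C : ℝ, 0 < C ∧ ∀ X : ℝ, 1 ≤ X →
    (PtsQ α β S B A X).Finite ∧
    ((PtsQ α β S B A X).ncard : ℝ) ≤ C * X ^ (2 / ((k : ℝ) + 2 * m) + ε)

/-- CE: the number of the points of large height. -/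
def S_CE : Prop := ∀ (k m : ℕ), 3 ≤ k → ∀ (α : Fin k → ℤ × ℤ) (β : Fin m → ℤ × ℤ) (S : Finset ℕ),
  Indep α → (∀ j, Irr (β j)) → ∀ B A δ : ℝ, 0 < δ → ∃ η : ℝ, 0 < η ∧ ∃ C : ℝ, 0 < C ∧
    ∀ X : ℝ, 1 ≤ X →
    (({x | x ∈ PtsQ α β S B A X ∧ NQ α β S x < ((k : ℝ) + 2 * m - δ) * hh x} :
      Set (ℤ × ℤ)).ncard : ℝ) ≤ C * X ^ (2 / ((k : ℝ) + 2 * m) - η)

/-! ### Curves in a family -/

/-- the product of the powers of the forms -/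
def FF {k m : ℕ} (α : Fin k → ℤ × ℤ) (β : Fin m → ℤ × ℤ) (e : Fin k → ℕ) (f : Fin m → ℕ)
    (x : ℤ × ℤ) : ℕ := (∏ i, (Lf (α i) x).natAbs ^ e i) * ∏ j, (Qf (β j) x).natAbs ^ f j

/-- a prime outside `S` divides at most one of the forms -/
def Dj {k m : ℕ} (α : Fin k → ℤ × ℤ) (β : Fin m → ℤ × ℤ) (S : Finset ℕ) : Prop :=
  ∀ x : ℤ × ℤ, IsCoprime x.1 x.2 → ∀ p : ℕ, p.Prime → p ∉ S →
    (∀ i j, i ≠ j → (p : ℤ) ∣ Lf (α i) x → (p : ℤ) ∣ Lf (α j) x → False) ∧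
    (∀ i j, (p : ℤ) ∣ Lf (α i) x → (p : ℤ) ∣ Qf (β j) x → False) ∧
    (∀ i j, i ≠ j → (p : ℤ) ∣ Qf (β i) x → (p : ℤ) ∣ Qf (β j) x → False)

/-- all the curves with the property `P` come from points -/
def Up {k m : ℕ} (α : Fin k → ℤ × ℤ) (β : Fin m → ℤ × ℤ) (S : Finset ℕ) (e : Fin k → ℕ)
    (f : Fin m → ℕ) (P : WeierstrassCurve ℤ → Prop) : Prop :=
  ∃ (A K : ℕ) (R : ℤ × ℤ → Finset (ℤ × ℤ)), (∀ x, (R x).card ≤ K) ∧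
    ∀ W, P W → W.Δ ≠ 0 ∧ ∃ x, Nrm x ∧ (∀ i, Lf (α i) x ≠ 0) ∧
      (∃ κ : ℕ, 0 < κ ∧ κ ≤ A ∧ (∀ p : ℕ, p.Prime → p ∣ κ → p ∈ S) ∧
        κ * W.Δ.natAbs = FF α β e f x) ∧ inv W ∈ R x

/-- the pairs used for the lower bound -/
def Gd30 (p : ℕ × ℕ) : Prop := 0 < p.1 ∧ 0 < p.2 ∧ Nat.Coprime p.1 p.2 ∧ Nat.Coprime p.2 30

/-- there are many curves with the property `P` -/
def Lo {k m : ℕ} (α : Fin k → ℤ × ℤ) (β : Fin m → ℤ × ℤ) (e : Fin k → ℕ)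
    (f : Fin m → ℕ) (P : WeierstrassCurve ℤ → Prop) : Prop :=
  ∃ (B K : ℕ) (I : ℕ × ℕ → ℤ × ℤ), (∀ p, Gd30 p → ∃ W, P W ∧ inv W = I p ∧
      ∃ (x : ℤ × ℤ) (κ : ℕ), 0 < κ ∧ κ * W.Δ.natAbs = FF α β e f x ∧
        htn x ≤ B * max p.1 p.2) ∧
    ∀ g, ∀ s : Finset (ℕ × ℕ), (∀ p ∈ s, Gd30 p ∧ I p = g) → s.card ≤ K

/-- the invariants of the curves with the property `P` with `rd W ≤ X`, `|Δ| ≤ X ^ A` -/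
def CvA (P : WeierstrassCurve ℤ → Prop) (A X : ℝ) : Set (ℤ × ℤ) :=
  {g | ∃ W, P W ∧ (rd W : ℝ) ≤ X ∧ |(W.Δ : ℝ)| ≤ X ^ A ∧ inv W = g}

/-- the exceptions -/
def BdA (P : WeierstrassCurve ℤ → Prop) (A r δ X : ℝ) : Set (ℤ × ℤ) :=
  {g | ∃ W, P W ∧ (rd W : ℝ) ≤ X ∧ |(W.Δ : ℝ)| ≤ X ^ A ∧ inv W = g ∧
    ¬((rd W : ℝ) ^ (r - δ) ≤ |(W.Δ : ℝ)| ∧ |(W.Δ : ℝ)| ≤ (rd W : ℝ) ^ (r + δ))}

/-- GD: the number of the pairs used for the lower bound. -/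
def S_GD : Prop := ∃ c : ℝ, 0 < c ∧ ∃ B : ℕ, ∀ N : ℕ, 1 ≤ N → ∃ G : Finset (ℕ × ℕ),
  c * (N : ℝ) ^ 2 ≤ G.card ∧ ∀ p ∈ G, Gd30 p ∧ p.1 ≤ B * N ∧ p.2 ≤ B * N

/-- GU: the upper bound for the number of curves. -/
def S_GU : Prop := ∀ (k m : ℕ), 3 ≤ k → ∀ (α : Fin k → ℤ × ℤ) (β : Fin m → ℤ × ℤ) (S : Finset ℕ)
  (e : Fin k → ℕ) (f : Fin m → ℕ) (P : WeierstrassCurve ℤ → Prop),
  Indep α → (∀ j, Irr (β j)) → Dj α β S → (∀ i, 1 ≤ e i) → (∀ j, 1 ≤ f j) → Up α β S e f P →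
  ∀ A ε : ℝ, 0 < ε → ∃ C : ℝ, 0 < C ∧ ∀ X : ℝ, 1 ≤ X → (CvA P A X).Finite ∧
    ((CvA P A X).ncard : ℝ) ≤ C * X ^ (2 / ((k : ℝ) + 2 * m) + ε)

/-- GL: the lower bound for the number of curves. -/
def S_GL : Prop := ∀ (k m : ℕ), 3 ≤ k → ∀ (α : Fin k → ℤ × ℤ) (β : Fin m → ℤ × ℤ) (S : Finset ℕ)
  (e : Fin k → ℕ) (f : Fin m → ℕ) (P : WeierstrassCurve ℤ → Prop),
  Indep α → (∀ j, Irr (β j)) → Dj α β S → (∀ i, 1 ≤ e i) → (∀ j, 1 ≤ f j) → Up α β S e f P →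
  Lo α β e f P →
  ∃ c : ℝ, 0 < c ∧ ∀ A : ℝ, ((∑ i, e i : ℕ) + 2 * (∑ j, f j : ℕ) : ℝ) / ((k : ℝ) + 2 * m) ≤ A →
    ∃ X₀ : ℝ, ∀ X : ℝ, X₀ ≤ X → c * X ^ (2 / ((k : ℝ) + 2 * m)) ≤ ((CvA P A X).ncard : ℝ)

/-- GE: the number of the exceptions. -/
def S_GE : Prop := ∀ (k m : ℕ), 3 ≤ k → ∀ (α : Fin k → ℤ × ℤ) (β : Fin m → ℤ × ℤ) (S : Finset ℕ)
  (e : Fin k → ℕ) (f : Fin m → ℕ) (P : WeierstrassCurve ℤ → Prop),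
  Indep α → (∀ j, Irr (β j)) → Dj α β S → (∀ i, 1 ≤ e i) → (∀ j, 1 ≤ f j) → Up α β S e f P →
  ∀ A δ : ℝ, 0 < δ → ∃ η : ℝ, 0 < η ∧ ∃ C : ℝ, 0 < C ∧ ∀ X : ℝ, 1 ≤ X →
    ((BdA P A (((∑ i, e i : ℕ) + 2 * (∑ j, f j : ℕ) : ℝ) / ((k : ℝ) + 2 * m)) δ X).ncard : ℝ) ≤
      C * X ^ (2 / ((k : ℝ) + 2 * m) - η)

/-! ### The four families -/

/-- the primes 2, 3, 5 -/
def S30 : Finset ℕ := {2, 3, 5}

/-- the linear forms `u`, `-v`, `u - v`, `u + v` -/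
def α4 : Fin 4 → ℤ × ℤ := ![(0, 1), (1, 0), (1, 1), (-1, 1)]

/-- the linear forms `u`, `-v`, `u - v`, `u - 2 v` for `ℤ/10` -/
def α10 : Fin 4 → ℤ × ℤ := ![(0, 1), (1, 0), (1, 1), (2, 1)]

/-- `u² - 2 v²` -/
def β8 : Fin 1 → ℤ × ℤ := ![(0, -2)]
/-- `u² - 3 u v + v²`, `u² + 2 u v - 4 v²` -/
def β10 : Fin 2 → ℤ × ℤ := ![(-3, 1), (2, -4)]
/-- `u² + v²`, `u² + 3 v²`, `u² - 3 v²` -/
def β12 : Fin 3 → ℤ × ℤ := ![(0, 1), (0, 3), (0, -3)]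
/-- `u² + v²`, `u² + 2 u v - v²`, `u² - 2 u v - v²` -/
def β28 : Fin 3 → ℤ × ℤ := ![(0, 1), (2, -1), (-2, -1)]

/-- exponents -/
def e8 : Fin 4 → ℕ := ![2, 4, 8, 8]
/-- exponents -/
def f8 : Fin 1 → ℕ := ![1]
/-- exponents -/
def e10 : Fin 4 → ℕ := ![5, 10, 10, 5]
/-- exponents -/
def f10 : Fin 2 → ℕ := ![2, 1]
/-- exponents -/
def e12 : Fin 4 → ℕ := ![2, 6, 12, 12]
/-- exponents -/
def f12 : Fin 3 → ℕ := ![3, 4, 1]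
/-- exponents -/
def e28 : Fin 4 → ℕ := ![8, 8, 8, 8]
/-- exponents -/
def f28 : Fin 3 → ℕ := ![4, 2, 2]

/-- J: independence, irreducibility and disjointness of the forms. -/
def S_J : Prop := (Indep α4 ∧ Indep α10) ∧
  ((∀ j, Irr (β8 j)) ∧ (∀ j, Irr (β10 j)) ∧ (∀ j, Irr (β12 j)) ∧ (∀ j, Irr (β28 j))) ∧
  (Dj α4 β8 S30 ∧ Dj α10 β10 S30 ∧ Dj α4 β12 S30 ∧ Dj α4 β28 S30)

/-- `c₄` of the curve with parameters `G`, `T` -/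
def gGT {R : Type} [CommRing R] (G T : R) : R := 16 * G ^ 2 - 16 * G * T + T ^ 2

/-- `16 Δ` of the curve with parameters `G`, `T` -/
def hGT {R : Type} [CommRing R] (G T : R) : R := T ^ 4 * G * (G - T)

/-- `W` over the rationals has a point group with a copy of `T` -/
def TorQ (T : Type) [AddCommGroup T] (W : WeierstrassCurve ℤ) : Prop :=
  ∃ f : T →+ (W.map (Int.castRingHom ℚ)).toAffine.Point, Function.Injective f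

/-- P8: the parametrisation for `ℤ/8` (`G = v⁴`, `T = (u² - v²)²`). -/
def S_P8 : Prop := ∀ W : WeierstrassCurve ℤ, W.Δ ≠ 0 → TorQ (ZMod 8) W →
  ∃ u v l : ℚ, l ≠ 0 ∧ (W.c₄ : ℚ) = l ^ 4 * gGT (v ^ 4) ((u ^ 2 - v ^ 2) ^ 2) ∧
    16 * (W.Δ : ℚ) = l ^ 12 * hGT (v ^ 4) ((u ^ 2 - v ^ 2) ^ 2)

/-- P12: the parametrisation for `ℤ/12` (`G = 16 v⁶ u²`, `T = (u² - v²)³ (u² + 3 v²)`). -/
def S_P12 : Prop := ∀ W : WeierstrassCurve ℤ, W.Δ ≠ 0 → TorQ (ZMod 12) W →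
  ∃ u v l : ℚ, l ≠ 0 ∧
    (W.c₄ : ℚ) = l ^ 4 * gGT (16 * v ^ 6 * u ^ 2) ((u ^ 2 - v ^ 2) ^ 3 * (u ^ 2 + 3 * v ^ 2)) ∧
    16 * (W.Δ : ℚ) = l ^ 12 * hGT (16 * v ^ 6 * u ^ 2) ((u ^ 2 - v ^ 2) ^ 3 * (u ^ 2 + 3 * v ^ 2))

/-- P28: the parametrisation for `ℤ/2 × ℤ/8` (`M = 16 u⁴ v⁴`, `N = (u² - v²)⁴`). -/
def S_P28 : Prop := ∀ W : WeierstrassCurve ℤ, W.Δ ≠ 0 → TorQ (ZMod 2 × ZMod 8) W →
  ∃ u v l : ℚ, l ≠ 0 ∧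
    (W.c₄ : ℚ) = l ^ 4 * ((16 * u ^ 4 * v ^ 4) ^ 2 - (16 * u ^ 4 * v ^ 4) * (u ^ 2 - v ^ 2) ^ 4 +
      ((u ^ 2 - v ^ 2) ^ 4) ^ 2) ∧
    256 * (W.Δ : ℚ) = l ^ 12 * ((16 * u ^ 4 * v ^ 4) * (u ^ 2 - v ^ 2) ^ 4 *
      (16 * u ^ 4 * v ^ 4 - (u ^ 2 - v ^ 2) ^ 4)) ^ 2

/-- `c₄` of the curve with a point of order five and the slopes `λ`, `μ` -/
def g5 {R : Type} [CommRing R] (l m : R) : R :=
  l ^ 4 - 3 * l ^ 3 * m - l ^ 2 * m ^ 2 + 3 * l * m ^ 3 + m ^ 4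

/-- `c₄` for `ℤ/10` -/
def g10 {R : Type} [CommRing R] (u v : R) : R :=
  g5 (u ^ 3 - 2 * v * u ^ 2 + 2 * v ^ 2 * u - 2 * v ^ 3) (u ^ 3 - 2 * v * u ^ 2 + 2 * v ^ 3)

/-- `Δ` for `ℤ/10` -/
def h10 {R : Type} [CommRing R] (u v : R) : R :=
  v ^ 10 * u ^ 5 * (u - v) ^ 10 * (2 * v - u) ^ 5 * (u ^ 2 - 3 * u * v + v ^ 2) ^ 2 *
    (4 * v ^ 2 - 2 * u * v - u ^ 2)

/-- P10: the parametrisation for `ℤ/10`. -/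
def S_P10 : Prop := ∀ W : WeierstrassCurve ℤ, W.Δ ≠ 0 → TorQ (ZMod 10) W →
  ∃ u v l : ℚ, l ≠ 0 ∧ (W.c₄ : ℚ) = l ^ 4 * g10 u v ∧ (W.Δ : ℚ) = l ^ 12 * h10 u v

/-- U8 -/
def S_U8 : Prop := Up α4 β8 S30 e8 f8 (Tor (ZMod 8))
/-- U10 -/
def S_U10 : Prop := Up α10 β10 S30 e10 f10 (Tor (ZMod 10))
/-- U12 -/
def S_U12 : Prop := Up α4 β12 S30 e12 f12 (Tor (ZMod 12))
/-- U28 -/
def S_U28 : Prop := Up α4 β28 S30 e28 f28 (Tor (ZMod 2 × ZMod 8))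

/-- L8 -/
def S_L8 : Prop := Lo α4 β8 e8 f8 (Tor (ZMod 8))
/-- L10 -/
def S_L10 : Prop := Lo α10 β10 e10 f10 (Tor (ZMod 10))
/-- L12 -/
def S_L12 : Prop := Lo α4 β12 e12 f12 (Tor (ZMod 12))
/-- L28 -/
def S_L28 : Prop := Lo α4 β28 e28 f28 (Tor (ZMod 2 × ZMod 8))

end Pool.Agent.L0h46.TQ
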