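import Pool.Agent.L0h46.TQ.Defs

/-!
# Project TQ: statements on large Szpiro ratios
-/

set_option autoImplicit false

namespace Pool.Agent.L0h46.TQ

open Finset

/-- the points of large height compared with their truncated counting function -/
def Tall {q : ℕ} (α : Fin q → ℤ × ℤ) (S : Finset ℕ) (M A X : ℝ) : Set (ℤ × ℤ) :=
  {x | Nrm x ∧ (∀ i, Lf (α i) x ≠ 0) ∧ N1 α S x ≤ Real.log X ∧
    M * N1 α S x ≤ Real.log (htn x) ∧ (htn x : ℝ) ≤ X ^ A}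

/-- TAL: the known theorem on linear forms (start files; proved from `N840.TP.tall` in the
assembly). -/
def S_TAL : Prop := ∀ ε : ℝ, 0 < ε → ∃ M : ℕ, 1 ≤ M ∧ ∀ q : ℕ, 3 ≤ q → ∀ α : Fin q → ℤ × ℤ,
  Indep α → ∀ (S : Finset ℕ) (A : ℝ), ∃ C : ℝ, 0 < C ∧ ∀ X : ℝ, 1 ≤ X →
    (Tall α S M A X).Finite ∧ ((Tall α S M A X).ncard : ℝ) ≤ C * X ^ (1 / (q : ℝ) + ε)

/-- CT: the points of very large height. -/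
def S_CT : Prop := ∀ ε : ℝ, 0 < ε → ∃ M : ℝ, 1 ≤ M ∧ ∀ (k m : ℕ), 3 ≤ k →
  ∀ (α : Fin k → ℤ × ℤ) (β : Fin m → ℤ × ℤ) (S : Finset ℕ), Indep α → (∀ j, Irr (β j)) →
  ∀ B A : ℝ, ∃ C : ℝ, 0 < C ∧ ∀ X : ℝ, 1 ≤ X →
    ({x | x ∈ PtsQ α β S B A X ∧ M * NQ α β S x ≤ hh x} : Set (ℤ × ℤ)).Finite ∧
    (({x | x ∈ PtsQ α β S B A X ∧ M * NQ α β S x ≤ hh x} : Set (ℤ × ℤ)).ncard : ℝ) ≤
      C * X ^ (1 / ((k : ℝ) + m) + ε)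

/-- the invariants of the curves with the property `P` with `rd W ≤ X` and
`rd W ^ M ≤ |Δ| ≤ X ^ A` -/
def TCA (P : WeierstrassCurve ℤ → Prop) (M A X : ℝ) : Set (ℤ × ℤ) :=
  {g | ∃ W, P W ∧ (rd W : ℝ) ≤ X ∧ (rd W : ℝ) ^ M ≤ |(W.Δ : ℝ)| ∧ |(W.Δ : ℝ)| ≤ X ^ A ∧ inv W = g}

/-- GT: the number of the curves with a large Szpiro ratio. -/
def S_GT : Prop := ∀ (k m : ℕ), 3 ≤ k → ∀ (α : Fin k → ℤ × ℤ) (β : Fin m → ℤ × ℤ) (S : Finset ℕ)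
  (e : Fin k → ℕ) (f : Fin m → ℕ) (P : WeierstrassCurve ℤ → Prop),
  Indep α → (∀ j, Irr (β j)) → Dj α β S → (∀ i, 1 ≤ e i) → (∀ j, 1 ≤ f j) → Up α β S e f P →
  ∀ ε : ℝ, 0 < ε → ∃ M : ℝ, ∀ A : ℝ, ∃ C : ℝ, 0 < C ∧ ∀ X : ℝ, 1 ≤ X →
    (TCA P M A X).Finite ∧ ((TCA P M A X).ncard : ℝ) ≤ C * X ^ (1 / ((k : ℝ) + m) + ε)

end Pool.Agent.L0h46.TQ
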