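import Pool.Agent.L0h46.TQ.Defs

/-!
# TQ: common lemmas for the modules GU, GL, GE
-/

set_option autoImplicit false

namespace Pool.Agent.L0h46.TQ.GCom

open Finset

/-- a bound for the coefficients of the forms -/
def UN {k m : ℕ} (α : Fin k → ℤ × ℤ) (β : Fin m → ℤ × ℤ) : ℕ :=
  1 + ∑ i, ((α i).1.natAbs + (α i).2.natAbs) + ∑ j, (1 + (β j).1.natAbs + (β j).2.natAbs)

section

variable {k m : ℕ} (α : Fin k → ℤ × ℤ) (β : Fin m → ℤ × ℤ)

lemma UN_pos : 1 ≤ UN α β := by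
  unfold UN
  omega

lemma coef_le (i : Fin k) : (α i).1.natAbs + (α i).2.natAbs ≤ UN α β := by
  unfold UN
  have := Finset.single_le_sum (f := fun i => (α i).1.natAbs + (α i).2.natAbs)
    (fun i _ => Nat.zero_le _) (Finset.mem_univ i)
  omega

lemma coef2_le (i j : Fin k) (hij : i ≠ j) :
    ((α i).1.natAbs + (α i).2.natAbs) + ((α j).1.natAbs + (α j).2.natAbs) ≤ UN α β := by
  unfold UN
  have := Finset.add_le_sum (s := Finset.univ) (f := fun i => (α i).1.natAbs + (α i).2.natAbs)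
    (fun i _ => Nat.zero_le _) (Finset.mem_univ i) (Finset.mem_univ j) hij
  omega

lemma coefQ_le (j : Fin m) : 1 + (β j).1.natAbs + (β j).2.natAbs ≤ UN α β := by
  unfold UN
  have := Finset.single_le_sum (f := fun j => 1 + (β j).1.natAbs + (β j).2.natAbs)
    (fun i _ => Nat.zero_le _) (Finset.mem_univ j)
  omega

lemma Lf_le (x : ℤ × ℤ) (i : Fin k) : (Lf (α i) x).natAbs ≤ UN α β * htn x := by
  have h1 := coef_le α β i
  have h2 : x.1.natAbs ≤ htn x := le_max_left _ _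
  have h3 : x.2.natAbs ≤ htn x := le_max_right _ _
  unfold Lf
  calc (x.1 * (α i).2 - x.2 * (α i).1).natAbs
      ≤ (x.1 * (α i).2).natAbs + (x.2 * (α i).1).natAbs := by omega
    _ = x.1.natAbs * (α i).2.natAbs + x.2.natAbs * (α i).1.natAbs := by
        rw [Int.natAbs_mul, Int.natAbs_mul]
    _ ≤ htn x * (α i).2.natAbs + htn x * (α i).1.natAbs := by gcongr
    _ = ((α i).1.natAbs + (α i).2.natAbs) * htn x := by ring
    _ ≤ UN α β * htn x := by gcongr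

lemma Qf_le (x : ℤ × ℤ) (j : Fin m) : (Qf (β j) x).natAbs ≤ UN α β * htn x ^ 2 := by
  have h0 := coefQ_le α β j
  have h1 : x.1.natAbs ≤ htn x := le_max_left _ _
  have h2 : x.2.natAbs ≤ htn x := le_max_right _ _
  have e : (Qf (β j) x).natAbs ≤ x.1.natAbs ^ 2 + (β j).1.natAbs * x.1.natAbs * x.2.natAbs +
      (β j).2.natAbs * x.2.natAbs ^ 2 := by
    unfold Qf
    refine (Int.natAbs_add_le _ _).trans ?_
    refine (Nat.add_le_add_right (Int.natAbs_add_le _ _) _).trans ?_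
    rw [Int.natAbs_mul, Int.natAbs_mul, Int.natAbs_mul, Int.natAbs_pow, Int.natAbs_pow]
  refine e.trans ?_
  calc x.1.natAbs ^ 2 + (β j).1.natAbs * x.1.natAbs * x.2.natAbs + (β j).2.natAbs * x.2.natAbs ^ 2
      ≤ htn x ^ 2 + (β j).1.natAbs * htn x * htn x + (β j).2.natAbs * htn x ^ 2 := by gcongr
    _ = (1 + (β j).1.natAbs + (β j).2.natAbs) * htn x ^ 2 := by ring
    _ ≤ UN α β * htn x ^ 2 := by gcongr

variable {α β} {e : Fin k → ℕ} {f : Fin m → ℕ}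

lemma L_ne (he : ∀ i, 1 ≤ e i) {x : ℤ × ℤ} (h : FF α β e f x ≠ 0) (i : Fin k) :
    Lf (α i) x ≠ 0 := by
  intro h0
  apply h
  unfold FF
  rw [Finset.prod_eq_zero (Finset.mem_univ i), zero_mul]
  rw [h0, Int.natAbs_zero, zero_pow]
  have := he i
  omega

lemma Q_ne (hf : ∀ j, 1 ≤ f j) {x : ℤ × ℤ} (h : FF α β e f x ≠ 0) (j : Fin m) :
    Qf (β j) x ≠ 0 := by
  intro h0
  apply h
  unfold FF
  rw [Finset.prod_eq_zero (Finset.mem_univ j), mul_zero]
  rw [h0, Int.natAbs_zero, zero_pow]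
  have := hf j
  omega

lemma L_le_FF (he : ∀ i, 1 ≤ e i) {x : ℤ × ℤ} (h : FF α β e f x ≠ 0) (i : Fin k) :
    (Lf (α i) x).natAbs ≤ FF α β e f x := by
  have h1 : (Lf (α i) x).natAbs ∣ FF α β e f x := by
    unfold FF
    refine dvd_mul_of_dvd_left ?_ _
    refine dvd_trans ?_ (Finset.dvd_prod_of_mem _ (Finset.mem_univ i))
    exact dvd_pow_self _ (by have := he i; omega)
  exact Nat.le_of_dvd (Nat.pos_of_ne_zero h) h1

lemma FF_le (x : ℤ × ℤ) : FF α β e f x ≤ (UN α β * htn x) ^ ((∑ i, e i) + 2 * ∑ j, f j) := by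
  have hU := UN_pos α β
  unfold FF
  rw [pow_add, pow_mul, ← Finset.prod_pow_eq_pow_sum, ← Finset.prod_pow_eq_pow_sum]
  refine Nat.mul_le_mul (Finset.prod_le_prod' fun i _ => Nat.pow_le_pow_left (Lf_le α β x i) _)
    (Finset.prod_le_prod' fun j _ => Nat.pow_le_pow_left ((Qf_le α β x j).trans ?_) _)
  rw [mul_pow]
  exact Nat.mul_le_mul (by nlinarith) le_rfl

lemma ht_le (hk : 3 ≤ k) (hα : Indep α) (he : ∀ i, 1 ≤ e i) {x : ℤ × ℤ}
    (h : FF α β e f x ≠ 0) : htn x ≤ UN α β * FF α β e f x := by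
  obtain ⟨i, hi⟩ : ∃ i : Fin k, i = ⟨0, by omega⟩ := ⟨_, rfl⟩
  obtain ⟨j, hj⟩ : ∃ j : Fin k, j = ⟨1, by omega⟩ := ⟨_, rfl⟩
  have hij : i ≠ j := by
    rw [hi, hj]
    intro h
    exact absurd (Fin.mk.inj_iff.1 h) (by norm_num)
  have hd := hα i j hij
  obtain ⟨d, hdd⟩ : ∃ d : ℤ, d = (α i).1 * (α j).2 - (α j).1 * (α i).2 := ⟨_, rfl⟩
  have hd0 : d ≠ 0 := by
    rw [hdd]
    exact sub_ne_zero.2 hd
  have hd1 : 1 ≤ d.natAbs := Int.natAbs_pos.2 hd0
  have hLi := L_le_FF he h i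
  have hLj := L_le_FF he h j
  have hc := coef2_le α β i j hij
  have e1 : d * x.1 = (α i).1 * Lf (α j) x - (α j).1 * Lf (α i) x := by
    rw [hdd]
    unfold Lf
    ring
  have e2 : d * x.2 = (α i).2 * Lf (α j) x - (α j).2 * Lf (α i) x := by
    rw [hdd]
    unfold Lf
    ring
  have f1 : x.1.natAbs ≤ UN α β * FF α β e f x := by
    calc x.1.natAbs ≤ d.natAbs * x.1.natAbs := Nat.le_mul_of_pos_left _ hd1
      _ = ((α i).1 * Lf (α j) x - (α j).1 * Lf (α i) x).natAbs := by rw [← e1, Int.natAbs_mul]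
      _ ≤ ((α i).1 * Lf (α j) x).natAbs + ((α j).1 * Lf (α i) x).natAbs := by omega
      _ = (α i).1.natAbs * (Lf (α j) x).natAbs + (α j).1.natAbs * (Lf (α i) x).natAbs := by
          rw [Int.natAbs_mul, Int.natAbs_mul]
      _ ≤ (α i).1.natAbs * FF α β e f x + (α j).1.natAbs * FF α β e f x := by gcongr
      _ = ((α i).1.natAbs + (α j).1.natAbs) * FF α β e f x := by ring
      _ ≤ _ := Nat.mul_le_mul (by omega) le_rfl
  have f2 : x.2.natAbs ≤ UN α β * FF α β e f x := by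
    calc x.2.natAbs ≤ d.natAbs * x.2.natAbs := Nat.le_mul_of_pos_left _ hd1
      _ = ((α i).2 * Lf (α j) x - (α j).2 * Lf (α i) x).natAbs := by rw [← e2, Int.natAbs_mul]
      _ ≤ ((α i).2 * Lf (α j) x).natAbs + ((α j).2 * Lf (α i) x).natAbs := by omega
      _ = (α i).2.natAbs * (Lf (α j) x).natAbs + (α j).2.natAbs * (Lf (α i) x).natAbs := by
          rw [Int.natAbs_mul, Int.natAbs_mul]
      _ ≤ (α i).2.natAbs * FF α β e f x + (α j).2.natAbs * FF α β e f x := by gcongr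
      _ = ((α i).2.natAbs + (α j).2.natAbs) * FF α β e f x := by ring
      _ ≤ _ := Nat.mul_le_mul (by omega) le_rfl
  exact max_le f1 f2

end

lemma log_rd (W : WeierstrassCurve ℤ) :
    Real.log (rd W) = ∑ p ∈ W.Δ.natAbs.primeFactors, Real.log (p : ℝ) := by
  unfold rd
  rw [Nat.cast_prod, Real.log_prod]
  intro p hp
  exact_mod_cast (Nat.prime_of_mem_primeFactors hp).ne_zero

lemma rd_pos (W : WeierstrassCurve ℤ) : 1 ≤ rd W :=
  Finset.prod_pos fun _ hp => (Nat.prime_of_mem_primeFactors hp).pos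

section

variable {k m : ℕ} {α : Fin k → ℤ × ℤ} {β : Fin m → ℤ × ℤ} {S : Finset ℕ}
  {e : Fin k → ℕ} {f : Fin m → ℕ}

/-- the primes outside `S` of the forms -/
def TT (α : Fin k → ℤ × ℤ) (β : Fin m → ℤ × ℤ) (S : Finset ℕ) (x : ℤ × ℤ) :
    Fin k ⊕ Fin m → Finset ℕ
  | Sum.inl i => (Lf (α i) x).natAbs.primeFactors \ S
  | Sum.inr j => (Qf (β j) x).natAbs.primeFactors \ S

lemma NQ_eq (x : ℤ × ℤ) : NQ α β S x = ∑ s, ∑ p ∈ TT α β S x s, Real.log (p : ℝ) := by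
  rw [Fintype.sum_sum_type]
  rfl

lemma NQ_le (hD : Dj α β S) (he : ∀ i, 1 ≤ e i) (hf : ∀ j, 1 ≤ f j) {x : ℤ × ℤ} (hn : Nrm x)
    {W : WeierstrassCurve ℤ} (hW : W.Δ ≠ 0) {κ : ℕ} (hκ : ∀ p : ℕ, p.Prime → p ∣ κ → p ∈ S)
    (h : κ * W.Δ.natAbs = FF α β e f x) : NQ α β S x ≤ Real.log (rd W) := by
  classical
  rw [log_rd, NQ_eq]
  have hmem : ∀ (s : Fin k ⊕ Fin m) (p : ℕ), p ∈ TT α β S x s → p.Prime ∧ p ∉ S := by
    intro s p hp
    rcases s with i | j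
    · have hp' := Finset.mem_sdiff.1 hp
      exact ⟨Nat.prime_of_mem_primeFactors hp'.1, hp'.2⟩
    · have hp' := Finset.mem_sdiff.1 hp
      exact ⟨Nat.prime_of_mem_primeFactors hp'.1, hp'.2⟩
  have hL : ∀ (i : Fin k) (p : ℕ), p ∈ TT α β S x (Sum.inl i) → (p : ℤ) ∣ Lf (α i) x := by
    intro i p hp
    exact Int.natCast_dvd.2 (Nat.dvd_of_mem_primeFactors (Finset.mem_sdiff.1 hp).1)
  have hQ : ∀ (j : Fin m) (p : ℕ), p ∈ TT α β S x (Sum.inr j) → (p : ℤ) ∣ Qf (β j) x := by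
    intro j p hp
    exact Int.natCast_dvd.2 (Nat.dvd_of_mem_primeFactors (Finset.mem_sdiff.1 hp).1)
  have hdis : Set.PairwiseDisjoint (↑(Finset.univ : Finset (Fin k ⊕ Fin m))) (TT α β S x) := by
    intro s _ s' _ hss
    rw [Function.onFun, Finset.disjoint_left]
    intro p h1 h2
    obtain ⟨hp, hpS⟩ := hmem s p h1
    obtain ⟨d1, d2, d3⟩ := hD x hn.1 p hp hpS
    rcases s with i | j
    · rcases s' with i' | j'
      · exact d1 i i' (fun h => hss (by rw [h])) (hL i p h1) (hL i' p h2)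
      · exact d2 i j' (hL i p h1) (hQ j' p h2)
    · rcases s' with i' | j'
      · exact d2 i' j (hL i' p h2) (hQ j p h1)
      · exact d3 j j' (fun h => hss (by rw [h])) (hQ j p h1) (hQ j' p h2)
  rw [← Finset.sum_biUnion hdis]
  refine Finset.sum_le_sum_of_subset_of_nonneg ?_ fun p _ _ => Real.log_natCast_nonneg p
  intro p hp
  rw [Finset.mem_biUnion] at hp
  obtain ⟨s, _, hp⟩ := hp
  obtain ⟨hpp, hpS⟩ := hmem s p hp
  rw [Nat.mem_primeFactors]
  refine ⟨hpp, ?_, by simpa using hW⟩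
  have h1 : p ∣ κ * W.Δ.natAbs := by
    rw [h]
    unfold FF
    rcases s with i | j
    · refine dvd_mul_of_dvd_left ?_ _
      refine dvd_trans ?_ (Finset.dvd_prod_of_mem _ (Finset.mem_univ i))
      exact dvd_pow (Int.natCast_dvd.1 (hL i p hp)) (by have := he i; omega)
    · refine dvd_mul_of_dvd_right ?_ _
      refine dvd_trans ?_ (Finset.dvd_prod_of_mem _ (Finset.mem_univ j))
      exact dvd_pow (Int.natCast_dvd.1 (hQ j p hp)) (by have := hf j; omega)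
  rcases (Nat.Prime.dvd_mul hpp).1 h1 with h2 | h2
  · exact absurd (hκ p hpp h2) hpS
  · exact h2

lemma rd_le (he : ∀ i, 1 ≤ e i) (hf : ∀ j, 1 ≤ f j) {x : ℤ × ℤ} {W : WeierstrassCurve ℤ}
    (hW : W.Δ ≠ 0) {κ : ℕ} (hκ0 : 0 < κ) (h : κ * W.Δ.natAbs = FF α β e f x) :
    rd W ≤ (UN α β * htn x) ^ (k + 2 * m) := by
  classical
  have hFF : FF α β e f x ≠ 0 := by
    rw [← h]
    exact (Nat.mul_pos hκ0 (Int.natAbs_pos.2 hW)).ne'
  have h1 : rd W ∣ (∏ i, (Lf (α i) x).natAbs) * ∏ j, (Qf (β j) x).natAbs := by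
    unfold rd
    refine Finset.prod_primes_dvd _ (fun p hp => (Nat.prime_of_mem_primeFactors hp).prime) ?_
    intro p hp
    have hpp := Nat.prime_of_mem_primeFactors hp
    have h2 : p ∣ FF α β e f x := by
      rw [← h]
      exact (Nat.dvd_of_mem_primeFactors hp).mul_left _
    unfold FF at h2
    rcases (Nat.Prime.dvd_mul hpp).1 h2 with h3 | h3
    · obtain ⟨i, _, hi⟩ := (hpp.prime.dvd_finsetProd_iff _).1 h3
      exact dvd_mul_of_dvd_left ((hpp.dvd_of_dvd_pow hi).trans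
        (Finset.dvd_prod_of_mem (fun i => (Lf (α i) x).natAbs) (Finset.mem_univ i))) _
    · obtain ⟨j, _, hj⟩ := (hpp.prime.dvd_finsetProd_iff _).1 h3
      exact dvd_mul_of_dvd_right ((hpp.dvd_of_dvd_pow hj).trans
        (Finset.dvd_prod_of_mem (fun j => (Qf (β j) x).natAbs) (Finset.mem_univ j))) _
  have h2 : 0 < (∏ i, (Lf (α i) x).natAbs) * ∏ j, (Qf (β j) x).natAbs :=
    Nat.mul_pos (Finset.prod_pos fun i _ => Int.natAbs_pos.2 (L_ne he hFF i))
      (Finset.prod_pos fun j _ => Int.natAbs_pos.2 (Q_ne hf hFF j))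
  refine (Nat.le_of_dvd h2 h1).trans ?_
  have hU := UN_pos α β
  have h3 : ∏ i, (Lf (α i) x).natAbs ≤ (UN α β * htn x) ^ k := by
    calc ∏ i, (Lf (α i) x).natAbs ≤ ∏ _i : Fin k, UN α β * htn x :=
          Finset.prod_le_prod' fun i _ => Lf_le α β x i
      _ = (UN α β * htn x) ^ k := by
          rw [Finset.prod_const, Finset.card_univ, Fintype.card_fin]
  have h4 : ∏ j, (Qf (β j) x).natAbs ≤ ((UN α β * htn x) ^ 2) ^ m := by
    calc ∏ j, (Qf (β j) x).natAbs ≤ ∏ _j : Fin m, (UN α β * htn x) ^ 2 := by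
          refine Finset.prod_le_prod' fun j _ => (Qf_le α β x j).trans ?_
          rw [mul_pow]
          exact Nat.mul_le_mul (by nlinarith) le_rfl
      _ = ((UN α β * htn x) ^ 2) ^ m := by
          rw [Finset.prod_const, Finset.card_univ, Fintype.card_fin]
  calc (∏ i, (Lf (α i) x).natAbs) * ∏ j, (Qf (β j) x).natAbs ≤
        (UN α β * htn x) ^ k * ((UN α β * htn x) ^ 2) ^ m := Nat.mul_le_mul h3 h4
    _ = _ := by rw [← pow_mul, ← pow_add]

end

lemma ncard_biUnion_le {T : Set (ℤ × ℤ)} (hT : T.Finite) (R : ℤ × ℤ → Finset (ℤ × ℤ)) (K : ℕ)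
    (hK : ∀ x, (R x).card ≤ K) {Y : Set (ℤ × ℤ)} (hY : ∀ g ∈ Y, ∃ x ∈ T, g ∈ R x) :
    Y.Finite ∧ (Y.ncard : ℝ) ≤ K * T.ncard := by
  classical
  have hsub : Y ⊆ ↑(hT.toFinset.biUnion R) := by
    intro g hg
    obtain ⟨x, hx, hgx⟩ := hY g hg
    rw [Finset.mem_coe, Finset.mem_biUnion]
    exact ⟨x, hT.mem_toFinset.2 hx, hgx⟩
  have hfin : Y.Finite := (Finset.finite_toSet _).subset hsub
  refine ⟨hfin, ?_⟩
  have h1 : Y.ncard ≤ (hT.toFinset.biUnion R).card := by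
    rw [← Set.ncard_coe_finset]
    exact Set.ncard_le_ncard hsub (Finset.finite_toSet _)
  have h2 : (hT.toFinset.biUnion R).card ≤ hT.toFinset.card * K :=
    Finset.card_biUnion_le_card_mul _ _ _ fun x _ => hK x
  rw [← Set.ncard_eq_toFinset_card _ hT] at h2
  have h3 : Y.ncard ≤ K * T.ncard := by rw [mul_comm]; exact h1.trans h2
  exact_mod_cast h3

/-- the points of a box at which a form takes a small value -/
lemma near_count (α : ℤ × ℤ) (hα : α ≠ (0, 0)) (H M : ℕ) :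
    ({x : ℤ × ℤ | htn x ≤ H ∧ (Lf α x).natAbs ≤ M} : Set (ℤ × ℤ)).Finite ∧
    ({x : ℤ × ℤ | htn x ≤ H ∧ (Lf α x).natAbs ≤ M} : Set (ℤ × ℤ)).ncard ≤
      (2 * H + 1) * (2 * M + 1) := by
  classical
  have hcard : ∀ n : ℕ, (Finset.Icc (-(n : ℤ)) n).card = 2 * n + 1 := by
    intro n
    rw [Int.card_Icc]
    omega
  have key : ∀ f : ℤ × ℤ → ℤ × ℤ,
      Set.InjOn f {x : ℤ × ℤ | htn x ≤ H ∧ (Lf α x).natAbs ≤ M} →
      (∀ x ∈ {x : ℤ × ℤ | htn x ≤ H ∧ (Lf α x).natAbs ≤ M},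
        f x ∈ (↑((Finset.Icc (-(H : ℤ)) H) ×ˢ (Finset.Icc (-(M : ℤ)) M)) : Set (ℤ × ℤ))) →
      ({x : ℤ × ℤ | htn x ≤ H ∧ (Lf α x).natAbs ≤ M} : Set (ℤ × ℤ)).Finite ∧
      ({x : ℤ × ℤ | htn x ≤ H ∧ (Lf α x).natAbs ≤ M} : Set (ℤ × ℤ)).ncard ≤
      (2 * H + 1) * (2 * M + 1) := by
    intro f hf hm
    have hfin := Set.Finite.of_injOn hm hf (Finset.finite_toSet _)
    refine ⟨hfin, ?_⟩
    have h1 := Set.ncard_le_ncard_of_injOn f hm hf (Finset.finite_toSet _)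
    rw [Set.ncard_coe_finset, Finset.card_product, hcard, hcard] at h1
    exact h1
  by_cases h1 : α.1 = 0
  · have h2 : α.2 ≠ 0 := by
      intro h2
      exact hα (Prod.ext h1 h2)
    refine key (fun x => (x.2, Lf α x)) ?_ ?_
    · rintro x - y - hxy
      simp only [Prod.mk.injEq] at hxy
      obtain ⟨e1, e2⟩ := hxy
      unfold Lf at e2
      rw [e1] at e2
      refine Prod.ext ?_ e1
      exact mul_right_cancel₀ h2 (by linarith)
    · rintro x ⟨hx1, hx2⟩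
      have h3 : x.2.natAbs ≤ htn x := le_max_right _ _
      rw [Finset.mem_coe, Finset.mem_product, Finset.mem_Icc, Finset.mem_Icc]
      simp only
      omega
  · refine key (fun x => (x.1, Lf α x)) ?_ ?_
    · rintro x - y - hxy
      simp only [Prod.mk.injEq] at hxy
      obtain ⟨e1, e2⟩ := hxy
      unfold Lf at e2
      rw [e1] at e2
      refine Prod.ext e1 ?_
      exact mul_right_cancel₀ h1 (by linarith)
    · rintro x ⟨hx1, hx2⟩
      have h3 : x.1.natAbs ≤ htn x := le_max_left _ _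
      rw [Finset.mem_coe, Finset.mem_product, Finset.mem_Icc, Finset.mem_Icc]
      simp only
      omega

lemma hh_htn (x : ℤ × ℤ) : hh x = Real.log (htn x) := rfl

lemma hh_nonneg (x : ℤ × ℤ) : 0 ≤ hh x := Real.log_natCast_nonneg _

lemma htn_pos {x : ℤ × ℤ} (hx : x ≠ (0, 0)) : 0 < htn x := by
  rcases Nat.eq_zero_or_pos (htn x) with h0 | h0
  · exfalso
    apply hx
    unfold htn at h0
    have h1 : x.1.natAbs = 0 := by omega
    have h2 : x.2.natAbs = 0 := by omega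
    exact Prod.ext (by simp only; omega) (by simp only; omega)
  · exact h0

/-- a curve of the family gives a point -/
lemma mem_PtsQ {k m : ℕ} (hk : 3 ≤ k) {α : Fin k → ℤ × ℤ} {β : Fin m → ℤ × ℤ} {S : Finset ℕ}
    {e : Fin k → ℕ} {f : Fin m → ℕ} (hα : Indep α) (hD : Dj α β S) (he : ∀ i, 1 ≤ e i)
    (hf : ∀ j, 1 ≤ f j) {x : ℤ × ℤ} (hn : Nrm x) (hl : ∀ i, Lf (α i) x ≠ 0)
    {W : WeierstrassCurve ℤ} (hW : W.Δ ≠ 0) {κ A0 : ℕ} (hκ0 : 0 < κ) (hκA : κ ≤ A0)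
    (hκ : ∀ p : ℕ, p.Prime → p ∣ κ → p ∈ S) (h : κ * W.Δ.natAbs = FF α β e f x)
    {A X : ℝ} (hX : (rd W : ℝ) ≤ X) (hΔ : |(W.Δ : ℝ)| ≤ X ^ A) :
    x ∈ PtsQ α β S (UN α β * A0 : ℝ) A X := by
  have hFF : FF α β e f x ≠ 0 := by
    rw [← h]
    exact (Nat.mul_pos hκ0 (Int.natAbs_pos.2 hW)).ne'
  refine ⟨hn, hl, ?_, ?_⟩
  · have h1 := ht_le hk hα he hFF
    have hDn : |(W.Δ : ℝ)| = (W.Δ.natAbs : ℝ) := by
      rw [← Int.cast_abs, Int.abs_eq_natAbs]
      simp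
    rw [hDn] at hΔ
    calc (htn x : ℝ) ≤ ((UN α β * FF α β e f x : ℕ) : ℝ) := by exact_mod_cast h1
      _ = (UN α β : ℝ) * (κ * (W.Δ.natAbs : ℝ)) := by rw [← h]; push_cast; ring
      _ ≤ (UN α β : ℝ) * (A0 * X ^ A) := by
          have h2 : (κ : ℝ) ≤ A0 := by exact_mod_cast hκA
          gcongr
      _ = _ := by ring
  · refine (NQ_le hD he hf hn hW hκ h).trans ?_
    have := rd_pos W
    exact Real.log_le_log (by exact_mod_cast this) hX

end Pool.Agent.L0h46.TQ.GCom
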