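import Pool.Agent.L0h46.TQ.Defs
import Pool.Agent.Y680.T.Par

/-!
# TQ, module P10: the parametrisation of the curves with a rational point of order ten
-/

set_option autoImplicit false

open WeierstrassCurve

namespace Pool.Agent.L0h46.TQ.P10

open Pool.Agent.Y680.T

/-- the rational parametrisation of the surface `2 (w - l) (m² - l² - w²) = (l + m)² (l - m)` -/
lemma alg {w l m : ℚ} (hE : 2 * (w - l) * (m ^ 2 - l ^ 2 - w ^ 2) = (l + m) ^ 2 * (l - m))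
    (h1 : l - m ≠ 0) (h2 : l + m ≠ 0) :
    ∃ s k : ℚ, k ≠ 0 ∧ l = k * (1 - 2 * s + 2 * s ^ 2 - 2 * s ^ 3) ∧
      m = k * (1 - 2 * s + 2 * s ^ 3) := by
  obtain ⟨a, ha⟩ : ∃ a, a = l - w := ⟨_, rfl⟩
  obtain ⟨D, hD⟩ : ∃ D, D = m ^ 2 - l ^ 2 := ⟨_, rfl⟩
  have hw : w = l - a := by rw [ha]; ring
  have hE1 : D * (2 * a - l - m) = 2 * a * w ^ 2 := by
    rw [ha, hD]
    linear_combination -hE
  have ha0 : a ≠ 0 := by
    intro h
    have hw' : w = l := by rw [hw, h]; ring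
    rw [hw'] at hE
    have : (l + m) ^ 2 * (l - m) = 0 := by rw [← hE]; ring
    rcases mul_eq_zero.1 this with h3 | h3
    · exact h2 (pow_eq_zero_iff (two_ne_zero) |>.1 h3)
    · exact h1 h3
  have hw0 : w ≠ 0 := by
    intro h
    have hal : a = l := by rw [ha, h]; ring
    rw [h, hal, hD] at hE1
    have : (l + m) * (l - m) ^ 2 = 0 := by linear_combination -hE1
    rcases mul_eq_zero.1 this with h3 | h3
    · exact h2 h3
    · exact h1 (pow_eq_zero_iff (two_ne_zero) |>.1 h3)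
  obtain ⟨s, hs⟩ : ∃ s, s = 1 + D / (2 * w * a) := ⟨_, rfl⟩
  have hwa : 2 * w * a ≠ 0 := mul_ne_zero (mul_ne_zero two_ne_zero hw0) ha0
  have hDs : D = 2 * w * a * (s - 1) := by
    rw [hs]
    field_simp
    ring
  -- the second relation
  have e1 : (s - 1) * (2 * a - l - m) = w := by
    apply mul_left_cancel₀ hwa
    have : 2 * w * a * ((s - 1) * (2 * a - l - m)) = D * (2 * a - l - m) := by rw [hDs]; ring
    rw [this, hE1]
    ring
  have e2 : 2 * a * s ^ 2 = l - m := by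
    have h3 : (2 * w * a + D) ^ 2 = 2 * w ^ 2 * a * (l - m) := by
      have : 2 * w ^ 2 * a = D * (2 * a - l - m) := by rw [hE1]; ring
      rw [this]
      have h4 : 4 * w ^ 2 * a ^ 2 = 2 * a * (D * (2 * a - l - m)) := by rw [hE1]; ring
      have h5 : (2 * w * a + D) ^ 2 = 4 * w ^ 2 * a ^ 2 + 4 * w * a * D + D ^ 2 := by ring
      rw [h5, h4, hw]
      have h6 : D ^ 2 = D * (m ^ 2 - l ^ 2) := by rw [← hD]; ring
      rw [h6]
      ring
    have h7 : 2 * w * a + D = 2 * w * a * s := by rw [hDs]; ring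
    rw [h7] at h3
    apply mul_left_cancel₀ (mul_ne_zero (mul_ne_zero (two_ne_zero (α := ℚ)) (pow_ne_zero 2 hw0)) ha0)
    linear_combination h3
  have e3 : w * (1 - 2 * s) = 2 * s ^ 2 * a * (1 - s) := by
    have h3 : 2 * a - l - m = 2 * a * s ^ 2 - 2 * w := by
      rw [e2, hw]; ring
    rw [h3] at e1
    linear_combination e1
  have hs0 : 1 - 2 * s ≠ 0 := by
    intro h
    have hs2 : s = 1 / 2 := by linarith
    rw [h, hs2] at e3
    apply ha0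
    linarith
  refine ⟨s, a / (1 - 2 * s), div_ne_zero ha0 hs0, ?_, ?_⟩
  · rw [div_mul_eq_mul_div, eq_div_iff hs0]
    have : l = w + a := by rw [ha]; ring
    rw [this]
    linear_combination e3
  · rw [div_mul_eq_mul_div, eq_div_iff hs0]
    have h3 : m = w + a - 2 * a * s ^ 2 := by rw [e2, ha]; ring
    rw [h3]
    linear_combination e3

/-- the invariants in terms of the slopes of the tangents -/
lemma inva {W : WeierstrassCurve ℚ} {x p L M : ℚ} (hb2 : W.b₂ = 2 * L ^ 2 - M ^ 2 - 12 * x)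
    (hb4 : W.b₄ = L * p - 6 * x ^ 2 - W.b₂ * x)
    (hb6 : W.b₆ = p ^ 2 - 4 * x ^ 3 - W.b₂ * x ^ 2 - 2 * W.b₄ * x)
    (hp : 8 * p = (L + M) ^ 2 * (L - M)) :
    W.c₄ = g5 L M ∧ 4096 * W.Δ = (M ^ 2 - L ^ 2) ^ 5 *
      ((M - L) ^ 2 - 11 * (M ^ 2 - L ^ 2) - (M + L) ^ 2) := by
  have hp' : p = (L + M) ^ 2 * (L - M) / 8 := by linarith
  constructor
  · rw [WeierstrassCurve.c₄, hb4, hb2, hp', g5]
    ring
  · have e : 4 * W.Δ = -W.b₂ ^ 2 * (4 * W.b₈) - 32 * W.b₄ ^ 3 - 108 * W.b₆ ^ 2 +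
        36 * W.b₂ * W.b₄ * W.b₆ := by
      rw [WeierstrassCurve.Δ]
      ring
    have e' : 4096 * W.Δ = 1024 * (4 * W.Δ) := by ring
    rw [e', e, W.b_relation, hb6, hb4, hb2, hp']
    ring

lemma par10 {W : WeierstrassCurve ℚ} (P Q : W.toAffine.Point) (hP : 4 • P = -P) (hP0 : 2 • P ≠ 0)
    (hQ : 2 • Q = 0) (hQ0 : Q ≠ 0) :
    ∃ s k : ℚ, k ≠ 0 ∧ W.c₄ = k ^ 4 * g10 1 s ∧ W.Δ = k ^ 12 * h10 1 s := by
  have hP00 : P ≠ 0 := by
    rintro rfl
    exact hP0 (nsmul_zero 2)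
  obtain ⟨x1, y1, n1, rfl⟩ := exists_some P hP00
  obtain ⟨x0, y0, n0, rfl⟩ := exists_some Q hQ0
  have h1 : psi W x1 y1 ≠ 0 := fun h => hP0 (two_of_psi n1 h)
  obtain ⟨l1, x2, y2, n2, hl1, hx2, hy2, h2⟩ := dbl n1 h1
  have h4 : 2 • Affine.Point.some x2 y2 n2 = - Affine.Point.some x1 y1 n1 := by
    rw [← h2, ← mul_nsmul]
    exact hP
  have h20 : psi W x2 y2 ≠ 0 := by
    intro h
    rw [two_of_psi n2 h] at h4
    exact hP00 (neg_eq_zero.1 h4.symm)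
  obtain ⟨l2, x3, y3, n3, hl2, hx3, hy3, h3⟩ := dbl n2 h20
  rw [h4, Affine.Point.neg_some, Affine.Point.some.injEq] at h3
  obtain ⟨h31, h32⟩ := h3
  rw [← h31] at hx3 hy3
  rw [← h32, Affine.negY] at hy3
  have k2 := psi_sq n0.1
  rw [psi_of_two n0 hQ] at k2
  have k1 := psi_sq n1.1
  obtain ⟨p, hpp⟩ : ∃ p, p = psi W x1 y1 := ⟨_, rfl⟩
  obtain ⟨L, hL⟩ : ∃ L, L = W.a₁ + 2 * l1 := ⟨_, rfl⟩
  obtain ⟨M, hM⟩ : ∃ M, M = W.a₁ + 2 * l2 := ⟨_, rfl⟩
  rw [← hpp] at h1 hl1 k1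
  have hpsi : p = 2 * y1 + W.a₁ * x1 + W.a₃ := by rw [hpp, psi]
  have b2def : W.b₂ = W.a₁ ^ 2 + 4 * W.a₂ := rfl
  have b4def : W.b₄ = 2 * W.a₄ + W.a₁ * W.a₃ := rfl
  have r1 : 4 * (x2 + 2 * x1) = L ^ 2 - W.b₂ := by
    rw [hL, b2def]
    linear_combination 4 * hx2
  have r2 : 4 * (x1 + 2 * x2) = M ^ 2 - W.b₂ := by
    rw [hM, b2def]
    linear_combination 4 * hx3
  have hd : 4 * (x2 - x1) = M ^ 2 - L ^ 2 := by linear_combination r2 - r1
  have hb2 : W.b₂ = 2 * L ^ 2 - M ^ 2 - 12 * x1 := by linear_combination 2 * r1 - r2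
  have hb4 : W.b₄ = L * p - 6 * x1 ^ 2 - W.b₂ * x1 := by
    rw [hL, b4def, b2def]
    linear_combination (-2) * hl1 - W.a₁ * hpsi
  have hb6 : W.b₆ = p ^ 2 - 4 * x1 ^ 3 - W.b₂ * x1 ^ 2 - 2 * W.b₄ * x1 := by
    linear_combination -k1
  have hp2 : 2 * p = -(L + M) * (x2 - x1) := by
    rw [hL, hM]
    linear_combination 2 * hpsi + 2 * hy2 - 2 * hy3
  have hp : 8 * p = (L + M) ^ 2 * (L - M) := by
    linear_combination 4 * hp2 - (L + M) * hd
  have hX : (L * (x0 - x1) + p) ^ 2 = (x0 - x1) ^ 2 * ((M ^ 2 - L ^ 2) - 4 * (x0 - x1)) := by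
    rw [hb6, hb4, hb2] at k2
    linear_combination -k2
  obtain ⟨X, hXX⟩ : ∃ X, X = x0 - x1 := ⟨_, rfl⟩
  rw [← hXX] at hX
  have hX0 : X ≠ 0 := by
    intro h
    rw [h] at hX
    apply h1
    have : p ^ 2 = 0 := by linear_combination hX
    exact pow_eq_zero_iff (two_ne_zero) |>.1 this
  obtain ⟨w, hw⟩ : ∃ w, w = (L * X + p) / X := ⟨_, rfl⟩
  have hwX : w * X = L * X + p := by rw [hw]; field_simp
  have hw2 : 4 * X = M ^ 2 - L ^ 2 - w ^ 2 := by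
    apply mul_left_cancel₀ (pow_ne_zero 2 hX0)
    have : X ^ 2 * (M ^ 2 - L ^ 2 - w ^ 2) = X ^ 2 * (M ^ 2 - L ^ 2) - (w * X) ^ 2 := by ring
    rw [this, hwX, hX]
    ring
  have hE : 2 * (w - L) * (M ^ 2 - L ^ 2 - w ^ 2) = (L + M) ^ 2 * (L - M) := by
    rw [← hw2, ← hp]
    linear_combination 8 * hwX
  have hLM1 : L - M ≠ 0 := by
    intro h
    rw [h, mul_zero] at hp
    apply h1
    linarith
  have hLM2 : L + M ≠ 0 := by
    intro h
    rw [h] at hp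
    apply h1
    linarith
  obtain ⟨hc4, hDel⟩ := inva hb2 hb4 hb6 hp
  obtain ⟨s, k, hk, hLk, hMk⟩ := alg hE hLM1 hLM2
  refine ⟨s, k, hk, ?_, ?_⟩
  · rw [hc4, hLk, hMk]
    simp only [g10, g5]
    ring
  · have : 4096 * W.Δ = 4096 * (k ^ 12 * h10 1 s) := by
      rw [hDel, hLk, hMk]
      simp only [h10]
      ring
    linarith

theorem main : S_P10 := by
  intro W _ hT
  obtain ⟨f, hf⟩ := hT
  have hP : 4 • f 2 = - f 2 := by
    rw [← map_nsmul, ← map_neg]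
    congr 1
  have hP0 : 2 • f 2 ≠ 0 := by
    rw [← map_nsmul]
    intro h
    have : (2 • (2 : ZMod 10)) = 0 := hf (by rw [h, map_zero])
    exact absurd this (by decide)
  have hQ : 2 • f 5 = 0 := by
    rw [← map_nsmul]
    have : (2 • (5 : ZMod 10)) = 0 := by decide
    rw [this, map_zero]
  have hQ0 : f 5 ≠ 0 := by
    intro h
    have : (5 : ZMod 10) = 0 := hf (by rw [h, map_zero])
    exact absurd this (by decide)
  obtain ⟨s, k, hk, h1, h2⟩ := par10 (f 2) (f 5) hP hP0 hQ hQ0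
  refine ⟨1, s, k, hk, ?_, ?_⟩
  · rw [← h1, WeierstrassCurve.map_c₄]
    simp
  · rw [← h2, WeierstrassCurve.map_Δ]
    simp

end Pool.Agent.L0h46.TQ.P10
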