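import Pool.Agent.L0h46.TQ.Defs
import Pool.Agent.Y680.T.Intg
import Pool.Agent.Y680.T.Grp
import Pool.Agent.Y700.VC
import Pool.Agent.L0h5.T8.Stm

/-!
# Project TQ: tools
-/

set_option autoImplicit false

namespace Pool.Agent.L0h46.TQ

open Finset WeierstrassCurve Pool.Agent.W307.RT Pool.Agent.L0h5.T8 Pool.Agent.Y700

/-- the square roots of an integer -/
def sqs (n : ℤ) : Finset ℤ := {Int.sqrt n, -Int.sqrt n}

lemma sqs_card (n : ℤ) : (sqs n).card ≤ 2 := Finset.card_le_two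

lemma mem_sqs {n z : ℤ} (h : z ^ 2 = n) : z ∈ sqs n := by
  unfold sqs
  rw [Finset.mem_insert, Finset.mem_singleton, ← h, pow_two, Int.sqrt_eq]
  omega

/-- the possible invariants with given `c₄` and `Δ` -/
def RR (c D : ℤ) : Finset (ℤ × ℤ) := {c} ×ˢ sqs (c ^ 3 - 1728 * D)

lemma RR_card (c D : ℤ) : (RR c D).card ≤ 2 := by
  unfold RR
  rw [Finset.card_product, Finset.card_singleton, one_mul]
  exact sqs_card _

lemma mem_RR (W : WeierstrassCurve ℤ) {c D : ℤ} (hc : W.c₄ = c) (hD : W.Δ = D) :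
    inv W ∈ RR c D := by
  unfold inv RR
  rw [Finset.mem_product, Finset.mem_singleton]
  refine ⟨hc, mem_sqs ?_⟩
  have := W.c_relation
  rw [← hc, ← hD]
  linarith

/-- the scaling factor of a semistable curve is the inverse of an integer -/
theorem scaleK (c D g h : ℤ) (k0 : ℕ) (hk0 : ∀ p : ℕ, p.Prime → ¬ p ^ 12 ∣ k0)
    (hcop : IsCoprime c D) (l : ℚ) (hc : (c : ℚ) = l ^ 4 * g)
    (hd : (k0 : ℚ) * D = l ^ 12 * h) : ∃ t : ℕ, 0 < t ∧ (t : ℤ) ^ 4 * c = g ∧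
      (k0 : ℤ) * (t : ℤ) ^ 12 * D = h := by
  have hden : (l.den : ℚ) ≠ 0 := by exact_mod_cast l.den_nz
  have hl' : l * l.den = l.num := Rat.mul_den_eq_num l
  have e1 : (l.den : ℤ) ^ 4 * c = l.num ^ 4 * g := by
    have : (l.den : ℚ) ^ 4 * c = (l.num : ℚ) ^ 4 * g := by rw [hc, ← hl']; ring
    exact_mod_cast this
  have e2 : (l.den : ℤ) ^ 12 * ((k0 : ℤ) * D) = l.num ^ 12 * h := by
    have : (l.den : ℚ) ^ 12 * ((k0 : ℚ) * D) = (l.num : ℚ) ^ 12 * h := by rw [hd, ← hl']; ring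
    exact_mod_cast this
  have hn : l.num.natAbs = 1 := by
    by_contra hne
    obtain ⟨p, hp, hpn⟩ := Nat.exists_prime_and_dvd hne
    have hpi : Prime (p : ℤ) := Nat.prime_iff_prime_int.1 hp
    have h1 : (p : ℤ) ∣ l.num := Int.natCast_dvd.2 hpn
    have h2 : ¬ (p : ℤ) ∣ (l.den : ℤ) := by
      intro h2
      have h3 : p ∣ l.den := by exact_mod_cast h2
      have := Nat.dvd_gcd hpn h3
      rw [l.reduced] at this
      exact hp.one_lt.ne' (Nat.dvd_one.1 this)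
    have h3 : (p : ℤ) ∣ c := by
      have : (p : ℤ) ∣ (l.den : ℤ) ^ 4 * c := by
        rw [e1]
        exact (dvd_pow h1 (by norm_num)).mul_right _
      rcases hpi.dvd_mul.1 this with h4 | h4
      · exact absurd (hpi.dvd_of_dvd_pow h4) h2
      · exact h4
    have h4 : (p : ℤ) ∣ D := by
      by_contra h4
      have h5 : (p : ℤ) ^ 12 ∣ (l.den : ℤ) ^ 12 * ((k0 : ℤ) * D) := by
        rw [e2]
        exact (pow_dvd_pow_of_dvd h1 12).mul_right _
      have c1 : IsCoprime ((p : ℤ) ^ 12) ((l.den : ℤ) ^ 12) :=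
        IsCoprime.pow ((Prime.coprime_iff_not_dvd hpi).2 h2)
      have c2 : IsCoprime ((p : ℤ) ^ 12) D := IsCoprime.pow_left ((Prime.coprime_iff_not_dvd hpi).2 h4)
      have h6 := c2.dvd_of_dvd_mul_right (c1.dvd_of_dvd_mul_left h5)
      exact hk0 p hp (by exact_mod_cast h6)
    exact hpi.not_isUnit (hcop.isUnit_of_dvd' h3 h4)
  have hn2 : l.num ^ 2 = 1 := by
    rw [← Int.natAbs_sq, hn]
    norm_num
  refine ⟨l.den, l.den_pos, ?_, ?_⟩
  · rw [e1, show l.num ^ 4 = (l.num ^ 2) ^ 2 by ring, hn2]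
    ring
  · rw [show (k0 : ℤ) * (l.den : ℤ) ^ 12 * D = (l.den : ℤ) ^ 12 * ((k0 : ℤ) * D) by ring, e2,
      show l.num ^ 12 = (l.num ^ 2) ^ 6 by ring, hn2]
    ring

/-- the short form -/
theorem vrSh (W : WeierstrassCurve ℤ) :
    VR (Sh (-27 * W.c₄) (-54 * W.c₆)) (W.map (Int.castRingHom ℚ)) 6 (3 * (W.b₂ : ℚ))
      (3 * (W.a₁ : ℚ)) (108 * (W.a₃ : ℚ)) := by
  constructor
  · norm_num
  all_goals
    simp only [Sh, WeierstrassCurve.map, WeierstrassCurve.c₄, WeierstrassCurve.c₆,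
      WeierstrassCurve.b₂, WeierstrassCurve.b₄, WeierstrassCurve.b₆, Int.coe_castRingHom]
    push_cast
    ring

theorem disc_sh (W : WeierstrassCurve ℤ) :
    4 * (-27 * W.c₄) ^ 3 + 27 * (-54 * W.c₆) ^ 2 = -(27 ^ 3 * 4 * 1728) * W.Δ := by
  have := W.c_relation
  linear_combination (-27 ^ 3 * 4) * (-1) * this

theorem disc_ne {W : WeierstrassCurve ℤ} (hD : W.Δ ≠ 0) :
    4 * (-27 * W.c₄) ^ 3 + 27 * (-54 * W.c₆) ^ 2 ≠ 0 := by
  rw [disc_sh]
  exact mul_ne_zero (by norm_num) hD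

theorem sh_ne {W : WeierstrassCurve ℤ} (hD : W.Δ ≠ 0) : (W.map (Int.castRingHom ℚ)).Δ ≠ 0 := by
  rw [WeierstrassCurve.map_Δ]
  simpa using hD

/-- the group of points in short form -/
noncomputable def shEquiv {W : WeierstrassCurve ℤ} (hD : W.Δ ≠ 0) :
    (W.map (Int.castRingHom ℚ)).toAffine.Point ≃+ (Sh (-27 * W.c₄) (-54 * W.c₆)).toAffine.Point :=
  (vrSh W).equiv (sh_ne hD)

section
variable {A : Type*} [AddCommGroup A]

theorem order_of_emb {n : ℕ} [NeZero n] (h : ∃ f : ZMod n →+ A, Function.Injective f) :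
    ∃ P : A, addOrderOf P = n := by
  obtain ⟨f, hf⟩ := h
  exact ⟨f 1, by rw [addOrderOf_injective f hf, ZMod.addOrderOf_one]⟩

theorem emb_of_order {n : ℕ} [NeZero n] {P : A} (hP : addOrderOf P = n) :
    ∃ f : ZMod n →+ A, Function.Injective f := by
  have h0 : n • P = 0 := by rw [← hP]; exact addOrderOf_nsmul_eq_zero P
  refine ⟨Pool.Agent.Y680.T.hom1 n P h0, (injective_iff_map_eq_zero _).2 fun x hx => ?_⟩
  obtain ⟨k, hk, rfl⟩ : ∃ k : ℕ, k < n ∧ (k : ZMod n) = x := ⟨x.val, x.val_lt, by simp⟩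
  rw [Pool.Agent.Y680.T.hom1_coe] at hx
  have h1 := addOrderOf_dvd_of_nsmul_eq_zero hx
  rw [hP] at h1
  rw [(ZMod.natCast_eq_zero_iff k n).2 h1]

theorem emb28_of_order {P Q : A} (hP : addOrderOf P = 8) (hQ : addOrderOf Q = 2)
    (hPQ : Q ∉ AddSubgroup.zmultiples P) : ∃ f : ZMod 2 × ZMod 8 →+ A, Function.Injective f := by
  have h8 : 8 • P = 0 := by rw [← hP]; exact addOrderOf_nsmul_eq_zero P
  have h2 : 2 • Q = 0 := by rw [← hQ]; exact addOrderOf_nsmul_eq_zero Q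
  refine ⟨(Pool.Agent.Y680.T.hom1 2 Q h2).coprod (Pool.Agent.Y680.T.hom1 8 P h8),
    (injective_iff_map_eq_zero _).2 ?_⟩
  rintro ⟨x, y⟩ hx
  obtain ⟨k, hk, rfl⟩ : ∃ k : ℕ, k < 2 ∧ (k : ZMod 2) = x := ⟨x.val, x.val_lt, by simp⟩
  obtain ⟨l, hl, rfl⟩ : ∃ l : ℕ, l < 8 ∧ (l : ZMod 8) = y := ⟨y.val, y.val_lt, by simp⟩
  rw [AddMonoidHom.coprod_apply] at hx
  simp only at hx
  rw [Pool.Agent.Y680.T.hom1_coe, Pool.Agent.Y680.T.hom1_coe] at hx
  interval_cases k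
  · rw [zero_smul, zero_add] at hx
    have h1 := addOrderOf_dvd_of_nsmul_eq_zero hx
    rw [hP] at h1
    have : l = 0 := Nat.eq_zero_of_dvd_of_lt h1 hl
    subst this
    rfl
  · exfalso
    apply hPQ
    rw [one_smul] at hx
    rw [AddSubgroup.mem_zmultiples_iff]
    refine ⟨-(l : ℤ), ?_⟩
    rw [neg_smul, natCast_zsmul]
    exact (eq_neg_of_add_eq_zero_left hx).symm

theorem order_of_emb28 (h : ∃ f : ZMod 2 × ZMod 8 →+ A, Function.Injective f) :
    ∃ P Q : A, addOrderOf P = 8 ∧ addOrderOf Q = 2 ∧ Q ∉ AddSubgroup.zmultiples P := by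
  obtain ⟨f, hf⟩ := h
  refine ⟨f (0, 1), f (1, 0), ?_, ?_, ?_⟩
  · rw [addOrderOf_injective f hf]
    exact (addOrderOf_eq_iff (by norm_num)).2 (by decide)
  · rw [addOrderOf_injective f hf]
    exact (addOrderOf_eq_iff (by norm_num)).2 (by decide)
  · rw [AddSubgroup.mem_zmultiples_iff]
    rintro ⟨k, hk⟩
    rw [← map_zsmul] at hk
    have h1 := hf hk
    have h2 := congrArg Prod.fst h1
    simp at h2

end

theorem hasP_of {W : WeierstrassCurve ℤ} (hD : W.Δ ≠ 0) {n : ℕ} [NeZero n]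
    (h : TorQ (ZMod n) W) : HasP n (Sh (-27 * W.c₄) (-54 * W.c₆)) := by
  obtain ⟨P, hP⟩ := order_of_emb h
  refine ⟨shEquiv hD P, ?_⟩
  rw [← hP]
  exact addOrderOf_injective (shEquiv hD).toAddMonoidHom (shEquiv hD).injective P

theorem torQ_of {W : WeierstrassCurve ℤ} (hD : W.Δ ≠ 0) {n : ℕ} [NeZero n]
    (h : HasP n (Sh (-27 * W.c₄) (-54 * W.c₆))) : TorQ (ZMod n) W := by
  obtain ⟨P, hP⟩ := h
  refine emb_of_order (P := (shEquiv hD).symm P) ?_
  rw [← hP]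
  exact addOrderOf_injective (shEquiv hD).symm.toAddMonoidHom (shEquiv hD).symm.injective P

theorem hasT_of {W : WeierstrassCurve ℤ} (hD : W.Δ ≠ 0)
    (h : TorQ (ZMod 2 × ZMod 8) W) : HasT 8 (Sh (-27 * W.c₄) (-54 * W.c₆)) := by
  obtain ⟨P, Q, h1, h2, h3⟩ := order_of_emb28 h
  refine ⟨shEquiv hD P, shEquiv hD Q, ?_, ?_, ?_⟩
  · rw [← h1]
    exact addOrderOf_injective (shEquiv hD).toAddMonoidHom (shEquiv hD).injective P
  · rw [← h2]
    exact addOrderOf_injective (shEquiv hD).toAddMonoidHom (shEquiv hD).injective Q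
  · rintro ⟨k, hk⟩
    apply h3
    refine ⟨k, (shEquiv hD).injective ?_⟩
    rw [← hk]
    exact map_zsmul (shEquiv hD) k P

theorem torQ28_of {W : WeierstrassCurve ℤ} (hD : W.Δ ≠ 0)
    (h : HasT 8 (Sh (-27 * W.c₄) (-54 * W.c₆))) : TorQ (ZMod 2 × ZMod 8) W := by
  obtain ⟨P, Q, h1, h2, h3⟩ := h
  refine emb28_of_order (P := (shEquiv hD).symm P) (Q := (shEquiv hD).symm Q) ?_ ?_ ?_
  · rw [← h1]
    exact addOrderOf_injective (shEquiv hD).symm.toAddMonoidHom (shEquiv hD).symm.injective P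
  · rw [← h2]
    exact addOrderOf_injective (shEquiv hD).symm.toAddMonoidHom (shEquiv hD).symm.injective Q
  · rintro ⟨k, hk⟩
    apply h3
    refine ⟨k, (shEquiv hD).symm.injective ?_⟩
    rw [← hk]
    exact map_zsmul (shEquiv hD).symm k P

end Pool.Agent.L0h46.TQ
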