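import Pool.Agent.L0h46.TQ.Tools

/-!
# TQ: a criterion for `Up`
-/

set_option autoImplicit false

open WeierstrassCurve

namespace Pool.Agent.L0h46.TQ

open Finset

/-- the possible invariants -/
def RQ (g h : ℤ × ℤ → ℤ) (k0 : ℕ) (x : ℤ × ℤ) : Finset (ℤ × ℤ) :=
  (Finset.Icc 1 8).biUnion fun t : ℕ => RR (g x / (t : ℤ) ^ 4) (h x / ((k0 : ℤ) * (t : ℤ) ^ 12))

lemma RQ_card (g h : ℤ × ℤ → ℤ) (k0 : ℕ) (x : ℤ × ℤ) : (RQ g h k0 x).card ≤ 16 := by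
  unfold RQ
  refine (Finset.card_biUnion_le_card_mul _ _ 2 fun t _ => RR_card _ _).trans ?_
  simp

lemma pow_le8 {t : ℕ} (ht : 0 < t) (hp : ∀ p, p.Prime → p ∣ t → p = 2) (h4 : ¬ 16 ∣ t) :
    t ≤ 8 := by
  have h := Nat.eq_prime_pow_of_unique_prime_dvd ht.ne' (p := 2) (fun {d} h1 h2 => hp d h1 h2)
  rcases Nat.lt_or_ge t.primeFactorsList.length 4 with h5 | h5
  · rw [h]
    calc 2 ^ t.primeFactorsList.length ≤ 2 ^ 3 := Nat.pow_le_pow_right (by norm_num) (by omega)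
      _ = 8 := by norm_num
  · exfalso
    apply h4
    rw [h]
    exact pow_dvd_pow 2 h5

lemma no16 {t : ℕ} {c g : ℤ} (h : (t : ℤ) ^ 4 * c = g) (hg : ¬ (65536 : ℤ) ∣ g) : ¬ 16 ∣ t := by
  rintro ⟨s, rfl⟩
  apply hg
  rw [← h]
  exact ⟨(s : ℤ) ^ 4 * c, by push_cast; ring⟩

/-- a criterion for `Up` -/
theorem up_of {k m : ℕ} {α : Fin k → ℤ × ℤ} {β : Fin m → ℤ × ℤ} {S : Finset ℕ}
    {e : Fin k → ℕ} {f : Fin m → ℕ} {P : WeierstrassCurve ℤ → Prop} (g h : ℤ × ℤ → ℤ) (k0 : ℕ)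
    (hk0 : 0 < k0) (hS : ∀ p : ℕ, p.Prime → p ∣ k0 → p ∈ S) (h2 : 2 ∈ S)
    (he : ∀ i, 1 ≤ e i) (hFF : ∀ x, (h x).natAbs = FF α β e f x)
    (H : ∀ W, P W → W.Δ ≠ 0 ∧ ∃ x, Nrm x ∧ ∃ t : ℕ, 0 < t ∧ (∀ p : ℕ, p.Prime → p ∣ t → p = 2) ∧
      (t : ℤ) ^ 4 * W.c₄ = g x ∧ (k0 : ℤ) * (t : ℤ) ^ 12 * W.Δ = h x ∧ ¬ (65536 : ℤ) ∣ g x) :
    Up α β S e f P := by
  refine ⟨k0 * 8 ^ 12, 16, RQ g h k0, RQ_card g h k0, ?_⟩
  intro W hW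
  obtain ⟨hD, x, hx, t, ht, hp, h1, h3, h4⟩ := H W hW
  have ht8 : t ≤ 8 := pow_le8 ht hp (no16 h1 h4)
  have hF : k0 * t ^ 12 * W.Δ.natAbs = FF α β e f x := by
    rw [← hFF, ← h3, Int.natAbs_mul, Int.natAbs_mul, Int.natAbs_pow, Int.natAbs_natCast,
      Int.natAbs_natCast]
  have hF0 : FF α β e f x ≠ 0 := by
    rw [← hF]
    exact Nat.mul_ne_zero (Nat.mul_ne_zero hk0.ne' (pow_ne_zero _ ht.ne')) (Int.natAbs_ne_zero.2 hD)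
  refine ⟨hD, x, hx, ?_, ⟨k0 * t ^ 12, Nat.mul_pos hk0 (pow_pos ht _), ?_, ?_, hF⟩, ?_⟩
  · intro i hi
    apply hF0
    unfold FF
    rw [Finset.prod_eq_zero (Finset.mem_univ i), zero_mul]
    rw [hi]
    exact zero_pow (by have := he i; omega)
  · exact Nat.mul_le_mul_left _ (Nat.pow_le_pow_left ht8 12)
  · intro p hpp hpd
    rcases (Nat.Prime.dvd_mul hpp).1 hpd with h5 | h5
    · exact hS p hpp h5
    · rw [hp p hpp (hpp.dvd_of_dvd_pow h5)]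
      exact h2
  · unfold RQ
    rw [Finset.mem_biUnion]
    refine ⟨t, Finset.mem_Icc.2 ⟨ht, ht8⟩, ?_⟩
    have ht0 : (t : ℤ) ≠ 0 := by exact_mod_cast ht.ne'
    have hk00 : (k0 : ℤ) ≠ 0 := by exact_mod_cast hk0.ne'
    apply mem_RR
    · rw [← h1]
      exact (Int.mul_ediv_cancel_left _ (pow_ne_zero 4 ht0)).symm
    · rw [← h3]
      exact (Int.mul_ediv_cancel_left _ (mul_ne_zero hk00 (pow_ne_zero 12 ht0))).symm

/-- a prime dividing `c₄` and the discriminant -/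
lemma gGT_prime {p G T : ℤ} (hp : Prime p) (h1 : p ∣ gGT G T) (h2 : p ∣ T ∨ p ∣ G ∨ p ∣ G - T) :
    p ∣ T ∧ (p ∣ 2 ∨ p ∣ G) := by
  have hT : p ∣ T → p ∣ 2 ∨ p ∣ G := by
    intro h
    have h3 : p ∣ 2 ^ 4 * G ^ 2 := by
      have : 2 ^ 4 * G ^ 2 = gGT G T - T * (T - 16 * G) := by rw [gGT]; ring
      rw [this]
      exact dvd_sub h1 (h.mul_right _)
    rcases hp.dvd_mul.1 h3 with h4 | h4
    · exact Or.inl (hp.dvd_of_dvd_pow h4)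
    · exact Or.inr (hp.dvd_of_dvd_pow h4)
  have hG : p ∣ G → p ∣ T := by
    intro h
    apply hp.dvd_of_dvd_pow (n := 2)
    have : T ^ 2 = gGT G T - G * (16 * G - 16 * T) := by rw [gGT]; ring
    rw [this]
    exact dvd_sub h1 (h.mul_right _)
  rcases h2 with h | h | h
  · exact ⟨h, hT h⟩
  · exact ⟨hG h, Or.inr h⟩
  · have hG' : p ∣ G := by
      apply hp.dvd_of_dvd_pow (n := 2)
      have : G ^ 2 = gGT G T - (G - T) * (15 * G - T) := by rw [gGT]; ring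
      rw [this]
      exact dvd_sub h1 (h.mul_right _)
    exact ⟨hG hG', Or.inr hG'⟩

lemma odd_of {a b : ℤ} (hab : IsCoprime a b) (h : (2 : ℤ) ∣ a ^ 2 - b ^ 2) :
    a % 2 = 1 ∧ b % 2 = 1 := by
  have h1 : ¬ ((2 : ℤ) ∣ a ∧ (2 : ℤ) ∣ b) := by
    rintro ⟨h2, h3⟩
    have := hab.isUnit_of_dvd' h2 h3
    exact absurd this (by decide)
  have h2 : (2 : ℤ) ∣ (a - b) * (a + b) := by
    have : (a - b) * (a + b) = a ^ 2 - b ^ 2 := by ring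
    rw [this]
    exact h
  rcases Int.prime_two.dvd_mul.1 h2 with h3 | h3
  · omega
  · omega

lemma eight_dvd {a b : ℤ} (ha : a % 2 = 1) (hb : b % 2 = 1) : ∃ k, a ^ 2 - b ^ 2 = 8 * k := by
  have h1 := Int.sq_mod_four_eq_one_of_odd (Int.odd_iff.2 ha)
  obtain ⟨x, hx⟩ : ∃ x, a = 2 * x + 1 := ⟨a / 2, by omega⟩
  obtain ⟨y, hy⟩ : ∃ y, b = 2 * y + 1 := ⟨b / 2, by omega⟩
  obtain ⟨u, hu⟩ := Int.even_mul_succ_self x
  obtain ⟨v, hv⟩ := Int.even_mul_succ_self y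
  refine ⟨u - v, ?_⟩
  rw [hx, hy]
  linear_combination 4 * hu - 4 * hv

end Pool.Agent.L0h46.TQ
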